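import Pool.Agent.MP_67ad14_al.Div

/-!
# The derivations `D_{Z,R}` and the value of `F_r` on them
-/

namespace Pool.Agent.MP_67ad14_al

open TensorProduct Coalgebra WithConv

noncomputable section

attribute [local instance 100] LieRing.ofAssociativeRing

variable {g : ℕ}

/-- the map `x ↦ [x, e_i]` -/
def rad (i : Idx g) : Module.End ℚ (FL g) where
  toFun x := ⁅x, (bv i : FL g)⁆
  map_add' _ _ := add_lie _ _ _
  map_smul' _ _ := smul_lie _ _ _

@[simp] theorem rad_apply (i : Idx g) (x : FL g) : rad i x = ⁅x, (bv i : FL g)⁆ := rfl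

/-- the right action of the free algebra on the free Lie algebra -/
def actH (g : ℕ) : FreeAlgebra ℚ (Idx g) →ₐ[ℚ] (Module.End ℚ (FL g))ᵐᵒᵖ :=
  FreeAlgebra.lift ℚ fun i => MulOpposite.op (rad i)

/-- the right action of the free algebra on the free Lie algebra, `R ↦ R · w` -/
def act (R : FL g) : FreeAlgebra ℚ (Idx g) →ₗ[ℚ] FL g where
  toFun w := (actH g w).unop R
  map_add' v w := by rw [map_add]; rfl
  map_smul' c w := by rw [map_smul]; rfl

@[simp] theorem act_one (R : FL g) : act R 1 = R := by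
  change (actH g 1).unop R = R
  rw [map_one]; rfl

@[simp] theorem act_ι (R : FL g) (i : Idx g) : act R (FreeAlgebra.ι ℚ i) = ⁅R, (bv i : FL g)⁆ := by
  change (actH g (FreeAlgebra.ι ℚ i)).unop R = _
  rw [actH, FreeAlgebra.lift_ι_apply]; rfl

theorem act_mul (R : FL g) (v w : FreeAlgebra ℚ (Idx g)) : act R (v * w) = act (act R v) w := by
  change (actH g (v * w)).unop R = (actH g w).unop ((actH g v).unop R)
  rw [map_mul]; rfl

theorem act_add_left (R S : FL g) (w : FreeAlgebra ℚ (Idx g)) :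
    act (R + S) w = act R w + act S w := map_add ((actH g w).unop) R S

theorem act_smul_left (c : ℚ) (R : FL g) (w : FreeAlgebra ℚ (Idx g)) :
    act (c • R) w = c • act R w := map_smul ((actH g w).unop) c R

theorem act_jL (Z R : FL g) : act R (jL g Z) = ⁅R, Z⁆ := by
  induction Z using FL_induction generalizing R with
  | h0 => simp
  | hof i => rw [jL_bv, act_ι]
  | hadd x y hx hy => rw [map_add, map_add, hx, hy, lie_add]
  | hsmul c x hx => rw [map_smul, map_smul, hx, lie_smul]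
  | hlie x y hx hy =>
    rw [jL_lie, map_sub, act_mul, act_mul, hx, hy, hy, hx]
    rw [leibniz_lie R x y, ← lie_skew x ⁅R, y⁆]
    abel

theorem act_fox (Z R : FL g) : ∑ k, ⁅act R (fox k (jL g Z)), (bv k : FL g)⁆ = ⁅R, Z⁆ := by
  have h := fundamental (jL g Z)
  rw [jL_counit, map_zero, zero_add] at h
  rw [← act_jL Z R]
  conv_rhs => rw [h]
  rw [map_sum]
  refine Finset.sum_congr rfl fun k _ => ?_
  rw [act_mul, act_ι]

theorem act_FLdeg {a : ℕ} {R : FL g} (hR : R ∈ FLdeg g a) {n : ℕ} {w : FreeAlgebra ℚ (Idx g)}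
    (hw : w ∈ Tdeg g n) : act R w ∈ FLdeg g (a + n) := by
  refine Tdeg_induction (p := fun n w => act R w ∈ FLdeg g (a + n)) ?_ ?_ ?_ ?_ ?_ n hw
  · simpa using hR
  · intro n w i hw ih
    rw [act_mul, act_ι, ← add_assoc]
    have h1 : (bv i : FL g) ∈ FLdeg g 1 := Submodule.subset_span ⟨i, rfl⟩
    exact FLdeg_lie_mem _ _ ih h1
  · intro n; simp
  · intro n x y hx hy
    rw [map_add]; exact add_mem hx hy
  · intro n c x hx
    rw [map_smul]; exact Submodule.smul_mem _ c hx

/-- half of a tree derivation -/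
def hf (Z R : FL g) : LieDerivation ℚ (FL g) (FL g) :=
  exDer fun k => sg k • act R (fox (bar k) (jL g Z))

/-- the symplectic derivation attached to the tree obtained by joining the roots of `Z`, `R` -/
def trD (Z R : FL g) : LieDerivation ℚ (FL g) (FL g) := hf Z R + hf R Z

theorem der_omega0 (D : LieDerivation ℚ (FL g) (FL g)) :
    D (omega0 g) = ∑ k, sg k • ⁅D (bv k), (bv (bar k) : FL g)⁆ := by
  rw [omega0, map_sum, Fintype.sum_sum_type, ← Finset.sum_add_distrib]
  refine Finset.sum_congr rfl fun i _ => ?_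
  rw [LieDerivation.apply_lie_eq_sub]
  simp only [sg, bar, Sum.elim_inl, Sum.elim_inr, one_smul, neg_smul, Sum.swap_inl, Sum.swap_inr]
  rw [← lie_skew (bv (Sum.inl i)) (D (bv (Sum.inr i))), ← lie_skew (D (bv (Sum.inl i)))]
  abel

theorem hf_omega0 (Z R : FL g) : hf Z R (omega0 g) = ⁅R, Z⁆ := by
  rw [der_omega0, ← act_fox, ← sum_bar]
  refine Finset.sum_congr rfl fun k _ => ?_
  rw [hf, exDer_bv, bar_bar, smul_lie, smul_smul, sg_mul_self, one_smul]

theorem trD_omega0 (Z R : FL g) : trD Z R (omega0 g) = 0 := by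
  rw [trD, LieDerivation.add_apply, hf_omega0, hf_omega0, ← lie_skew Z R, add_neg_cancel]

theorem trD_hdeg {a b : ℕ} {Z R : FL g} (hZ : Z ∈ FLdeg g (a + 1)) (hR : R ∈ FLdeg g (b + 1)) :
    trD Z R ∈ hdeg g (a + b) := by
  refine ⟨trD_omega0 Z R, fun k => ?_⟩
  rw [trD, LieDerivation.add_apply, hf, hf, exDer_bv, exDer_bv]
  have h1 := act_FLdeg hR (Tdeg_fox (bar k) (jL_Tdeg _ hZ))
  have h2 := act_FLdeg hZ (Tdeg_fox (bar k) (jL_Tdeg _ hR))
  have e1 : b + 1 + a = a + b + 1 := by omega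
  have e2 : a + 1 + b = a + b + 1 := by omega
  rw [e1] at h1
  rw [e2] at h2
  exact add_mem (Submodule.smul_mem _ _ h1) (Submodule.smul_mem _ _ h2)

theorem Deep_act {R : FL g} (hR : Deep (jL g R)) (w : FreeAlgebra ℚ (Idx g)) :
    Deep (jL g (act R w)) := by
  induction w using FreeAlgebra.induction generalizing R with
  | grade0 c =>
    rw [Algebra.algebraMap_eq_smul_one, map_smul, act_one, map_smul]
    refine ⟨fun i => ?_, fun i j => ?_, fun i j k => ?_⟩
    · rw [fn_smul_apply, hR.1, mul_zero]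
    · rw [fn_smul_apply, hR.2.1, mul_zero]
    · rw [fn_smul_apply, hR.2.2, mul_zero]
  | grade1 l =>
    rw [act_ι, jL_lie, jL_bv]
    refine ⟨fun i => ?_, fun i j => ?_, fun i j k => ?_⟩
    · rw [fn_sub_apply, cY_mul, cY_mul, hR.1, jL_counit]; ring
    · rw [fn_sub_apply, cα_mul, cα_mul, hR.1, hR.1, hR.2.1, jL_counit]; ring
    · rw [fn_sub_apply, cβ_mul, cβ_mul, hR.1, hR.1, hR.2.1, hR.2.1, hR.2.2, jL_counit]; ring
  | mul v w hv hw =>
    rw [act_mul]
    exact hw (hv hR)
  | add v w hv hw =>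
    rw [map_add, map_add]
    have h1 := hv hR
    have h2 := hw hR
    refine ⟨fun i => ?_, fun i j => ?_, fun i j k => ?_⟩
    · rw [fn_add_apply, h1.1, h2.1, add_zero]
    · rw [fn_add_apply, h1.2.1, h2.2.1, add_zero]
    · rw [fn_add_apply, h1.2.2, h2.2.2, add_zero]

theorem Gf_fox_act (r : ℕ) (k : Idx g) {R : FL g} (hR : Deep (jL g R))
    (x w : FreeAlgebra ℚ (Idx g)) :
    (Gf g ^ r) (x * fox k (jL g (act R w))) = (Gf g ^ r) (x * (anti w * fox k (jL g R))) := by
  induction w using FreeAlgebra.induction generalizing R x with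
  | grade0 c =>
    rw [Algebra.algebraMap_eq_smul_one, map_smul, act_one, map_smul, map_smul, map_smul, anti_one,
      smul_mul_assoc, one_mul]
  | grade1 l =>
    rw [act_ι, jL_lie, jL_bv, map_sub, fox_mul_ι, fox_mul, jL_counit, zero_smul, add_zero, anti_ι,
      neg_mul, mul_sub, fn_sub_apply, mul_neg, fn_neg_apply]
    have h1 : (Gf g ^ r) (x * (if l = k then jL g R else 0)) = 0 := by
      split_ifs
      · exact Gf_deep (jL_prim R) hR r x
      · rw [mul_zero]; exact fn_zero_apply _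
    rw [h1, zero_sub]
  | mul v w hv hw =>
    rw [act_mul, hw (Deep_act hR v), anti_mul, ← mul_assoc x, hv hR, mul_assoc, mul_assoc]
  | add v w hv hw =>
    simp only [map_add, mul_add, add_mul, hv hR, hw hR]

theorem FrD_hf (r : ℕ) {Z R : FL g} (hR : Deep (jL g R)) :
    FrD g r (hf Z R) = ∑ k, sg k * (Gf g ^ r) (anti (fox (bar k) (jL g Z)) * fox k (jL g R)) := by
  rw [FrD_apply, dv]
  have e : ∀ f : Idx g → FreeAlgebra ℚ (Idx g), (Gf g ^ r) (∑ i, f i) = ∑ i, (Gf g ^ r) (f i) :=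
    fun f => map_sum (Gf g ^ r).ofConv f Finset.univ
  rw [e]
  refine Finset.sum_congr rfl fun k _ => ?_
  rw [hf, exDer_bv, map_smul, map_smul, fn_smul_apply]
  have h := Gf_fox_act r k hR 1 (fox (bar k) (jL g Z))
  rw [one_mul, one_mul] at h
  rw [h]

end

end Pool.Agent.MP_67ad14_al
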