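import Pool.Agent.MP_67ad14_al.Act

/-!
# Explicit symplectic derivations on which `F_r` does not vanish
-/

namespace Pool.Agent.MP_67ad14_al

open TensorProduct Coalgebra WithConv

noncomputable section

attribute [local instance 100] LieRing.ofAssociativeRing

variable {g : ℕ}

/-- induction in `TS S` -/
theorem TS_induction {S : Set (Idx g)} {p : FreeAlgebra ℚ (Idx g) → Prop}
    (hι : ∀ i ∈ S, p (FreeAlgebra.ι ℚ i)) (h1 : p 1) (_h0 : p 0)
    (hadd : ∀ x y, p x → p y → p (x + y)) (hsmul : ∀ (c : ℚ) x, p x → p (c • x))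
    (hmul : ∀ x y, x ∈ TS S → y ∈ TS S → p x → p y → p (x * y)) {w : FreeAlgebra ℚ (Idx g)}
    (hw : w ∈ TS S) : p w := by
  induction hw using Algebra.adjoin_induction with
  | mem x h => obtain ⟨i, hi, rfl⟩ := h; exact hι i hi
  | algebraMap r => rw [Algebra.algebraMap_eq_smul_one]; exact hsmul r _ h1
  | add x y hx hy h2 h3 => exact hadd x y h2 h3
  | mul x y hx hy h2 h3 => exact hmul x y hx hy h2 h3

theorem TS_smul {S : Set (Idx g)} (c : ℚ) {w : FreeAlgebra ℚ (Idx g)} (hw : w ∈ TS S) :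
    c • w ∈ TS S := Subalgebra.smul_mem _ hw c

theorem TS_fox {S : Set (Idx g)} (k : Idx g) {w : FreeAlgebra ℚ (Idx g)} (hw : w ∈ TS S) :
    fox k w ∈ TS S := by
  refine TS_induction (p := fun w => fox k w ∈ TS S) ?_ ?_ ?_ ?_ ?_ ?_ hw
  · intro i _
    rw [fox_ι]
    split_ifs
    · exact one_mem _
    · exact zero_mem _
  · rw [fox_one]; exact zero_mem _
  · rw [map_zero]; exact zero_mem _
  · intro x y hx hy; rw [map_add]; exact add_mem hx hy
  · intro c x hx; rw [map_smul]; exact TS_smul c hx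
  · intro x y hx hy h2 h3
    rw [fox_mul]; exact add_mem (mul_mem hx h3) (TS_smul _ h2)

theorem TS_fox_zero {S : Set (Idx g)} {k : Idx g} (hk : k ∉ S) {w : FreeAlgebra ℚ (Idx g)}
    (hw : w ∈ TS S) : fox k w = 0 := by
  refine TS_induction (p := fun w => fox k w = 0) ?_ ?_ ?_ ?_ ?_ ?_ hw
  · intro i hi
    rw [fox_ι, if_neg]
    rintro rfl
    exact hk hi
  · rw [fox_one]
  · rw [map_zero]
  · intro x y hx hy; rw [map_add, hx, hy, add_zero]
  · intro c x hx; rw [map_smul, hx, smul_zero]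
  · intro x y hx hy h2 h3
    rw [fox_mul, h2, h3, smul_zero, mul_zero, add_zero]

theorem TS_anti {S : Set (Idx g)} {w : FreeAlgebra ℚ (Idx g)} (hw : w ∈ TS S) :
    anti w ∈ TS S := by
  refine TS_induction (p := fun w => anti w ∈ TS S) ?_ ?_ ?_ ?_ ?_ ?_ hw
  · intro i hi; rw [anti_ι]; exact neg_mem (ι_mem_TS hi)
  · rw [anti_one]; exact one_mem _
  · rw [map_zero]; exact zero_mem _
  · intro x y hx hy; rw [map_add]; exact add_mem hx hy
  · intro c x hx; rw [map_smul]; exact TS_smul c hx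
  · intro x y hx hy h2 h3; rw [anti_mul]; exact mul_mem h3 h2

theorem fox_act_TS {S : Set (Idx g)} {k : Idx g} (hk : k ∉ S) {w : FreeAlgebra ℚ (Idx g)}
    (hw : w ∈ TS S) : ∀ R : FL g, fox k (jL g (act R w)) = anti w * fox k (jL g R) := by
  refine TS_induction (p := fun w => ∀ R : FL g, fox k (jL g (act R w))
    = anti w * fox k (jL g R)) ?_ ?_ ?_ ?_ ?_ ?_ hw
  · intro i hi R
    have hne : i ≠ k := by rintro rfl; exact hk hi
    rw [act_ι, jL_lie, jL_bv, map_sub, fox_mul_ι, fox_mul, jL_counit, if_neg hne, anti_ι]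
    simp
  · intro R; simp
  · intro R; simp
  · intro x y hx hy R; simp only [map_add, hx, hy, add_mul]
  · intro c x hx R; simp only [map_smul, hx, smul_mul_assoc]
  · intro x y hx hy h2 h3 R; rw [act_mul, h3, h2, anti_mul, mul_assoc]

/-- the Lie subalgebra generated by a set of letters -/
def LS (S : Set (Idx g)) : LieSubalgebra ℚ (FL g) := LieSubalgebra.lieSpan ℚ (FL g) (bv '' S)

theorem bv_mem_LS {S : Set (Idx g)} {i : Idx g} (h : i ∈ S) : (bv i : FL g) ∈ LS S :=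
  LieSubalgebra.subset_lieSpan ⟨i, h, rfl⟩

theorem jL_LS {S : Set (Idx g)} {z : FL g} (hz : z ∈ LS S) : jL g z ∈ TS S := by
  let K : LieSubalgebra ℚ (FL g) :=
    { carrier := {z | jL g z ∈ TS S}
      add_mem' := fun {a b} ha hb => by
        change jL g (a + b) ∈ TS S
        rw [map_add]; exact add_mem ha hb
      zero_mem' := by
        change jL g 0 ∈ TS S
        rw [map_zero]; exact zero_mem _
      smul_mem' := fun c x hx => by
        change jL g (c • x) ∈ TS S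
        rw [map_smul]; exact TS_smul c hx
      lie_mem' := fun {a b} ha hb => by
        change jL g ⁅a, b⁆ ∈ TS S
        rw [jL_lie]; exact sub_mem (mul_mem ha hb) (mul_mem hb ha) }
  have h : LS S ≤ K := by
    apply LieSubalgebra.lieSpan_le.mpr
    rintro _ ⟨i, hi, rfl⟩
    change jL g (bv i) ∈ TS S
    rw [jL_bv]; exact ι_mem_TS hi
  exact h hz

theorem act_LS {S : Set (Idx g)} {R : FL g} (hR : R ∈ LS S) {w : FreeAlgebra ℚ (Idx g)}
    (hw : w ∈ TS S) : act R w ∈ LS S := by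
  have : ∀ R : FL g, R ∈ LS S → act R w ∈ LS S := by
    refine TS_induction (p := fun w => ∀ R : FL g, R ∈ LS S → act R w ∈ LS S)
      ?_ ?_ ?_ ?_ ?_ ?_ hw
    · intro i hi R hR; rw [act_ι]; exact LieSubalgebra.lie_mem _ hR (bv_mem_LS hi)
    · intro R hR; rwa [act_one]
    · intro R hR; rw [map_zero]; exact zero_mem _
    · intro x y hx hy R hR; rw [map_add]; exact add_mem (hx R hR) (hy R hR)
    · intro c x hx R hR; rw [map_smul]; exact (LS S).smul_mem c (hx R hR)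
    · intro x y hx hy h2 h3 R hR; rw [act_mul]; exact h3 _ (h2 _ hR)
  exact this R hR

theorem hf_mem_LS {S : Set (Idx g)} {Z R : FL g} (hZ : Z ∈ LS S) (hR : R ∈ LS S) (i : Idx g) :
    hf Z R (bv i) ∈ LS S := by
  rw [hf, exDer_bv]
  exact (LS S).smul_mem _ (act_LS hR (TS_fox _ (jL_LS hZ)))

theorem trD_mem_LS {S : Set (Idx g)} {Z R : FL g} (hZ : Z ∈ LS S) (hR : R ∈ LS S) (i : Idx g) :
    trD Z R (bv i) ∈ LS S := by
  rw [trD, LieDerivation.add_apply]
  exact add_mem (hf_mem_LS hZ hR i) (hf_mem_LS hR hZ i)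

theorem trD_zero {S : Set (Idx g)} {Z R : FL g} (hZ : Z ∈ LS S) (hR : R ∈ LS S) {i : Idx g}
    (hi : bar i ∉ S) : trD Z R (bv i) = 0 := by
  rw [trD, LieDerivation.add_apply, hf, hf, exDer_bv, exDer_bv, TS_fox_zero hi (jL_LS hZ),
    TS_fox_zero hi (jL_LS hR)]
  simp

theorem trD_kill {S S' : Set (Idx g)} (hSS : ∀ i ∈ S', bar i ∉ S) {Z R : FL g} (hZ : Z ∈ LS S)
    (hR : R ∈ LS S) {z : FL g} (hz : z ∈ LS S') : trD Z R z = 0 := by
  let K : LieSubalgebra ℚ (FL g) :=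
    { carrier := {z | trD Z R z = 0}
      add_mem' := fun {a b} ha hb => by
        change trD Z R (a + b) = 0
        have ha' : trD Z R a = 0 := ha
        have hb' : trD Z R b = 0 := hb
        rw [map_add, ha', hb', add_zero]
      zero_mem' := map_zero (trD Z R)
      smul_mem' := fun c x hx => by
        change trD Z R (c • x) = 0
        have hx' : trD Z R x = 0 := hx
        rw [map_smul, hx', smul_zero]
      lie_mem' := fun {a b} ha hb => by
        change trD Z R ⁅a, b⁆ = 0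
        have ha' : trD Z R a = 0 := ha
        have hb' : trD Z R b = 0 := hb
        rw [LieDerivation.apply_lie_eq_sub, ha', hb']
        simp }
  have h : LS S' ≤ K := by
    apply LieSubalgebra.lieSpan_le.mpr
    rintro _ ⟨i, hi, rfl⟩
    exact trD_zero hZ hR (hSS i hi)
  exact h hz

/-- derivations supported on disjoint sets of handles commute -/
theorem trD_comm {S S' : Set (Idx g)} (hSS : ∀ i ∈ S', bar i ∉ S) (hSS' : ∀ i ∈ S, bar i ∉ S')
    {Z R Z' R' : FL g} (hZ : Z ∈ LS S) (hR : R ∈ LS S) (hZ' : Z' ∈ LS S') (hR' : R' ∈ LS S') :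
    ⁅trD Z R, trD Z' R'⁆ = 0 := by
  apply der_ext
  intro i
  rw [LieDerivation.lie_apply, trD_kill hSS hZ hR (trD_mem_LS hZ' hR' i),
    trD_kill hSS' hZ' hR' (trD_mem_LS hZ hR i)]
  simp

/-- value of `F_r` on the tree derivations -/
theorem FrD_trD {S1 S2 : Set (Idx g)} {p : Idx g} (hp1 : p ∉ S1) (hq2 : bar p ∉ S2)
    (hq1 : bar p ∉ S1) (hp2 : p ∉ S2)
    (h12 : ∀ k, k ∈ S2 → bar k ∉ S1)
    {W1 W2 : FreeAlgebra ℚ (Idx g)} (hW1 : W1 ∈ TS S1) (hW2 : W2 ∈ TS S2) {n1 n2 : ℕ}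
    (hd1 : W1 ∈ Tdeg g (n1 + 3)) (hd2 : W2 ∈ Tdeg g (n2 + 3)) (r : ℕ) :
    FrD g (2 * r + 1) (trD (act (bv p) W1) (act (bv (bar p)) (anti W2)))
      = 2 * (sg (bar p) * (Gf g ^ (2 * r + 1)) (W1 * W2)) := by
  set Z := act (bv p) W1 with hZdef
  set R := act (bv (bar p)) (anti W2) with hRdef
  have hbp : (bv p : FL g) ∈ FLdeg g 1 := Submodule.subset_span ⟨p, rfl⟩
  have hbq : (bv (bar p) : FL g) ∈ FLdeg g 1 := Submodule.subset_span ⟨bar p, rfl⟩
  have hZdeep : Deep (jL g Z) := by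
    have h := jL_Tdeg _ (act_FLdeg hbp hd1)
    have e : 1 + (n1 + 3) = n1 + 4 := by omega
    rw [e] at h
    exact Deep_Tdeg h
  have hRdeep : Deep (jL g R) := by
    have h := jL_Tdeg _ (act_FLdeg hbq (Tdeg_anti hd2))
    have e : 1 + (n2 + 3) = n2 + 4 := by omega
    rw [e] at h
    exact Deep_Tdeg h
  have hZT : jL g Z ∈ TS (S1 ∪ {p}) :=
    jL_LS (act_LS (bv_mem_LS (by simp)) (TS_mono Set.subset_union_left hW1))
  have hRT : jL g R ∈ TS (S2 ∪ {bar p}) :=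
    jL_LS (act_LS (bv_mem_LS (by simp)) (TS_mono Set.subset_union_left (TS_anti hW2)))
  have hfZ : fox p (jL g Z) = anti W1 := by
    rw [hZdef, fox_act_TS hp1 hW1, jL_bv, fox_ι, if_pos rfl, mul_one]
  have hfR : fox (bar p) (jL g R) = W2 := by
    rw [hRdef, fox_act_TS hq2 (TS_anti hW2), jL_bv, fox_ι, if_pos rfl, mul_one, anti_anti]
  have e1 : FrD g (2 * r + 1) (hf Z R) = sg (bar p) * (Gf g ^ (2 * r + 1)) (W1 * W2) := by
    rw [FrD_hf _ hRdeep, Finset.sum_eq_single (bar p)]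
    · rw [bar_bar, hfZ, hfR, anti_anti]
    · intro k _ hk
      by_cases hk2 : k ∈ S2
      · have h3 : bar k ∉ S1 ∪ {p} := by
          rintro (h | h)
          · exact h12 k hk2 h
          · apply hk
            rw [← Set.mem_singleton_iff.mp h, bar_bar]
        rw [TS_fox_zero h3 hZT, map_zero, zero_mul, fn_zero_apply, mul_zero]
      · have h3 : k ∉ S2 ∪ {bar p} := by
          rintro (h | h)
          · exact hk2 h
          · exact hk h
        rw [TS_fox_zero h3 hRT, mul_zero, fn_zero_apply, mul_zero]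
    · intro h; exact absurd (Finset.mem_univ _) h
  have e2 : FrD g (2 * r + 1) (hf R Z) = sg p * (-(Gf g ^ (2 * r + 1)) (W1 * W2)) := by
    rw [FrD_hf _ hZdeep, Finset.sum_eq_single p]
    · rw [hfZ, hfR, ← anti_mul, Gf_anti]
      have : (-1 : ℚ) ^ (2 * r + 1) = -1 := by
        rw [pow_succ, pow_mul]; norm_num
      rw [this, neg_one_mul]
    · intro k _ hk
      by_cases hk1 : k ∈ S1
      · have h3 : bar k ∉ S2 ∪ {bar p} := by
          rintro (h | h)
          · have := h12 _ h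
            rw [bar_bar] at this
            exact this hk1
          · apply hk
            have := congrArg bar (Set.mem_singleton_iff.mp h)
            rwa [bar_bar, bar_bar] at this
        rw [TS_fox_zero h3 hRT, map_zero, zero_mul, fn_zero_apply, mul_zero]
      · have h3 : k ∉ S1 ∪ {p} := by
          rintro (h | h)
          · exact hk1 h
          · exact hk h
        rw [TS_fox_zero h3 hZT, mul_zero, fn_zero_apply, mul_zero]
    · intro h; exact absurd (Finset.mem_univ _) h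
  rw [trD, map_add, e1, e2, sg_bar]
  ring

/-- the number of the handle of a letter -/
def hv : Idx g → ℕ := Sum.elim Fin.val Fin.val

@[simp] theorem hv_bar (i : Idx g) : hv (bar i) = hv i := by
  rcases i with i | i <;> rfl

/-- letters on the handles `a, …, b - 1` -/
def LT (g a b : ℕ) : Set (Idx g) := {i | a ≤ hv i ∧ hv i < b}

theorem mem_LT {a b : ℕ} {i : Idx g} : i ∈ LT g a b ↔ a ≤ hv i ∧ hv i < b := Iff.rfl

section letters

variable [NeZero g]

/-- the letter `x_m` -/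
def xl (g m : ℕ) [NeZero g] : Idx g := Sum.inl (Fin.ofNat g m)

theorem hv_xl {m : ℕ} (h : m < g) : hv (xl g m) = m := Nat.mod_eq_of_lt h

@[simp] theorem sg_bar_xl (m : ℕ) : sg (bar (xl g m)) = -1 := rfl

/-- the product of `n` blocks, on the handles `a, …, a + 2 n - 1` -/
def Wd (g a : ℕ) [NeZero g] : ℕ → FreeAlgebra ℚ (Idx g)
  | 0 => 1
  | (n + 1) => Wd g a n * blk (xl g (a + 2 * n)) (xl g (a + 2 * n + 1))

theorem blk_Tdeg (s c : Idx g) : blk s c ∈ Tdeg g 8 := by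
  have h4 : ∀ s c : Idx g, z4 s c ∈ Tdeg g 2 := fun s c =>
    sub_mem (Tdeg_mul (ι_mem_Tdeg s) (ι_mem_Tdeg c)) (Tdeg_mul (ι_mem_Tdeg c) (ι_mem_Tdeg s))
  have h5 : ∀ s c : Idx g, z5 s c ∈ Tdeg g 3 := fun s c =>
    sub_mem (Tdeg_mul (ι_mem_Tdeg s) (h4 s c)) (Tdeg_mul (h4 s c) (ι_mem_Tdeg s))
  exact Tdeg_mul (Tdeg_mul (Tdeg_mul (Tdeg_mul (ι_mem_Tdeg s) (ι_mem_Tdeg s)) (ι_mem_Tdeg s))
    (h4 _ _)) (h5 _ _)

theorem Wd_Tdeg (a n : ℕ) : Wd g a n ∈ Tdeg g (8 * n) := by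
  induction n with
  | zero => exact one_mem_Tdeg
  | succ n ih => exact Tdeg_mul ih (blk_Tdeg _ _)

theorem blk_TS {S : Set (Idx g)} {s c : Idx g} (h1 : s ∈ S) (h2 : bar s ∈ S) (h3 : c ∈ S)
    (h4 : bar c ∈ S) : blk s c ∈ TS S := by
  have k4 : ∀ s c : Idx g, s ∈ S → c ∈ S → z4 s c ∈ TS S := fun s c hs hc =>
    sub_mem (mul_mem (ι_mem_TS hs) (ι_mem_TS hc)) (mul_mem (ι_mem_TS hc) (ι_mem_TS hs))
  have k5 : ∀ s c : Idx g, s ∈ S → c ∈ S → z5 s c ∈ TS S := fun s c hs hc =>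
    sub_mem (mul_mem (ι_mem_TS hs) (k4 s c hs hc)) (mul_mem (k4 s c hs hc) (ι_mem_TS hs))
  exact mul_mem (mul_mem (mul_mem (mul_mem (ι_mem_TS h1) (ι_mem_TS h1)) (ι_mem_TS h1))
    (k4 _ _ h2 h3)) (k5 _ _ h2 h4)

theorem Wd_TS {a n b : ℕ} (hb : a + 2 * n ≤ b) (hg : b ≤ g) : Wd g a n ∈ TS (LT g a b) := by
  induction n generalizing b with
  | zero => exact one_mem _
  | succ n ih =>
    have e1 : hv (xl g (a + 2 * n)) = a + 2 * n := hv_xl (by omega)
    have e2 : hv (xl g (a + 2 * n + 1)) = a + 2 * n + 1 := hv_xl (by omega)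
    refine mul_mem (ih (by omega) hg) (blk_TS ?_ ?_ ?_ ?_) <;>
      simp only [mem_LT, hv_bar, e1, e2] <;> omega

theorem Wd_add (a m n : ℕ) : Wd g a (m + n) = Wd g a m * Wd g (a + 2 * m) n := by
  induction n with
  | zero => simp [Wd]
  | succ n ih =>
    rw [← add_assoc]
    have e : a + 2 * (m + n) = a + 2 * m + 2 * n := by ring
    simp only [Wd, ih, e, mul_assoc]

theorem Gf_Wd {a n : ℕ} (hg : a + 2 * n ≤ g) :
    (Gf g ^ n) (Wd g a n) = n.factorial * 6 ^ n := by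
  induction n with
  | zero =>
    rw [pow_zero, one_apply']
    simp [Wd]
  | succ n ih =>
    have e1 : hv (xl g (a + 2 * n)) = a + 2 * n := hv_xl (by omega)
    have e2 : hv (xl g (a + 2 * n + 1)) = a + 2 * n + 1 := hv_xl (by omega)
    have hW : Wd g a n ∈ TS (LT g a (a + 2 * n)) := Wd_TS le_rfl (by omega)
    have h := Gf_blk (S := LT g a (a + 2 * n)) (s := xl g (a + 2 * n))
      (c := xl g (a + 2 * n + 1)) (by rw [mem_LT, e1]; omega) (by rw [mem_LT, e2]; omega)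
      (by intro h; have := congrArg hv h; omega)
      (by intro h; have := congrArg hv h; rw [hv_bar] at this; omega) hW n
    rw [Wd, h, ih (by omega), sg_bar_xl, sg_bar_xl, Nat.factorial_succ]
    push_cast
    ring

/-- the explicit derivation of degree `8 r`, `r = r1 + r2`, on the handles `a, …, a + 2 r` -/
def xD (g a r1 r2 : ℕ) [NeZero g] : LieDerivation ℚ (FL g) (FL g) :=
  trD (act (bv (xl g (a + 2 * r1 + 2 * r2))) (Wd g a r1))
    (act (bv (bar (xl g (a + 2 * r1 + 2 * r2)))) (anti (Wd g (a + 2 * r1) r2)))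

theorem xD_hdeg (a r1 r2 : ℕ) : xD g a r1 r2 ∈ hdeg g (8 * r1 + 8 * r2) := by
  have hb : ∀ p : Idx g, (bv p : FL g) ∈ FLdeg g 1 := fun p => Submodule.subset_span ⟨p, rfl⟩
  have h1 := act_FLdeg (hb (xl g (a + 2 * r1 + 2 * r2))) (Wd_Tdeg a r1)
  have h2 := act_FLdeg (hb (bar (xl g (a + 2 * r1 + 2 * r2))))
    (Tdeg_anti (Wd_Tdeg (a + 2 * r1) r2))
  rw [add_comm] at h1 h2
  exact trD_hdeg h1 h2

theorem xD_value {a r1 r2 r : ℕ} (hr : r1 + r2 = 2 * r + 1) (h1 : 1 ≤ r1) (h2 : 1 ≤ r2)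
    (hg : a + 2 * (2 * r + 1) + 1 ≤ g) :
    FrD g (2 * r + 1) (xD g a r1 r2) ≠ 0 := by
  have e1 : hv (xl g (a + 2 * r1 + 2 * r2)) = a + 2 * r1 + 2 * r2 := hv_xl (by omega)
  have hd1 : Wd g a r1 ∈ Tdeg g ((8 * r1 - 3) + 3) := by
    have : (8 * r1 - 3) + 3 = 8 * r1 := by omega
    rw [this]; exact Wd_Tdeg _ _
  have hd2 : Wd g (a + 2 * r1) r2 ∈ Tdeg g ((8 * r2 - 3) + 3) := by
    have : (8 * r2 - 3) + 3 = 8 * r2 := by omega
    rw [this]; exact Wd_Tdeg _ _
  have hW1 : Wd g a r1 ∈ TS (LT g a (a + 2 * r1)) := Wd_TS le_rfl (by omega)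
  have hW2 : Wd g (a + 2 * r1) r2 ∈ TS (LT g (a + 2 * r1) (a + 2 * r1 + 2 * r2)) :=
    Wd_TS le_rfl (by omega)
  rw [xD, FrD_trD (S1 := LT g a (a + 2 * r1)) (S2 := LT g (a + 2 * r1) (a + 2 * r1 + 2 * r2))
    (by rw [mem_LT, e1]; omega) (by rw [mem_LT, hv_bar, e1]; omega)
    (by rw [mem_LT, hv_bar, e1]; omega) (by rw [mem_LT, e1]; omega)
    (by intro k hk; rw [mem_LT] at hk ⊢; rw [hv_bar]; omega) hW1 hW2 hd1 hd2, ← Wd_add, hr,
    Gf_Wd (by omega), sg_bar_xl]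
  have h3 : ((2 * r + 1).factorial : ℚ) ≠ 0 := by exact_mod_cast Nat.factorial_ne_zero _
  have h4 : (6 : ℚ) ^ (2 * r + 1) ≠ 0 := by positivity
  intro h
  have : ((2 * r + 1).factorial : ℚ) * 6 ^ (2 * r + 1) = 0 := by linarith
  rcases mul_eq_zero.mp this with h5 | h5
  · exact h3 h5
  · exact h4 h5

theorem xD_comm {a r1 r2 a' r1' r2' : ℕ} (h1 : a + 2 * r1 + 2 * r2 + 1 ≤ a')
    (h2 : a' + 2 * r1' + 2 * r2' + 1 ≤ g) :
    ⁅xD g a r1 r2, xD g a' r1' r2'⁆ = 0 := by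
  have e1 : hv (xl g (a + 2 * r1 + 2 * r2)) = a + 2 * r1 + 2 * r2 := hv_xl (by omega)
  have e2 : hv (xl g (a' + 2 * r1' + 2 * r2')) = a' + 2 * r1' + 2 * r2' := hv_xl (by omega)
  have key : ∀ a r1 r2 : ℕ, a + 2 * r1 + 2 * r2 + 1 ≤ g →
      act (bv (xl g (a + 2 * r1 + 2 * r2))) (Wd g a r1) ∈ LS (LT g a (a + 2 * r1 + 2 * r2 + 1)) ∧
      act (bv (bar (xl g (a + 2 * r1 + 2 * r2)))) (anti (Wd g (a + 2 * r1) r2)) ∈
        LS (LT g a (a + 2 * r1 + 2 * r2 + 1)) := by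
    intro a r1 r2 h
    have e1 : hv (xl g (a + 2 * r1 + 2 * r2)) = a + 2 * r1 + 2 * r2 := hv_xl (by omega)
    refine ⟨act_LS (bv_mem_LS ?_) (Wd_TS (by omega) h), act_LS (bv_mem_LS ?_) (TS_anti ?_)⟩
    · rw [mem_LT, e1]; omega
    · rw [mem_LT, hv_bar, e1]; omega
    · refine TS_mono ?_ (Wd_TS (b := a + 2 * r1 + 2 * r2 + 1) (by omega) h)
      intro i hi
      rw [mem_LT] at hi ⊢
      omega
  obtain ⟨k1, k2⟩ := key a r1 r2 (by omega)
  obtain ⟨k3, k4⟩ := key a' r1' r2' h2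
  refine trD_comm ?_ ?_ k1 k2 k3 k4
  · intro i hi
    rw [mem_LT] at hi ⊢
    rw [hv_bar]; omega
  · intro i hi
    rw [mem_LT] at hi ⊢
    rw [hv_bar]; omega

end letters

end

end Pool.Agent.MP_67ad14_al
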