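import Pool.Agent.MP_67ad14_al.Act2

/-!
# The classes `F_r ∧ F_s` in the second cohomology of `h_{g,1}`
-/

namespace Pool.Agent.MP_67ad14_al

noncomputable section

variable {g : ℕ}

theorem Hg.mem_h1 (D : Hg g) : D.der ∈ h1 g := hSub_le g D.2

/-- the functional `F_r` on `h_{g,1}` -/
def Fr (g r : ℕ) : Hg g →ₗ[ℚ] ℚ where
  toFun D := FrD g r D.der
  map_add' D E := map_add (FrD g r) D.der E.der
  map_smul' c D := map_smul (FrD g r) c D.der

theorem Fr_apply (r : ℕ) (D : Hg g) : Fr g r D = FrD g r D.der := rfl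

theorem Fr_lie (r : ℕ) (D E : Hg g) : Fr g r ⁅D, E⁆ = 0 :=
  FrD_lie r (Good_h1 D.mem_h1) (Good_h1 E.mem_h1)

theorem Fr_hdeg {r k : ℕ} (h : k ≠ 8 * r) {D : Hg g} (hD : IsDeg k D.der) : Fr g r D = 0 :=
  FrD_hdeg h hD

theorem Fr_sp (r : ℕ) {A : Matrix (Idx g) (Idx g) ℚ} (hA : A ∈ Matrix.symplecticGroup (Fin g) ℚ)
    {D D' : Hg g} (h : ∀ z : FL g, D'.der (spL A z) = spL A (D.der z)) :
    Fr g r D' = Fr g r D := by
  have h1 : D'.der = spD ⟨A, hA⟩ D.der := by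
    ext z
    rw [spD_apply, ← h]
    congr 1
    rw [← spL_mul]
    have : A * (((⟨A, hA⟩ : Matrix.symplecticGroup (Fin g) ℚ)⁻¹ :
        Matrix.symplecticGroup (Fin g) ℚ) : Matrix (Idx g) (Idx g) ℚ) = 1 := by
      change (((⟨A, hA⟩ * (⟨A, hA⟩)⁻¹ : Matrix.symplecticGroup (Fin g) ℚ)) :
        Matrix (Idx g) (Idx g) ℚ) = 1
      rw [mul_inv_cancel]; rfl
    rw [this, spL_one]
  rw [Fr_apply, Fr_apply, h1, FrD_spD]

/-- the cocycle `F_r ∧ F_s` -/
def wdg (g r s : ℕ) : Form g :=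
  LinearMap.mk₂ ℚ (fun D E => Fr g r D * Fr g s E - Fr g s D * Fr g r E)
    (fun D D' E => by simp only [map_add]; ring)
    (fun c D E => by simp only [map_smul, smul_eq_mul]; ring)
    (fun D E E' => by simp only [map_add]; ring)
    (fun c D E => by simp only [map_smul, smul_eq_mul]; ring)

theorem wdg_apply (r s : ℕ) (D E : Hg g) :
    wdg g r s D E = Fr g r D * Fr g s E - Fr g s D * Fr g r E := rfl

theorem wdg_cocycle {r s n : ℕ} (hn : 8 * r + 8 * s = n) : IsCocycle n (wdg g r s) := by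
  refine ⟨fun D => ?_, fun D E F => ?_, fun i j hij D E hD hE => ?_⟩
  · rw [wdg_apply]; ring
  · simp only [wdg_apply, Fr_lie]; ring
  · rw [wdg_apply]
    have h1 : Fr g r D * Fr g s E = 0 := by
      by_cases hi : i = 8 * r
      · rw [Fr_hdeg (r := s) (by omega) hE, mul_zero]
      · rw [Fr_hdeg hi hD, zero_mul]
    have h2 : Fr g s D * Fr g r E = 0 := by
      by_cases hi : i = 8 * s
      · rw [Fr_hdeg (r := r) (by omega) hE, mul_zero]
      · rw [Fr_hdeg hi hD, zero_mul]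
    rw [h1, h2, sub_zero]

theorem wdg_inv (r s : ℕ) : IsSpInvariant (wdg g r s) := by
  intro A hA D E D' E' hD hE
  rw [wdg_apply, wdg_apply, Fr_sp r hA hD, Fr_sp r hA hE, Fr_sp s hA hD, Fr_sp s hA hE]

theorem xD_mem_hSub [NeZero g] (a b : ℕ) : xD g a 1 b ∈ hSub g :=
  LieSubalgebra.subset_lieSpan ⟨8 * 1 + 8 * b, by omega, xD_hdeg a 1 b⟩

/-- the explicit elements of `h_{g,1}` -/
def xH (g a b : ℕ) [NeZero g] : Hg g := ⟨xD g a 1 b, xD_mem_hSub a b⟩

theorem xH_deg [NeZero g] (a b : ℕ) : IsDeg (8 * 1 + 8 * b) (xH g a b).der := xD_hdeg a 1 b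

/-- independence of the classes of the cocycles `F_{2i+3} ∧ F_{2m-2i-3}` -/
theorem indep (m : ℕ) (hg : 4 * m + 2 ≤ g)
    (c : Fin (m / 2 - 1) → ℚ)
    (hc : IsCoboundary (16 * m) (∑ j : Fin (m / 2 - 1), c j •
      wdg g (2 * (j.val + 1) + 1) (2 * (m - j.val - 2) + 1))) : c = 0 := by
  have : NeZero g := ⟨by omega⟩
  funext i
  have hi := i.2
  obtain ⟨f, _, hf⟩ := hc
  have hcomm : ⁅xH g 0 (2 * (i.val + 1)), xH g (2 * (2 * (i.val + 1) + 1) + 1)
      (2 * (m - i.val - 2))⁆ = 0 := by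
    apply Subtype.ext
    exact xD_comm (by omega) (by omega)
  have h3 := hf (xH g 0 (2 * (i.val + 1))) (xH g (2 * (2 * (i.val + 1) + 1) + 1)
      (2 * (m - i.val - 2)))
  rw [hcomm, map_zero] at h3
  simp only [LinearMap.sum_apply, LinearMap.smul_apply, wdg_apply, smul_eq_mul] at h3
  have hD : IsDeg (8 * 1 + 8 * (2 * (i.val + 1))) (xH g 0 (2 * (i.val + 1))).der := xH_deg _ _
  have hE : IsDeg (8 * 1 + 8 * (2 * (m - i.val - 2)))
      (xH g (2 * (2 * (i.val + 1) + 1) + 1) (2 * (m - i.val - 2))).der := xH_deg _ _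
  rw [Finset.sum_eq_single i] at h3
  · have e1 : Fr g (2 * (m - i.val - 2) + 1) (xH g 0 (2 * (i.val + 1))) = 0 :=
      Fr_hdeg (by omega) hD
    rw [e1, zero_mul, sub_zero] at h3
    have e2 : Fr g (2 * (i.val + 1) + 1) (xH g 0 (2 * (i.val + 1))) ≠ 0 :=
      xD_value (by omega) le_rfl (by omega) (by omega)
    have e3 : Fr g (2 * (m - i.val - 2) + 1) (xH g (2 * (2 * (i.val + 1) + 1) + 1)
        (2 * (m - i.val - 2))) ≠ 0 :=
      xD_value (by omega) le_rfl (by omega) (by omega)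
    rcases mul_eq_zero.mp h3 with h | h
    · exact h
    · rcases mul_eq_zero.mp h with h | h
      · exact absurd h e2
      · exact absurd h e3
  · intro j _ hji
    have hji' : j.val ≠ i.val := fun h => hji (Fin.ext h)
    have hj := j.2
    have e1 : Fr g (2 * (j.val + 1) + 1) (xH g 0 (2 * (i.val + 1))) = 0 :=
      Fr_hdeg (by omega) hD
    have e2 : Fr g (2 * (m - j.val - 2) + 1) (xH g 0 (2 * (i.val + 1))) = 0 :=
      Fr_hdeg (by omega) hD
    rw [e1, e2]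
    ring
  · intro h; exact absurd (Finset.mem_univ _) h

end

end Pool.Agent.MP_67ad14_al
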