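import Pool.Agent.MP_67ad14_al.FreeAlg

/-!
# Primitive elements, coderivations, coordinate functionals
-/

namespace Pool.Agent.MP_67ad14_al

open TensorProduct Coalgebra WithConv

noncomputable section

variable {X : Type}

/-- primitive elements of the free algebra -/
def IsPrim (ζ : FreeAlgebra ℚ X) : Prop := comul (R := ℚ) ζ = ζ ⊗ₜ[ℚ] 1 + 1 ⊗ₜ[ℚ] ζ

theorem isPrim_ι (i : X) : IsPrim (FreeAlgebra.ι ℚ i) := comul_ι i

theorem isPrim_counit {ζ : FreeAlgebra ℚ X} (h : IsPrim ζ) : counit (R := ℚ) ζ = 0 := by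
  have h1 := congrArg (TensorProduct.lid ℚ _ ∘ (LinearMap.rTensor _ (counit (R := ℚ)))) h
  simp only [Function.comp_apply, rTensor_counit_comul, map_add, LinearMap.rTensor_tmul,
    TensorProduct.lid_tmul, one_smul, Bialgebra.counit_one] at h1
  have h2 : counit (R := ℚ) ζ • (1 : FreeAlgebra ℚ X) = 0 := by
    have := h1
    simpa using this
  have h3 := congrArg (Coalgebra.counit (R := ℚ)) h2
  simpa using h3

theorem IsPrim.lie {a b : FreeAlgebra ℚ X} (ha : IsPrim a) (hb : IsPrim b) :
    IsPrim (a * b - b * a) := by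
  unfold IsPrim at *
  rw [map_sub, Bialgebra.comul_mul, Bialgebra.comul_mul, ha, hb]
  simp only [mul_add, add_mul, Algebra.TensorProduct.tmul_mul_tmul, mul_one, one_mul,
    TensorProduct.sub_tmul, TensorProduct.tmul_sub]
  abel

theorem IsPrim.add {a b : FreeAlgebra ℚ X} (ha : IsPrim a) (hb : IsPrim b) : IsPrim (a + b) := by
  unfold IsPrim at *
  rw [map_add, ha, hb, TensorProduct.add_tmul, TensorProduct.tmul_add]
  abel

theorem IsPrim.smul {a : FreeAlgebra ℚ X} (c : ℚ) (ha : IsPrim a) : IsPrim (c • a) := by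
  unfold IsPrim at *
  rw [map_smul, ha, smul_add, TensorProduct.tmul_smul, TensorProduct.smul_tmul']

theorem isPrim_zero : IsPrim (0 : FreeAlgebra ℚ X) := by
  simp [IsPrim]

theorem conv_prim (f g : Fn X) {ζ : FreeAlgebra ℚ X} (h : IsPrim ζ) :
    (f * g) ζ = f ζ * g 1 + f 1 * g ζ := by
  rw [LinearMap.convMul_apply, h]
  simp

@[simp] theorem conv_one_apply (f g : Fn X) : (f * g) 1 = f 1 * g 1 := by
  rw [LinearMap.convMul_apply, Bialgebra.comul_one, Algebra.TensorProduct.one_def]
  simp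

theorem isCoder_mulRight {ζ : FreeAlgebra ℚ X} (h : IsPrim ζ) :
    IsCoder (LinearMap.mulRight ℚ ζ) := by
  ext w
  simp only [LinearMap.comp_apply, LinearMap.mulRight_apply, Bialgebra.comul_mul]
  rw [h]
  generalize (comul (R := ℚ) w) = t
  induction t using TensorProduct.induction_on with
  | zero => simp
  | tmul x y => simp [mul_add]
  | add x y hx hy =>
    rw [add_mul, hx, hy, map_add]

theorem isCoder_mulLeft {ζ : FreeAlgebra ℚ X} (h : IsPrim ζ) :
    IsCoder (LinearMap.mulLeft ℚ ζ) := by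
  ext w
  simp only [LinearMap.comp_apply, LinearMap.mulLeft_apply, Bialgebra.comul_mul]
  rw [h]
  generalize (comul (R := ℚ) w) = t
  induction t using TensorProduct.induction_on with
  | zero => simp
  | tmul x y => simp [add_mul]
  | add x y hx hy =>
    rw [mul_add, hx, hy, map_add]

/-- the derivation induced by `der v` on the tensor square -/
def derT (v : X → FreeAlgebra ℚ X) :
    FreeAlgebra ℚ X ⊗[ℚ] FreeAlgebra ℚ X →ₗ[ℚ] FreeAlgebra ℚ X ⊗[ℚ] FreeAlgebra ℚ X :=
  TensorProduct.map (der v) LinearMap.id + TensorProduct.map LinearMap.id (der v)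

theorem isCoder_der {v : X → FreeAlgebra ℚ X} (hv : ∀ i, IsPrim (v i)) : IsCoder (der v) := by
  have key : ∀ s t : FreeAlgebra ℚ X ⊗[ℚ] FreeAlgebra ℚ X,
      derT v (s * t) = s * derT v t + derT v s * t := by
    intro s t
    unfold derT
    induction s using TensorProduct.induction_on with
    | zero => simp
    | add x y hx hy => rw [add_mul, map_add, hx, hy, map_add, add_mul, add_mul]; abel
    | tmul a b =>
      induction t using TensorProduct.induction_on with
      | zero => simp
      | add x y hx hy => rw [mul_add, map_add, hx, hy, map_add, mul_add, mul_add]; abel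
      | tmul c d =>
        simp only [Algebra.TensorProduct.tmul_mul_tmul, LinearMap.add_apply, TensorProduct.map_tmul,
          LinearMap.id_apply, der_mul, mul_add, add_mul, TensorProduct.add_tmul,
          TensorProduct.tmul_add]
        abel
  ext w
  change comul (R := ℚ) (der v w) = derT v (comul (R := ℚ) w)
  induction w using FreeAlgebra.induction with
  | grade0 r =>
    rw [Algebra.algebraMap_eq_smul_one, map_smul, map_smul, map_smul, map_smul, der_one,
      Bialgebra.comul_one, Algebra.TensorProduct.one_def]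
    simp [derT]
  | grade1 i =>
    rw [der_ι, hv i, comul_ι]
    simp [derT]
  | mul a b ha hb =>
    rw [der_mul, map_add, Bialgebra.comul_mul, Bialgebra.comul_mul, Bialgebra.comul_mul, ha, hb,
      key]
  | add a b ha hb => simp only [map_add, ha, hb]

/-- right multiplication by a primitive element, as a derivation of the algebra of functionals -/
def Rd (ζ : FreeAlgebra ℚ X) (h : IsPrim ζ) : Derivation ℚ (Fn X) (Fn X) :=
  pullDer (LinearMap.mulRight ℚ ζ) (isCoder_mulRight h)

@[simp] theorem Rd_apply (ζ : FreeAlgebra ℚ X) (h : IsPrim ζ) (f : Fn X) (w : FreeAlgebra ℚ X) :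
    (Rd ζ h f) w = f (w * ζ) := rfl

/-- right multiplication by a generator -/
abbrev Rι (i : X) : Derivation ℚ (Fn X) (Fn X) := Rd (FreeAlgebra.ι ℚ i) (isPrim_ι i)

variable [DecidableEq X]

/-- linear functionals: coefficients of words of length at most 3 -/
def cY (i : X) : Fn X := toConv (counit (R := ℚ) ∘ₗ fox i)
/-- coefficient of the word `ij` -/
def cα (i j : X) : Fn X := toConv (counit (R := ℚ) ∘ₗ fox i ∘ₗ fox j)
/-- coefficient of the word `ijk` -/
def cβ (i j k : X) : Fn X := toConv (counit (R := ℚ) ∘ₗ fox i ∘ₗ fox j ∘ₗ fox k)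
/-- coefficient of the word `ijkl` -/
def cγ (i j k l : X) : Fn X := toConv (counit (R := ℚ) ∘ₗ fox i ∘ₗ fox j ∘ₗ fox k ∘ₗ fox l)

theorem cY_apply (i : X) (w : FreeAlgebra ℚ X) : cY i w = counit (R := ℚ) (fox i w) := rfl
theorem cα_apply (i j : X) (w : FreeAlgebra ℚ X) : cα i j w = cY i (fox j w) := rfl
theorem cβ_apply (i j k : X) (w : FreeAlgebra ℚ X) : cβ i j k w = cα i j (fox k w) := rfl
theorem cγ_apply (i j k l : X) (w : FreeAlgebra ℚ X) : cγ i j k l w = cβ i j k (fox l w) := rfl

theorem one_apply' (w : FreeAlgebra ℚ X) : (1 : Fn X) w = counit (R := ℚ) w := rfl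

theorem cY_mul (i : X) (w ζ : FreeAlgebra ℚ X) :
    cY i (w * ζ) = counit (R := ℚ) w * cY i ζ + counit (R := ℚ) ζ * cY i w := by
  rw [cY_apply, fox_mul, map_add, map_smul, Bialgebra.counit_mul]; rfl

theorem cα_mul (i j : X) (w ζ : FreeAlgebra ℚ X) :
    cα i j (w * ζ) = counit (R := ℚ) w * cα i j ζ + cY i w * cY j ζ
      + counit (R := ℚ) ζ * cα i j w := by
  rw [cα_apply, fox_mul, map_add, map_smul, cY_mul]
  simp only [cα_apply, cY_apply, smul_eq_mul]
  ring

theorem cβ_mul (i j k : X) (w ζ : FreeAlgebra ℚ X) :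
    cβ i j k (w * ζ) = counit (R := ℚ) w * cβ i j k ζ + cY i w * cα j k ζ + cα i j w * cY k ζ
      + counit (R := ℚ) ζ * cβ i j k w := by
  rw [cβ_apply, fox_mul, map_add, map_smul, cα_mul]
  simp only [cβ_apply, cα_apply, cY_apply, smul_eq_mul]
  ring

theorem cγ_mul (i j k l : X) (w ζ : FreeAlgebra ℚ X) :
    cγ i j k l (w * ζ) = counit (R := ℚ) w * cγ i j k l ζ + cY i w * cβ j k l ζ
      + cα i j w * cα k l ζ + cβ i j k w * cY l ζ + counit (R := ℚ) ζ * cγ i j k l w := by
  rw [cγ_apply, fox_mul, map_add, map_smul, cβ_mul]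
  simp only [cγ_apply, cβ_apply, cα_apply, cY_apply, smul_eq_mul]
  ring

@[simp] theorem cY_one (i : X) : cY i (1 : FreeAlgebra ℚ X) = 0 := by simp [cY_apply]
@[simp] theorem cα_one (i j : X) : cα i j (1 : FreeAlgebra ℚ X) = 0 := by simp [cα_apply]
@[simp] theorem cβ_one (i j k : X) : cβ i j k (1 : FreeAlgebra ℚ X) = 0 := by simp [cβ_apply]
@[simp] theorem cγ_one (i j k l : X) : cγ i j k l (1 : FreeAlgebra ℚ X) = 0 := by simp [cγ_apply]

@[simp] theorem cY_ι (i m : X) : cY i (FreeAlgebra.ι ℚ m) = if m = i then 1 else 0 := by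
  rw [cY_apply, fox_ι]
  split_ifs <;> simp
@[simp] theorem cα_ι (i j m : X) : cα i j (FreeAlgebra.ι ℚ m) = 0 := by
  rw [cα_apply, fox_ι]
  split_ifs <;> simp
@[simp] theorem cβ_ι (i j k m : X) : cβ i j k (FreeAlgebra.ι ℚ m) = 0 := by
  rw [cβ_apply, fox_ι]
  split_ifs <;> simp

end

end Pool.Agent.MP_67ad14_al
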