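import Pool.Agent.MP_67ad14_al.Stmt

/-!
# The Lie algebra `h_{g,1}` of positive symplectic derivations, and `H²(h_{g,1})^{Sp}_n`
-/

namespace Pool.Agent.MP_67ad14_al

noncomputable section

/-- The degree `k` piece `h_{g,1}(k)`: derivations `D` of the free Lie algebra with
`D(H) ⊆ 𝓛(k+1)` and `D(ω₀) = 0`. -/
def hdeg (g k : ℕ) : Submodule ℚ (LieDerivation ℚ (FL g) (FL g)) where
  carrier := {D | D (omega0 g) = 0 ∧ ∀ i : Idx g, D (bv i) ∈ FLdeg g (k + 1)}
  add_mem' := by
    rintro D E ⟨h1, h2⟩ ⟨h3, h4⟩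
    exact ⟨by simp [h1, h3], fun i => by simpa using Submodule.add_mem _ (h2 i) (h4 i)⟩
  zero_mem' := ⟨by simp, fun i => by simp⟩
  smul_mem' := by
    rintro c D ⟨h1, h2⟩
    exact ⟨by simp [h1], fun i => by simpa using Submodule.smul_mem _ c (h2 i)⟩

theorem mem_hdeg {g k : ℕ} {D : LieDerivation ℚ (FL g) (FL g)} :
    D ∈ hdeg g k ↔ D (omega0 g) = 0 ∧ ∀ i : Idx g, D (bv i) ∈ FLdeg g (k + 1) := Iff.rfl

theorem FLdeg_succ_mem {g k : ℕ} (i : Idx g) {w : FL g} (hw : w ∈ FLdeg g k) :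
    ⁅(bv i : FL g), w⁆ ∈ FLdeg g (k + 1) := by
  cases k with
  | zero =>
    have : w = 0 := by simpa [FLdeg] using hw
    simp [this]
  | succ k => exact Submodule.subset_span ⟨i, w, hw, rfl⟩

theorem FLdeg_lie_mem {g : ℕ} : ∀ (a b : ℕ) {x y : FL g}, x ∈ FLdeg g a → y ∈ FLdeg g b →
    ⁅x, y⁆ ∈ FLdeg g (a + b)
  | 0, b, x, y, hx, hy => by
    have : x = 0 := by simpa [FLdeg] using hx
    simp [this]
  | 1, b, x, y, hx, hy => by
    have hx' : x ∈ Submodule.span ℚ (Set.range (bv (g := g))) := hx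
    induction hx' using Submodule.span_induction with
    | mem x h =>
      obtain ⟨i, rfl⟩ := h
      rw [add_comm]
      exact FLdeg_succ_mem i hy
    | zero => simp
    | add u v hu hv h1 h2 =>
      rw [add_lie]; exact Submodule.add_mem _ (h1 hu) (h2 hv)
    | smul c u hu h1 => rw [smul_lie]; exact Submodule.smul_mem _ _ (h1 hu)
  | (k + 2), b, x, y, hx, hy => by
    have hx' : x ∈ Submodule.span ℚ
      {z | ∃ i : Idx g, ∃ w ∈ FLdeg g (k + 1), z = ⁅(bv i : FL g), w⁆} := hx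
    induction hx' using Submodule.span_induction with
    | mem x h =>
      obtain ⟨i, w, hw, rfl⟩ := h
      rw [lie_lie]
      have h1 : ⁅w, y⁆ ∈ FLdeg g (k + 1 + b) := FLdeg_lie_mem (k + 1) b hw hy
      have h2 : ⁅w, ⁅(bv i : FL g), y⁆⁆ ∈ FLdeg g (k + 1 + (b + 1)) :=
        FLdeg_lie_mem (k + 1) (b + 1) hw (FLdeg_succ_mem i hy)
      have h3 := FLdeg_succ_mem i h1
      have e1 : k + 1 + b + 1 = k + 2 + b := by omega
      have e2 : k + 1 + (b + 1) = k + 2 + b := by omega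
      rw [e1] at h3
      rw [e2] at h2
      exact Submodule.sub_mem _ h3 h2
    | zero => simp
    | add u v hu hv h1 h2 =>
      rw [add_lie]; exact Submodule.add_mem _ (h1 hu) (h2 hv)
    | smul c u hu h1 => rw [smul_lie]; exact Submodule.smul_mem _ _ (h1 hu)

theorem hdeg_apply_mem {g k : ℕ} {D : LieDerivation ℚ (FL g) (FL g)}
    (hD : ∀ i : Idx g, D (bv i) ∈ FLdeg g (k + 1)) :
    ∀ (m : ℕ) {x : FL g}, x ∈ FLdeg g m → D x ∈ FLdeg g (m + k)
  | 0, x, hx => by
    have : x = 0 := by simpa [FLdeg] using hx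
    simp [this]
  | 1, x, hx => by
    have hx' : x ∈ Submodule.span ℚ (Set.range (bv (g := g))) := hx
    induction hx' using Submodule.span_induction with
    | mem x h =>
      obtain ⟨i, rfl⟩ := h
      rw [add_comm]; exact hD i
    | zero => simp
    | add u v hu hv h1 h2 =>
      rw [map_add]; exact Submodule.add_mem _ (h1 hu) (h2 hv)
    | smul c u hu h1 => rw [map_smul]; exact Submodule.smul_mem _ _ (h1 hu)
  | (m + 2), x, hx => by
    have hx' : x ∈ Submodule.span ℚ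
      {z | ∃ i : Idx g, ∃ w ∈ FLdeg g (m + 1), z = ⁅(bv i : FL g), w⁆} := hx
    induction hx' using Submodule.span_induction with
    | mem x h =>
      obtain ⟨i, w, hw, rfl⟩ := h
      rw [LieDerivation.apply_lie_eq_add]
      have h1 := FLdeg_succ_mem i (hdeg_apply_mem hD (m + 1) hw)
      have h2 := FLdeg_lie_mem (k + 1) (m + 1) (hD i) hw
      have e1 : m + 1 + k + 1 = m + 2 + k := by omega
      have e2 : k + 1 + (m + 1) = m + 2 + k := by omega
      rw [e1] at h1
      rw [e2] at h2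
      exact Submodule.add_mem _ h1 h2
    | zero => simp
    | add u v hu hv h1 h2 =>
      rw [map_add]; exact Submodule.add_mem _ (h1 hu) (h2 hv)
    | smul c u hu h1 => rw [map_smul]; exact Submodule.smul_mem _ _ (h1 hu)

theorem hdeg_lie_mem {g a b : ℕ} {D E : LieDerivation ℚ (FL g) (FL g)} (hD : D ∈ hdeg g a)
    (hE : E ∈ hdeg g b) : ⁅D, E⁆ ∈ hdeg g (a + b) := by
  refine ⟨?_, fun i => ?_⟩
  · rw [LieDerivation.lie_apply, hD.1, hE.1]; simp
  · rw [LieDerivation.lie_apply]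
    have h1 := hdeg_apply_mem hD.2 (b + 1) (hE.2 i)
    have h2 := hdeg_apply_mem hE.2 (a + 1) (hD.2 i)
    have e1 : b + 1 + a = a + b + 1 := by omega
    have e2 : a + 1 + b = a + b + 1 := by omega
    rw [e1] at h1
    rw [e2] at h2
    exact Submodule.sub_mem _ h1 h2

/-- The Lie algebra `h_{g,1} = ⨁_{k ≥ 1} h_{g,1}(k)`, with the commutator bracket. -/
def h1 (g : ℕ) : LieSubalgebra ℚ (LieDerivation ℚ (FL g) (FL g)) where
  __ := ⨆ k : ℕ, hdeg g (k + 1)
  lie_mem' := by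
    have key : ∀ D E : LieDerivation ℚ (FL g) (FL g), D ∈ ⨆ k : ℕ, hdeg g (k + 1) →
        E ∈ ⨆ k : ℕ, hdeg g (k + 1) → ⁅D, E⁆ ∈ ⨆ k : ℕ, hdeg g (k + 1) := by
      intro D E hD hE
      induction hD using Submodule.iSup_induction' with
      | mem a D hD =>
        induction hE using Submodule.iSup_induction' with
        | mem b E hE =>
          have := hdeg_lie_mem hD hE
          have e : a + 1 + (b + 1) = (a + b + 1) + 1 := by omega
          rw [e] at this
          exact Submodule.mem_iSup_of_mem (a + b + 1) this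
        | zero => simp
        | add u v hu hv h1 h2 =>
          rw [lie_add]; exact Submodule.add_mem _ h1 h2
      | zero => simp
      | add u v hu hv h1 h2 =>
        rw [add_lie]; exact Submodule.add_mem _ h1 h2
    intro D E hD hE
    exact key D E hD hE

@[simp] theorem spL_bv {g : ℕ} (A : Matrix (Idx g) (Idx g) ℚ) (i : Idx g) :
    spL A (bv i) = ∑ j, A j i • (bv j : FL g) := FreeLieAlgebra.lift_of_apply _ _

theorem spL_mul {g : ℕ} (A B : Matrix (Idx g) (Idx g) ℚ) (z : FL g) :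
    spL (A * B) z = spL A (spL B z) := by
  have : spL (A * B) = (spL A).comp (spL B) := by
    apply FreeLieAlgebra.hom_ext
    intro i
    simp only [spL_bv, LieHom.comp_apply, map_sum, map_smul, Finset.smul_sum, Matrix.mul_apply,
      Finset.sum_smul, smul_smul]
    rw [Finset.sum_comm]
    refine Finset.sum_congr rfl fun j _ => Finset.sum_congr rfl fun k _ => ?_
    rw [mul_comm]
  rw [this]; rfl

theorem spL_one {g : ℕ} (z : FL g) : spL (1 : Matrix (Idx g) (Idx g) ℚ) z = z := by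
  have : spL (1 : Matrix (Idx g) (Idx g) ℚ) = LieHom.id := by
    apply FreeLieAlgebra.hom_ext
    intro i
    simp [Matrix.one_apply, ite_smul]
  rw [this]; rfl

theorem spL_mem {g : ℕ} (A : Matrix (Idx g) (Idx g) ℚ) : ∀ (k : ℕ) {z : FL g}, z ∈ FLdeg g k →
    spL A z ∈ FLdeg g k
  | 0, z, hz => by
    have : z = 0 := by simpa [FLdeg] using hz
    simp [this]
  | 1, z, hz => by
    have hz' : z ∈ Submodule.span ℚ (Set.range (bv (g := g))) := hz
    induction hz' using Submodule.span_induction with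
    | mem x h =>
      obtain ⟨i, rfl⟩ := h
      rw [spL_bv]
      exact Submodule.sum_mem _ fun j _ => Submodule.smul_mem _ _
        (Submodule.subset_span ⟨j, rfl⟩)
    | zero => simp
    | add u v hu hv h1 h2 =>
      rw [map_add]; exact Submodule.add_mem _ (h1 hu) (h2 hv)
    | smul c u hu h1 => rw [map_smul]; exact Submodule.smul_mem _ _ (h1 hu)
  | (k + 2), z, hz => by
    have hz' : z ∈ Submodule.span ℚ
      {z | ∃ i : Idx g, ∃ w ∈ FLdeg g (k + 1), z = ⁅(bv i : FL g), w⁆} := hz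
    induction hz' using Submodule.span_induction with
    | mem x h =>
      obtain ⟨i, w, hw, rfl⟩ := h
      rw [LieHom.map_lie]
      have h1 : spL A (bv i) ∈ FLdeg g 1 := by
        rw [spL_bv]
        exact Submodule.sum_mem _ fun j _ => Submodule.smul_mem _ _
          (Submodule.subset_span ⟨j, rfl⟩)
      have h2 := FLdeg_lie_mem 1 (k + 1) h1 (spL_mem A (k + 1) hw)
      have e : 1 + (k + 1) = k + 2 := by omega
      rwa [e] at h2
    | zero => simp
    | add u v hu hv h1 h2 =>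
      rw [map_add]; exact Submodule.add_mem _ (h1 hu) (h2 hv)
    | smul c u hu h1 => rw [map_smul]; exact Submodule.smul_mem _ _ (h1 hu)

/-- The quadratic Lie element attached to a matrix. -/
def quadL {g : ℕ} (M : Matrix (Idx g) (Idx g) ℚ) : FL g :=
  ∑ j, ∑ k, M j k • ⁅(bv j : FL g), (bv k : FL g)⁆

theorem sum_reorder4 {ι M : Type*} [Fintype ι] [AddCommMonoid M] (f : ι → ι → ι → ι → M) :
    ∑ a, ∑ b, ∑ j, ∑ k, f a b j k = ∑ j, ∑ k, ∑ b, ∑ a, f a b j k := by
  rw [Finset.sum_comm]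
  have h1 : ∀ b, ∑ a, ∑ j, ∑ k, f a b j k = ∑ j, ∑ a, ∑ k, f a b j k :=
    fun b => Finset.sum_comm
  simp only [h1]
  rw [Finset.sum_comm]
  refine Finset.sum_congr rfl fun j _ => ?_
  have h2 : ∀ b, ∑ a, ∑ k, f a b j k = ∑ k, ∑ a, f a b j k := fun b => Finset.sum_comm
  simp only [h2]
  rw [Finset.sum_comm]

theorem spL_bracket {g : ℕ} (A : Matrix (Idx g) (Idx g) ℚ) (a b : Idx g) :
    spL A ⁅(bv a : FL g), (bv b : FL g)⁆ =
      ∑ j, ∑ k, (A j a * A k b) • ⁅(bv j : FL g), (bv k : FL g)⁆ := by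
  rw [LieHom.map_lie, spL_bv, spL_bv, sum_lie]
  refine Finset.sum_congr rfl fun j _ => ?_
  rw [lie_sum]
  refine Finset.sum_congr rfl fun k _ => ?_
  rw [smul_lie, lie_smul, smul_smul]

theorem spL_quadL {g : ℕ} (A M : Matrix (Idx g) (Idx g) ℚ) :
    spL A (quadL M) = quadL (A * M * A.transpose) := by
  have h1 : spL A (quadL M) = ∑ a, ∑ b, ∑ j, ∑ k,
      (M a b * (A j a * A k b)) • ⁅(bv j : FL g), (bv k : FL g)⁆ := by
    simp only [quadL, map_sum, map_smul, spL_bracket, Finset.smul_sum, smul_smul]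
  have h2 : quadL (A * M * A.transpose) = ∑ j, ∑ k, ∑ b, ∑ a,
      (M a b * (A j a * A k b)) • ⁅(bv j : FL g), (bv k : FL g)⁆ := by
    simp only [quadL, Matrix.mul_apply, Matrix.transpose_apply, Finset.sum_smul, Finset.sum_mul]
    refine Finset.sum_congr rfl fun a _ => Finset.sum_congr rfl fun b _ => ?_
    refine Finset.sum_congr rfl fun j _ => Finset.sum_congr rfl fun k _ => ?_
    ring_nf
  rw [h1, h2, sum_reorder4]

theorem quadL_J (g : ℕ) : quadL (Matrix.J (Fin g) ℚ) = -(2 : ℚ) • omega0 g := by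
  simp only [quadL, Matrix.J, Fintype.sum_sum_type, Matrix.fromBlocks_apply₁₁,
    Matrix.fromBlocks_apply₁₂, Matrix.fromBlocks_apply₂₁, Matrix.fromBlocks_apply₂₂,
    Matrix.zero_apply, zero_smul, Finset.sum_const_zero, zero_add, add_zero, Matrix.neg_apply,
    Matrix.one_apply, neg_smul, ite_smul, one_smul, Finset.sum_neg_distrib, Finset.sum_ite_eq,
    Finset.mem_univ, if_true, omega0]
  have : ∀ i : Fin g, ⁅(bv (Sum.inr i) : FL g), (bv (Sum.inl i) : FL g)⁆ =
      -⁅(bv (Sum.inl i) : FL g), (bv (Sum.inr i) : FL g)⁆ := fun i => (lie_skew _ _).symm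
  simp only [this, Finset.sum_neg_distrib]
  rw [two_smul]
  abel

/-- Symplectic matrices fix `ω₀`. -/
theorem spL_omega0 {g : ℕ} {A : Matrix (Idx g) (Idx g) ℚ}
    (hA : A ∈ Matrix.symplecticGroup (Fin g) ℚ) : spL A (omega0 g) = omega0 g := by
  have h1 := spL_quadL A (Matrix.J (Fin g) ℚ)
  rw [SymplecticGroup.mem_iff.mp hA, quadL_J, map_smul] at h1
  have h2 : (-(2 : ℚ)) ≠ 0 := by norm_num
  exact (smul_right_injective _ h2) h1

/-- The action of a symplectic matrix on derivations: `D ↦ A ∘ D ∘ A⁻¹`. -/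
def spD {g : ℕ} (A : Matrix.symplecticGroup (Fin g) ℚ) :
    LieDerivation ℚ (FL g) (FL g) →ₗ[ℚ] LieDerivation ℚ (FL g) (FL g) where
  toFun D :=
    { toLinearMap := (spL (A : Matrix (Idx g) (Idx g) ℚ)).toLinearMap ∘ₗ D.toLinearMap ∘ₗ
        (spL ((A⁻¹ : Matrix.symplecticGroup (Fin g) ℚ) : Matrix (Idx g) (Idx g) ℚ)).toLinearMap
      leibniz' := by
        intro a b
        have h : ∀ z : FL g, spL (A : Matrix (Idx g) (Idx g) ℚ)
            (spL ((A⁻¹ : Matrix.symplecticGroup (Fin g) ℚ) : Matrix (Idx g) (Idx g) ℚ) z) = z := by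
          intro z
          rw [← spL_mul, ← Submonoid.coe_mul, mul_inv_cancel]
          exact spL_one z
        simp only [LinearMap.comp_apply, LieHom.coe_toLinearMap, LieHom.map_lie,
          LieDerivation.coeFn_coe, LieDerivation.apply_lie_eq_sub, map_sub, h] }
  map_add' D E := by ext x; simp
  map_smul' c D := by ext x; simp

@[simp] theorem spD_apply {g : ℕ} (A : Matrix.symplecticGroup (Fin g) ℚ)
    (D : LieDerivation ℚ (FL g) (FL g)) (z : FL g) :
    spD A D z = spL (A : Matrix (Idx g) (Idx g) ℚ) (D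
      (spL ((A⁻¹ : Matrix.symplecticGroup (Fin g) ℚ) : Matrix (Idx g) (Idx g) ℚ) z)) := rfl

theorem spL_inv_apply {g : ℕ} (A : Matrix.symplecticGroup (Fin g) ℚ) (z : FL g) :
    spL ((A⁻¹ : Matrix.symplecticGroup (Fin g) ℚ) : Matrix (Idx g) (Idx g) ℚ)
      (spL (A : Matrix (Idx g) (Idx g) ℚ) z) = z := by
  rw [← spL_mul, ← Submonoid.coe_mul, inv_mul_cancel]
  exact spL_one z

theorem spD_lie {g : ℕ} (A : Matrix.symplecticGroup (Fin g) ℚ)
    (D E : LieDerivation ℚ (FL g) (FL g)) : spD A ⁅D, E⁆ = ⁅spD A D, spD A E⁆ := by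
  ext z
  simp only [spD_apply, LieDerivation.lie_apply, map_sub, spL_inv_apply]

theorem spD_mem_hdeg {g k : ℕ} (A : Matrix.symplecticGroup (Fin g) ℚ)
    {D : LieDerivation ℚ (FL g) (FL g)} (hD : D ∈ hdeg g k) : spD A D ∈ hdeg g k := by
  refine ⟨?_, fun i => ?_⟩
  · rw [spD_apply, spL_omega0 (A⁻¹).2, hD.1, map_zero]
  · rw [spD_apply, spL_bv]
    simp only [map_sum, map_smul]
    exact Submodule.sum_mem _ fun j _ => Submodule.smul_mem _ _ (spL_mem _ _ (hD.2 j))

theorem isDeg_iff {g k : ℕ} {D : LieDerivation ℚ (FL g) (FL g)} : IsDeg k D ↔ D ∈ hdeg g k :=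
  Iff.rfl

theorem hSub_le (g : ℕ) : hSub g ≤ h1 g := by
  apply LieSubalgebra.lieSpan_le.mpr
  rintro D ⟨k, hk, hD⟩
  obtain ⟨j, rfl⟩ := Nat.exists_eq_add_of_le' hk
  change D ∈ ⨆ k : ℕ, hdeg g (k + 1)
  exact Submodule.mem_iSup_of_mem j hD

/-- `h_{g,1}` is the sum of the `h_{g,1}(k)`, `k ≥ 1`. -/
theorem mem_hSub_iff {g : ℕ} {D : LieDerivation ℚ (FL g) (FL g)} :
    D ∈ hSub g ↔ D ∈ ⨆ k : ℕ, hdeg g (k + 1) := by
  constructor
  · intro h; exact hSub_le g h
  · intro h
    have h2 : ⨆ k : ℕ, hdeg g (k + 1) ≤ (hSub g).toSubmodule := by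
      apply iSup_le
      intro k D hD
      exact LieSubalgebra.subset_lieSpan ⟨k + 1, by omega, hD⟩
    exact h2 h

end

end Pool.Agent.MP_67ad14_al
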