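import Pool.Agent.MP_67ad14_al.Lie

/-!
# The classes `F_r` in the first cohomology of `h_{g,1}`
-/

namespace Pool.Agent.MP_67ad14_al

open TensorProduct Coalgebra WithConv

noncomputable section

attribute [local instance 100] LieRing.ofAssociativeRing

variable {g : ℕ}

/-- words of length `n` -/
def Tdeg (g : ℕ) : ℕ → Submodule ℚ (FreeAlgebra ℚ (Idx g))
  | 0 => Submodule.span ℚ {1}
  | (n + 1) => Submodule.span ℚ {z | ∃ w ∈ Tdeg g n, ∃ i : Idx g, z = w * FreeAlgebra.ι ℚ i}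

theorem Tdeg_succ_mem {n : ℕ} {w : FreeAlgebra ℚ (Idx g)} (hw : w ∈ Tdeg g n) (i : Idx g) :
    w * FreeAlgebra.ι ℚ i ∈ Tdeg g (n + 1) := Submodule.subset_span ⟨w, hw, i, rfl⟩

/-- induction on words of length `n` -/
theorem Tdeg_induction {p : ℕ → FreeAlgebra ℚ (Idx g) → Prop} (h1 : p 0 1)
    (hmul : ∀ n w i, w ∈ Tdeg g n → p n w → p (n + 1) (w * FreeAlgebra.ι ℚ i))
    (h0 : ∀ n, p n 0) (hadd : ∀ n x y, p n x → p n y → p n (x + y))
    (hsmul : ∀ n (c : ℚ) x, p n x → p n (c • x)) :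
    ∀ (n : ℕ) {w : FreeAlgebra ℚ (Idx g)}, w ∈ Tdeg g n → p n w
  | 0, w, hw => by
    have hw' : w ∈ Submodule.span ℚ {(1 : FreeAlgebra ℚ (Idx g))} := hw
    induction hw' using Submodule.span_induction with
    | mem x h => rw [Set.mem_singleton_iff] at h; subst h; exact h1
    | zero => exact h0 0
    | add x y hx hy ih1 ih2 => exact hadd 0 x y (ih1 hx) (ih2 hy)
    | smul c x hx ih => exact hsmul 0 c x (ih hx)
  | (n + 1), w, hw => by
    have hw' : w ∈ Submodule.span ℚ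
      {z | ∃ w ∈ Tdeg g n, ∃ i : Idx g, z = w * FreeAlgebra.ι ℚ i} := hw
    induction hw' using Submodule.span_induction with
    | mem x h =>
      obtain ⟨v, hv, i, rfl⟩ := h
      exact hmul n v i hv (Tdeg_induction h1 hmul h0 hadd hsmul n hv)
    | zero => exact h0 _
    | add x y hx hy ih1 ih2 => exact hadd _ x y (ih1 hx) (ih2 hy)
    | smul c x hx ih => exact hsmul _ c x (ih hx)

theorem one_mem_Tdeg : (1 : FreeAlgebra ℚ (Idx g)) ∈ Tdeg g 0 :=
  Submodule.subset_span rfl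

theorem ι_mem_Tdeg (i : Idx g) : FreeAlgebra.ι ℚ i ∈ Tdeg g 1 := by
  have := Tdeg_succ_mem (one_mem_Tdeg (g := g)) i
  rwa [one_mul] at this

theorem Tdeg_mul {m n : ℕ} {v w : FreeAlgebra ℚ (Idx g)} (hv : v ∈ Tdeg g m)
    (hw : w ∈ Tdeg g n) : v * w ∈ Tdeg g (m + n) := by
  refine Tdeg_induction (p := fun n w => v * w ∈ Tdeg g (m + n)) ?_ ?_ ?_ ?_ ?_ n hw
  · simpa using hv
  · intro n w i hw ih
    rw [← mul_assoc, ← add_assoc]
    exact Tdeg_succ_mem ih i
  · intro n; simp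
  · intro n x y hx hy
    rw [mul_add]; exact add_mem hx hy
  · intro n c x hx
    rw [mul_smul_comm]; exact Submodule.smul_mem _ c hx

theorem Tdeg_fox (k : Idx g) {n : ℕ} {w : FreeAlgebra ℚ (Idx g)} (hw : w ∈ Tdeg g (n + 1)) :
    fox k w ∈ Tdeg g n := by
  have := Tdeg_induction (p := fun n w => ∀ m, n = m + 1 → fox k w ∈ Tdeg g m)
    (by intro m h; omega)
    (by
      intro n w i hw ih m hm
      have : n = m := by omega
      subst this
      rw [fox_mul_ι]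
      split_ifs
      · exact hw
      · exact zero_mem _)
    (by intro n m h; simp)
    (by intro n x y hx hy m hm; rw [map_add]; exact add_mem (hx m hm) (hy m hm))
    (by intro n c x hx m hm; rw [map_smul]; exact Submodule.smul_mem _ c (hx m hm)) (n + 1) hw
  exact this n rfl

theorem Tdeg_anti {n : ℕ} {w : FreeAlgebra ℚ (Idx g)} (hw : w ∈ Tdeg g n) :
    anti w ∈ Tdeg g n := by
  refine Tdeg_induction (p := fun n w => anti w ∈ Tdeg g n) ?_ ?_ ?_ ?_ ?_ n hw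
  · rw [anti_one]; exact one_mem_Tdeg
  · intro n w i hw ih
    rw [anti_mul, anti_ι, neg_mul, add_comm]
    exact neg_mem (Tdeg_mul (ι_mem_Tdeg i) ih)
  · intro n; simp
  · intro n x y hx hy
    rw [map_add]; exact add_mem hx hy
  · intro n c x hx
    rw [map_smul]; exact Submodule.smul_mem _ c hx

theorem jL_Tdeg : ∀ (n : ℕ) {z : FL g}, z ∈ FLdeg g n → jL g z ∈ Tdeg g n
  | 0, z, hz => by
    have : z = 0 := by simpa [FLdeg] using hz
    simp [this]
  | 1, z, hz => by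
    have hz' : z ∈ Submodule.span ℚ (Set.range (bv (g := g))) := hz
    induction hz' using Submodule.span_induction with
    | mem x h =>
      obtain ⟨i, rfl⟩ := h
      rw [jL_bv]; exact ι_mem_Tdeg i
    | zero => simp
    | add u v hu hv h1 h2 =>
      rw [map_add]; exact Submodule.add_mem _ (h1 hu) (h2 hv)
    | smul c u hu h1 => rw [map_smul]; exact Submodule.smul_mem _ _ (h1 hu)
  | (k + 2), z, hz => by
    have hz' : z ∈ Submodule.span ℚ
      {z | ∃ i : Idx g, ∃ w ∈ FLdeg g (k + 1), z = ⁅(bv i : FL g), w⁆} := hz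
    induction hz' using Submodule.span_induction with
    | mem x h =>
      obtain ⟨i, w, hw, rfl⟩ := h
      rw [jL_lie, jL_bv]
      have h1 := jL_Tdeg (k + 1) hw
      have h2 := Tdeg_mul (ι_mem_Tdeg i) h1
      have h3 := Tdeg_mul h1 (ι_mem_Tdeg i)
      have e : 1 + (k + 1) = k + 2 := by omega
      rw [e] at h2
      exact sub_mem h2 h3
    | zero => simp
    | add u v hu hv h1 h2 =>
      rw [map_add]; exact Submodule.add_mem _ (h1 hu) (h2 hv)
    | smul c u hu h1 => rw [map_smul]; exact Submodule.smul_mem _ _ (h1 hu)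

theorem mat_two_Tdeg {n : ℕ} {w : FreeAlgebra ℚ (Idx g)} (hw : w ∈ Tdeg g n) :
    mat ((2 : ℚ) • (1 : Matrix (Idx g) (Idx g) ℚ)) w = (2 : ℚ) ^ n • w := by
  refine Tdeg_induction (p := fun n w =>
    mat ((2 : ℚ) • (1 : Matrix (Idx g) (Idx g) ℚ)) w = (2 : ℚ) ^ n • w) ?_ ?_ ?_ ?_ ?_ n hw
  · simp
  · intro n w i hw ih
    rw [map_mul, ih, mat_ι]
    have : ∑ j, ((2 : ℚ) • (1 : Matrix (Idx g) (Idx g) ℚ)) j i • FreeAlgebra.ι ℚ j
        = (2 : ℚ) • FreeAlgebra.ι ℚ i := by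
      simp [Matrix.smul_apply, Matrix.one_apply, ite_smul, mul_ite]
    rw [this, smul_mul_smul_comm, ← pow_succ]
  · intro n; simp
  · intro n x y hx hy
    rw [map_add, hx, hy, smul_add]
  · intro n c x hx
    rw [map_smul, hx, smul_comm]

/-- `G ^ r` has weight `8 r` -/
theorem Gf_Tdeg {n r : ℕ} (h : n ≠ 8 * r) {w : FreeAlgebra ℚ (Idx g)} (hw : w ∈ Tdeg g n) :
    (Gf g ^ r) w = 0 := by
  have h1 : (matF ((2 : ℚ) • (1 : Matrix (Idx g) (Idx g) ℚ)) (Gf g ^ r)) w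
      = (2 : ℚ) ^ (8 * r) * (Gf g ^ r) w := by
    rw [map_pow, matF_scale, smul_pow, ← pow_mul]
    rfl
  rw [matF_apply, mat_two_Tdeg hw, fn_smul_apply] at h1
  have h2 : (2 : ℚ) ^ n ≠ (2 : ℚ) ^ (8 * r) := by
    intro h3
    exact h (pow_right_injective₀ (by norm_num) (by norm_num) h3)
  have h3 : ((2 : ℚ) ^ n - (2 : ℚ) ^ (8 * r)) * (Gf g ^ r) w = 0 := by linarith
  rcases mul_eq_zero.mp h3 with h4 | h4
  · exact absurd (sub_eq_zero.mp h4) h2
  · exact h4

theorem counit_Tdeg {n : ℕ} {w : FreeAlgebra ℚ (Idx g)} (hw : w ∈ Tdeg g (n + 1)) :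
    counit (R := ℚ) w = 0 := by
  have := Tdeg_induction (p := fun n w => 1 ≤ n → counit (R := ℚ) w = 0)
    (by intro h; omega)
    (by intro n w i hw ih _; simp)
    (by intro n _; simp)
    (by intro n x y hx hy hn; rw [map_add, hx hn, hy hn, add_zero])
    (by intro n c x hx hn; rw [map_smul, hx hn, smul_zero]) (n + 1) hw
  exact this (by omega)

theorem cY_Tdeg (i : Idx g) {n : ℕ} {w : FreeAlgebra ℚ (Idx g)} (hw : w ∈ Tdeg g (n + 2)) :
    cY i w = 0 := counit_Tdeg (Tdeg_fox i hw)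

theorem cα_Tdeg (i j : Idx g) {n : ℕ} {w : FreeAlgebra ℚ (Idx g)} (hw : w ∈ Tdeg g (n + 3)) :
    cα i j w = 0 := cY_Tdeg i (Tdeg_fox j hw)

theorem cβ_Tdeg (i j k : Idx g) {n : ℕ} {w : FreeAlgebra ℚ (Idx g)} (hw : w ∈ Tdeg g (n + 4)) :
    cβ i j k w = 0 := cα_Tdeg i j (Tdeg_fox k hw)

theorem Deep_Tdeg {n : ℕ} {w : FreeAlgebra ℚ (Idx g)} (hw : w ∈ Tdeg g (n + 4)) : Deep w :=
  ⟨fun i => cY_Tdeg i (n := n + 2) hw, fun i j => cα_Tdeg i j (n := n + 1) hw,
    fun i j k => cβ_Tdeg i j k hw⟩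

theorem dv_hdeg {k : ℕ} {D : LieDerivation ℚ (FL g) (FL g)} (hD : D ∈ hdeg g k) :
    dv D ∈ Tdeg g k :=
  Submodule.sum_mem _ fun i _ => Tdeg_fox i (jL_Tdeg (k + 1) (hD.2 i))

/-- symplectic derivations all of whose values have vanishing linear part -/
def Good (D : LieDerivation ℚ (FL g) (FL g)) : Prop :=
  D (omega0 g) = 0 ∧ ∀ i j, cY i (jL g (D (bv j))) = 0

theorem Good_h1 {D : LieDerivation ℚ (FL g) (FL g)} (hD : D ∈ h1 g) : Good D := by
  have hD' : D ∈ ⨆ k : ℕ, hdeg g (k + 1) := hD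
  induction hD' using Submodule.iSup_induction' with
  | mem k D hDk => exact ⟨hDk.1, fun i j => cY_Tdeg i (jL_Tdeg (k + 2) (hDk.2 j))⟩
  | zero =>
    refine ⟨rfl, fun i j => ?_⟩
    rw [LieDerivation.zero_apply, map_zero]
    exact fn_zero_apply _
  | add u v hu hv h1 h2 =>
    obtain ⟨a1, a2⟩ := h1 hu
    obtain ⟨b1, b2⟩ := h2 hv
    refine ⟨by rw [LieDerivation.add_apply, a1, b1, add_zero], fun i j => ?_⟩
    rw [LieDerivation.add_apply, map_add, fn_add_apply, a2, b2, add_zero]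

theorem jL_omega0 : jL g (omega0 g) = ∑ i : Fin g,
    (FreeAlgebra.ι ℚ (Sum.inl i) * FreeAlgebra.ι ℚ (Sum.inr i)
      - FreeAlgebra.ι ℚ (Sum.inr i) * FreeAlgebra.ι ℚ (Sum.inl i)) := by
  simp only [omega0, map_sum, jL_lie, jL_bv]

theorem Good_pair {D : LieDerivation ℚ (FL g) (FL g)} (hD : D (omega0 g) = 0) :
    ∑ l, sg l • (jL g (D (bv l)) * FreeAlgebra.ι ℚ (bar l)
      - FreeAlgebra.ι ℚ (bar l) * jL g (D (bv l))) = 0 := by
  have h := exT_jL D (omega0 g)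
  rw [hD, map_zero, jL_omega0, map_sum] at h
  rw [Fintype.sum_sum_type, ← h, ← Finset.sum_add_distrib]
  refine Finset.sum_congr rfl fun i _ => ?_
  rw [map_sub]
  unfold exT
  rw [der_mul, der_mul, der_ι, der_ι]
  simp only [sg, bar, Sum.elim_inl, Sum.elim_inr, one_smul, neg_smul, Sum.swap_inl, Sum.swap_inr]
  abel

/-- the functional `F_r` on derivations -/
def FrD (g r : ℕ) : LieDerivation ℚ (FL g) (FL g) →ₗ[ℚ] ℚ where
  toFun D := (Gf g ^ r) (dv D)
  map_add' D E := by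
    rw [← fn_add_apply]
    congr 1
    simp only [dv, LieDerivation.add_apply, map_add, Finset.sum_add_distrib]
  map_smul' c D := by
    rw [RingHom.id_apply, smul_eq_mul, ← fn_smul_apply]
    congr 1
    simp only [dv, LieDerivation.smul_apply, map_smul, Finset.smul_sum]

theorem FrD_apply (r : ℕ) (D : LieDerivation ℚ (FL g) (FL g)) :
    FrD g r D = (Gf g ^ r) (dv D) := rfl

theorem FrD_lie (r : ℕ) {D E : LieDerivation ℚ (FL g) (FL g)} (hD : Good D) (hE : Good E) :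
    FrD g r ⁅D, E⁆ = 0 := by
  rw [FrD_apply, dv_lie, fn_add_apply, fn_sub_apply]
  have h1 : (Gf g ^ r) (exT D (dv E)) = 0 :=
    der_Gf (fun i => jL_prim _) hD.2 (Good_pair hD.1) r _
  have h2 : (Gf g ^ r) (exT E (dv D)) = 0 :=
    der_Gf (fun i => jL_prim _) hE.2 (Good_pair hE.1) r _
  have h3 : (Gf g ^ r) (∑ i, ∑ j, (fox j (jL g (E (bv i))) * fox i (jL g (D (bv j)))
        - fox i (jL g (D (bv j))) * fox j (jL g (E (bv i))))) = 0 := by
    have e : ∀ f : Idx g → FreeAlgebra ℚ (Idx g), (Gf g ^ r) (∑ i, f i) = ∑ i, (Gf g ^ r) (f i) :=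
      fun f => map_sum (Gf g ^ r).ofConv f Finset.univ
    simp only [e, fn_sub_apply]
    refine Finset.sum_eq_zero fun i _ => Finset.sum_eq_zero fun j _ => ?_
    rw [Gf_cyclic, sub_self]
  rw [h1, h2, h3]
  ring

theorem FrD_hdeg {r k : ℕ} (h : k ≠ 8 * r) {D : LieDerivation ℚ (FL g) (FL g)}
    (hD : D ∈ hdeg g k) : FrD g r D = 0 := Gf_Tdeg h (dv_hdeg hD)

theorem jL_spL (A : Matrix (Idx g) (Idx g) ℚ) (z : FL g) : jL g (spL A z) = mat A (jL g z) := by
  induction z using FL_induction with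
  | h0 => simp
  | hof i => rw [spL_bv, jL_bv, mat_ι]; simp
  | hadd x y hx hy => simp only [map_add, hx, hy]
  | hsmul c x hx => simp only [map_smul, hx]
  | hlie x y hx hy => rw [LieHom.map_lie, jL_lie, jL_lie, map_sub, map_mul, map_mul, hx, hy]

theorem dv_spD (A : Matrix.symplecticGroup (Fin g) ℚ) (D : LieDerivation ℚ (FL g) (FL g)) :
    dv (spD A D) = mat (A : Matrix (Idx g) (Idx g) ℚ) (dv D) := by
  set B : Matrix (Idx g) (Idx g) ℚ :=
    ((A⁻¹ : Matrix.symplecticGroup (Fin g) ℚ) : Matrix (Idx g) (Idx g) ℚ) with hB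
  have hBA : B * (A : Matrix (Idx g) (Idx g) ℚ) = 1 := by
    rw [hB, ← Submonoid.coe_mul, inv_mul_cancel]; rfl
  have h1 : ∀ i, fox i (jL g (spD A D (bv i))) = ∑ k, ∑ j,
      (B k i * (A : Matrix (Idx g) (Idx g) ℚ) i j) • mat (A : Matrix (Idx g) (Idx g) ℚ)
        (fox j (jL g (D (bv k)))) := by
    intro i
    rw [spD_apply, spL_bv]
    simp only [map_sum, map_smul, jL_spL, fox_mat, Finset.smul_sum, smul_smul]
    rfl
  simp only [dv, h1, map_sum]
  rw [Finset.sum_comm]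
  refine Finset.sum_congr rfl fun k _ => ?_
  rw [Finset.sum_comm]
  simp only [← Finset.sum_smul, ← Matrix.mul_apply, hBA, Matrix.one_apply, ite_smul, one_smul,
    zero_smul, Finset.sum_ite_eq, Finset.mem_univ, if_true]

theorem FrD_spD (r : ℕ) (A : Matrix.symplecticGroup (Fin g) ℚ)
    (D : LieDerivation ℚ (FL g) (FL g)) : FrD g r (spD A D) = FrD g r D := by
  rw [FrD_apply, FrD_apply, dv_spD, ← matF_apply, map_pow,
    matF_Gf (SymplecticGroup.mem_iff'.mp A.2)]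

end

end Pool.Agent.MP_67ad14_al
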