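import Mathlib

/-!
# The free algebra as a cocommutative bialgebra, twisted derivations
-/

namespace Pool.Agent.MP_67ad14_al

open TensorProduct Coalgebra WithConv

noncomputable section

variable {X : Type}

/-- The bialgebra structure on the free algebra for which the generators are primitive. -/
instance instBialgebraFree : Bialgebra ℚ (FreeAlgebra ℚ X) :=
  Bialgebra.ofAlgHom
    (FreeAlgebra.lift ℚ fun i => FreeAlgebra.ι ℚ i ⊗ₜ[ℚ] 1 + 1 ⊗ₜ[ℚ] FreeAlgebra.ι ℚ i)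
    (FreeAlgebra.lift ℚ fun _ => 0)
    (by
      ext i
      simp [Algebra.TensorProduct.one_def, TensorProduct.add_tmul, TensorProduct.tmul_add]
      abel)
    (by
      ext i
      simp)
    (by
      ext i
      simp)

theorem comul_ι (i : X) : comul (R := ℚ) (FreeAlgebra.ι ℚ i)
    = FreeAlgebra.ι ℚ i ⊗ₜ[ℚ] 1 + 1 ⊗ₜ[ℚ] FreeAlgebra.ι ℚ i :=
  FreeAlgebra.lift_ι_apply _ i

@[simp] theorem counit_ι (i : X) : counit (R := ℚ) (FreeAlgebra.ι ℚ i) = 0 :=
  FreeAlgebra.lift_ι_apply _ i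

instance instCocommFree : IsCocomm ℚ (FreeAlgebra ℚ X) where
  comm_comp_comul := by
    have h : (Algebra.TensorProduct.comm ℚ (FreeAlgebra ℚ X) (FreeAlgebra ℚ X)).toAlgHom.comp
        (Bialgebra.comulAlgHom ℚ (FreeAlgebra ℚ X)) = Bialgebra.comulAlgHom ℚ (FreeAlgebra ℚ X) := by
      ext i
      simp [comul_ι, add_comm]
    exact congr(($h).toLinearMap)

/-- The commutative algebra of linear functionals on the free algebra, with the convolution
(shuffle) product. -/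
abbrev Fn (X : Type) := WithConv (FreeAlgebra ℚ X →ₗ[ℚ] ℚ)

/-- coderivations of the free algebra -/
def IsCoder (δ : FreeAlgebra ℚ X →ₗ[ℚ] FreeAlgebra ℚ X) : Prop :=
  comul ∘ₗ δ = (TensorProduct.map δ LinearMap.id + TensorProduct.map LinearMap.id δ) ∘ₗ comul

theorem conv_comp_coder {δ : FreeAlgebra ℚ X →ₗ[ℚ] FreeAlgebra ℚ X} (hδ : IsCoder δ)
    (f g : Fn X) :
    toConv ((f * g).ofConv ∘ₗ δ) = toConv (f.ofConv ∘ₗ δ) * g + f * toConv (g.ofConv ∘ₗ δ) := by
  apply WithConv.ext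
  simp only [LinearMap.convMul_def, LinearMap.comp_assoc, ofConv_add]
  rw [hδ]
  simp only [LinearMap.add_comp, LinearMap.comp_add, ← LinearMap.comp_assoc]
  congr 2
  · rw [LinearMap.comp_assoc (TensorProduct.map δ LinearMap.id), ← TensorProduct.map_comp]
    simp
  · rw [LinearMap.comp_assoc (TensorProduct.map LinearMap.id δ), ← TensorProduct.map_comp]
    simp

/-- the derivation of the algebra of functionals given by a coderivation -/
def pullDer (δ : FreeAlgebra ℚ X →ₗ[ℚ] FreeAlgebra ℚ X) (hδ : IsCoder δ) :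
    Derivation ℚ (Fn X) (Fn X) :=
  Derivation.mk'
    { toFun := fun f => toConv (f.ofConv ∘ₗ δ)
      map_add' := fun f g => by ext; simp
      map_smul' := fun c f => by ext; simp }
    (fun f g => by
      change toConv ((f * g).ofConv ∘ₗ δ) = _
      rw [conv_comp_coder hδ]
      simp only [LinearMap.coe_mk, AddHom.coe_mk, smul_eq_mul]
      rw [add_comm, mul_comm g])

@[simp] theorem pullDer_apply (δ : FreeAlgebra ℚ X →ₗ[ℚ] FreeAlgebra ℚ X) (hδ : IsCoder δ)
    (f : Fn X) (w : FreeAlgebra ℚ X) : (pullDer δ hδ f) w = f (δ w) := rfl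

/-- pullback of functionals by a morphism of coalgebras -/
def pullHom (φ : FreeAlgebra ℚ X →ₗ[ℚ] FreeAlgebra ℚ X)
    (h1 : comul (R := ℚ) ∘ₗ φ = TensorProduct.map φ φ ∘ₗ comul) (h2 : counit (R := ℚ) ∘ₗ φ = counit) :
    Fn X →ₐ[ℚ] Fn X where
  toFun f := toConv (f.ofConv ∘ₗ φ)
  map_one' := by
    apply WithConv.ext
    simp only [LinearMap.convOne_def, LinearMap.comp_assoc, h2]
  map_mul' f g := by
    apply WithConv.ext
    simp only [LinearMap.convMul_def, LinearMap.comp_assoc]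
    rw [h1, ← LinearMap.comp_assoc comul, ← TensorProduct.map_comp]
  map_zero' := by ext; simp
  map_add' f g := by ext; simp
  commutes' r := by
    apply WithConv.ext
    ext w
    have := congr($h2 w)
    simp only [LinearMap.comp_apply] at this
    simp [this]

@[simp] theorem pullHom_apply (φ : FreeAlgebra ℚ X →ₗ[ℚ] FreeAlgebra ℚ X)
    (h1 : comul (R := ℚ) ∘ₗ φ = TensorProduct.map φ φ ∘ₗ comul) (h2 : counit (R := ℚ) ∘ₗ φ = counit)
    (f : Fn X) (w : FreeAlgebra ℚ X) : (pullHom φ h1 h2 f) w = f (φ w) := rfl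

/-- twisted derivations -/
def tw (ψ : FreeAlgebra ℚ X →ₐ[ℚ] FreeAlgebra ℚ X) (v : X → FreeAlgebra ℚ X) :
    FreeAlgebra ℚ X →ₐ[ℚ] Matrix (Fin 2) (Fin 2) (FreeAlgebra ℚ X) :=
  FreeAlgebra.lift ℚ fun i => !![FreeAlgebra.ι ℚ i, v i; 0, ψ (FreeAlgebra.ι ℚ i)]

theorem tw_entries (ψ : FreeAlgebra ℚ X →ₐ[ℚ] FreeAlgebra ℚ X) (v : X → FreeAlgebra ℚ X)
    (w : FreeAlgebra ℚ X) :
    tw ψ v w 0 0 = w ∧ tw ψ v w 1 0 = 0 ∧ tw ψ v w 1 1 = ψ w := by
  induction w using FreeAlgebra.induction with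
  | grade0 r => 
    simp [AlgHom.commutes, Matrix.algebraMap_matrix_apply]
  | grade1 i => simp [tw]
  | mul a b ha hb =>
    obtain ⟨a1, a2, a3⟩ := ha
    obtain ⟨b1, b2, b3⟩ := hb
    simp [Matrix.mul_apply, Fin.sum_univ_two, a1, a2, a3, b1, b2, b3]
  | add a b ha hb =>
    obtain ⟨a1, a2, a3⟩ := ha
    obtain ⟨b1, b2, b3⟩ := hb
    simp [a1, a2, a3, b1, b2, b3]

/-- the linear map `d` with `d (a b) = a d(b) + d(a) ψ(b)` and `d (x_i) = v_i` -/
def twd (ψ : FreeAlgebra ℚ X →ₐ[ℚ] FreeAlgebra ℚ X) (v : X → FreeAlgebra ℚ X) :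
    FreeAlgebra ℚ X →ₗ[ℚ] FreeAlgebra ℚ X where
  toFun w := tw ψ v w 0 1
  map_add' a b := by simp
  map_smul' c a := by simp

theorem twd_mul (ψ : FreeAlgebra ℚ X →ₐ[ℚ] FreeAlgebra ℚ X) (v : X → FreeAlgebra ℚ X)
    (a b : FreeAlgebra ℚ X) : twd ψ v (a * b) = a * twd ψ v b + twd ψ v a * ψ b := by
  simp only [twd, LinearMap.coe_mk, AddHom.coe_mk, map_mul, Matrix.mul_apply, Fin.sum_univ_two]
  rw [(tw_entries ψ v a).1, (tw_entries ψ v b).2.2]

@[simp] theorem twd_ι (ψ : FreeAlgebra ℚ X →ₐ[ℚ] FreeAlgebra ℚ X) (v : X → FreeAlgebra ℚ X)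
    (i : X) : twd ψ v (FreeAlgebra.ι ℚ i) = v i := by
  simp [twd, tw]

@[simp] theorem twd_one (ψ : FreeAlgebra ℚ X →ₐ[ℚ] FreeAlgebra ℚ X) (v : X → FreeAlgebra ℚ X) :
    twd ψ v 1 = 0 := by
  simp [twd]

/-- The derivation of the free algebra with given values on the generators. -/
def der (v : X → FreeAlgebra ℚ X) : FreeAlgebra ℚ X →ₗ[ℚ] FreeAlgebra ℚ X :=
  twd (AlgHom.id ℚ _) v

theorem der_mul (v : X → FreeAlgebra ℚ X) (a b : FreeAlgebra ℚ X) :
    der v (a * b) = a * der v b + der v a * b := twd_mul _ _ _ _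

@[simp] theorem der_ι (v : X → FreeAlgebra ℚ X) (i : X) : der v (FreeAlgebra.ι ℚ i) = v i :=
  twd_ι _ _ _

@[simp] theorem der_one (v : X → FreeAlgebra ℚ X) : der v 1 = 0 := twd_one _ _

variable [DecidableEq X]

/-- the right Fox derivative -/
def fox (i : X) : FreeAlgebra ℚ X →ₗ[ℚ] FreeAlgebra ℚ X :=
  twd ((Algebra.ofId ℚ (FreeAlgebra ℚ X)).comp (Bialgebra.counitAlgHom ℚ (FreeAlgebra ℚ X)))
    (fun j => if j = i then 1 else 0)

theorem fox_mul (i : X) (a b : FreeAlgebra ℚ X) :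
    fox i (a * b) = a * fox i b + counit (R := ℚ) b • fox i a := by
  rw [fox, twd_mul]
  simp [Algebra.ofId_apply, ← Algebra.commutes, ← Algebra.smul_def]

@[simp] theorem fox_ι (i j : X) : fox i (FreeAlgebra.ι ℚ j) = if j = i then 1 else 0 := twd_ι _ _ _

@[simp] theorem fox_one (i : X) : fox i 1 = 0 := twd_one _ _

@[simp] theorem fox_mul_ι (i j : X) (a : FreeAlgebra ℚ X) :
    fox i (a * FreeAlgebra.ι ℚ j) = if j = i then a else 0 := by
  rw [fox_mul]; simp

variable [Fintype X]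

theorem fundamental (w : FreeAlgebra ℚ X) :
    w = algebraMap ℚ _ (counit (R := ℚ) w) + ∑ i, fox i w * FreeAlgebra.ι ℚ i := by
  induction w using FreeAlgebra.induction with
  | grade0 r =>
    simp [Algebra.algebraMap_eq_smul_one]
  | grade1 i => simp
  | mul a b ha hb =>
    rw [Bialgebra.counit_mul]
    conv_lhs => rw [hb]
    simp only [fox_mul, add_mul, Finset.sum_add_distrib, smul_mul_assoc, ← Finset.smul_sum]
    rw [mul_add, Finset.mul_sum, ← Algebra.commutes, ← Algebra.smul_def]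
    conv_lhs => enter [1]; rw [ha]
    simp only [Algebra.smul_def, map_mul, mul_assoc, mul_add]
    rw [Algebra.commutes (counit (R := ℚ) a) (algebraMap ℚ _ (counit (R := ℚ) b))]
    abel
  | add a b ha hb =>
    conv_lhs => rw [ha, hb]
    simp only [map_add, add_mul, Finset.sum_add_distrib]
    abel

theorem linext {M : Type*} [AddCommGroup M] [Module ℚ M] {f g : FreeAlgebra ℚ X →ₗ[ℚ] M}
    (h1 : f 1 = g 1) (h2 : ∀ w i, f (w * FreeAlgebra.ι ℚ i) = g (w * FreeAlgebra.ι ℚ i)) :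
    f = g := by
  ext w
  rw [fundamental w]
  simp only [map_add, map_sum, h2, Algebra.algebraMap_eq_smul_one, map_smul, h1]

end

end Pool.Agent.MP_67ad14_al
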