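import Pool.Agent.MP_67ad14_al.Defs

/-!
# The polynomial `G` in an abstract commutative algebra
-/

namespace Pool.Agent.MP_67ad14_al

noncomputable section

/-- the involution of the index set exchanging `x_i` and `y_i` -/
def bar {g : ℕ} : Idx g → Idx g := Sum.swap

/-- `sg i = ω(e_i, e_{bar i})` -/
def sg {g : ℕ} : Idx g → ℚ := Sum.elim (fun _ => 1) (fun _ => -1)

@[simp] theorem bar_bar {g : ℕ} (i : Idx g) : bar (bar i) = i := Sum.swap_swap i
@[simp] theorem sg_bar {g : ℕ} (i : Idx g) : sg (bar i) = - sg i := by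
  rcases i with i | i <;> simp [bar, sg]
@[simp] theorem sg_mul_self {g : ℕ} (i : Idx g) : sg i * sg i = 1 := by
  rcases i with i | i <;> simp [sg]

/-- `bar` as a permutation -/
def barE (g : ℕ) : Idx g ≃ Idx g := ⟨bar, bar, bar_bar, bar_bar⟩

theorem sum_bar {g : ℕ} {M : Type*} [AddCommMonoid M] (f : Idx g → M) :
    ∑ i, f (bar i) = ∑ i, f i := Equiv.sum_comp (barE g) f

theorem eq_zero_of_smul {V : Type*} [AddCommGroup V] [Module ℚ V] {a : V} (n : ℚ) (hn : n ≠ 0)
    (h : n • a = 0) : a = 0 := (smul_eq_zero_iff_right hn).mp h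

variable {g : ℕ} {R : Type*} [CommRing R] [Algebra ℚ R]

/-- `ω(e_i, U)` -/
def tl (U : Idx g → R) (i : Idx g) : R := sg i • U (bar i)

/-- components of the vector `A` -/
def vA (y : Idx g → R) (a : Idx g → Idx g → R) (j : Idx g) : R := ∑ i, tl y i * a i j

/-- components of the vector `B` -/
def vB (y : Idx g → R) (b : Idx g → Idx g → Idx g → R) (m : Idx g) : R :=
  ∑ k, ∑ l, tl y k * tl y l * b k l m

/-- the polynomial `G` -/
def Gof (y : Idx g → R) (a : Idx g → Idx g → R) (b : Idx g → Idx g → Idx g → R) : R :=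
  ∑ m, tl (vA y a) m * vB y b m

theorem tl_tl (U : Idx g → R) (i : Idx g) : tl (tl U) i = - U i := by
  simp only [tl, bar_bar, sg_bar, smul_neg, neg_smul, smul_smul, sg_mul_self, one_smul]

theorem pair_self (U : Idx g → R) : ∑ m, tl U m * U m = 0 := by
  have h1 : ∑ m, tl U m * U m = - ∑ m, tl U m * U m := by
    conv_lhs => rw [← sum_bar]
    rw [← Finset.sum_neg_distrib]
    refine Finset.sum_congr rfl fun i _ => ?_
    simp only [tl, bar_bar, sg_bar, Algebra.smul_def, map_neg]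
    ring
  apply eq_zero_of_smul 2 (by norm_num)
  rw [two_smul]
  nth_rewrite 1 [h1]
  simp

/-- symmetry under exchange of two summation variables, with a skew kernel -/
theorem skew2 (f : Idx g → Idx g → R) (h : ∀ i j, f i j = - f j i) : ∑ i, ∑ j, f i j = 0 := by
  have h1 : ∑ i, ∑ j, f i j = - ∑ i, ∑ j, f i j := by
    conv_lhs => rw [Finset.sum_comm]
    rw [← Finset.sum_neg_distrib]
    refine Finset.sum_congr rfl fun i _ => ?_
    rw [← Finset.sum_neg_distrib]
    exact Finset.sum_congr rfl fun j _ => h j i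
  apply eq_zero_of_smul 2 (by norm_num)
  rw [two_smul]
  nth_rewrite 1 [h1]
  simp

/-- triple symmetrisation -/
theorem triple (f : Idx g → Idx g → Idx g → R) (W : Idx g → Idx g → Idx g → R)
    (c : Idx g → R) (hf : ∀ i j k, f i j k = c i * c j * c k * W i j k)
    (hW : ∀ i j k, W i j k + W j i k + W j k i = 0) : ∑ i, ∑ j, ∑ k, f i j k = 0 := by
  have e1 : ∑ i, ∑ j, ∑ k, f j i k = ∑ i, ∑ j, ∑ k, f i j k := Finset.sum_comm
  have e2 : ∑ i, ∑ j, ∑ k, f j k i = ∑ i, ∑ j, ∑ k, f i j k := by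
    rw [Finset.sum_comm]
    refine Finset.sum_congr rfl fun j _ => ?_
    rw [Finset.sum_comm]
  apply eq_zero_of_smul 3 (by norm_num)
  have h3 : (3 : ℚ) • ∑ i, ∑ j, ∑ k, f i j k = ∑ i, ∑ j, ∑ k, f i j k + ∑ i, ∑ j, ∑ k, f j i k
      + ∑ i, ∑ j, ∑ k, f j k i := by
    rw [e1, e2]
    have : (3 : ℚ) = 1 + 1 + 1 := by norm_num
    rw [this, add_smul, add_smul, one_smul]
  rw [h3, ← Finset.sum_add_distrib, ← Finset.sum_add_distrib]
  refine Finset.sum_eq_zero fun i _ => ?_
  rw [← Finset.sum_add_distrib, ← Finset.sum_add_distrib]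
  refine Finset.sum_eq_zero fun j _ => ?_
  rw [← Finset.sum_add_distrib, ← Finset.sum_add_distrib]
  refine Finset.sum_eq_zero fun k _ => ?_
  rw [hf, hf, hf]
  linear_combination (c i * c j * c k) * hW i j k

section shuffled

variable {y : Idx g → R} {a : Idx g → Idx g → R} {b : Idx g → Idx g → Idx g → R}
  (sh2 : ∀ i j, y i * y j = a i j + a j i)
  (sh3 : ∀ i j k, y i * a j k = b i j k + b j i k + b j k i)

include sh2 in
theorem YYa : ∑ k, ∑ l, tl y k * tl y l * a k l = 0 := by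
  apply eq_zero_of_smul 2 (by norm_num)
  have h1 : ∑ k : Idx g, ∑ l, tl y k * tl y l * a k l = ∑ k, ∑ l, tl y k * tl y l * a l k := by
    rw [Finset.sum_comm]
    refine Finset.sum_congr rfl fun i _ => Finset.sum_congr rfl fun j _ => ?_
    ring
  rw [two_smul]
  nth_rewrite 2 [h1]
  have h2 : (∑ k : Idx g, tl y k * y k) * (∑ l : Idx g, tl y l * y l) = 0 := by
    rw [pair_self, zero_mul]
  rw [← h2, Finset.sum_mul_sum, ← Finset.sum_add_distrib]
  refine Finset.sum_congr rfl fun i _ => ?_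
  rw [← Finset.sum_add_distrib]
  refine Finset.sum_congr rfl fun j _ => ?_
  rw [← mul_add, ← sh2]
  ring

include sh3 in
theorem YYYb : ∑ m, tl y m * vB y b m = 0 := by
  have h1 : ∑ m, tl y m * vB y b m = ∑ k, ∑ l, ∑ m, tl y k * tl y l * tl y m * b k l m := by
    simp only [vB, Finset.mul_sum]
    rw [Finset.sum_comm]
    refine Finset.sum_congr rfl fun i _ => ?_
    rw [Finset.sum_comm]
    refine Finset.sum_congr rfl fun j _ => Finset.sum_congr rfl fun k _ => ?_
    ring
  rw [h1]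
  apply eq_zero_of_smul 3 (by norm_num)
  have e1 : ∑ k, ∑ l, ∑ m, tl y k * tl y l * tl y m * b k l m
      = ∑ k, ∑ l, ∑ m, tl y k * tl y l * tl y m * b l k m := by
    rw [Finset.sum_comm]
    refine Finset.sum_congr rfl fun i _ => Finset.sum_congr rfl fun j _ =>
      Finset.sum_congr rfl fun k _ => ?_
    ring
  have e2 : ∑ k, ∑ l, ∑ m, tl y k * tl y l * tl y m * b k l m
      = ∑ k, ∑ l, ∑ m, tl y k * tl y l * tl y m * b l m k := by
    conv_rhs => rw [Finset.sum_comm]
    refine Finset.sum_congr rfl fun i _ => ?_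
    conv_rhs => rw [Finset.sum_comm]
    refine Finset.sum_congr rfl fun j _ => Finset.sum_congr rfl fun k _ => ?_
    ring
  have h3 : (3 : ℚ) • ∑ k, ∑ l, ∑ m, tl y k * tl y l * tl y m * b k l m
      = ∑ k, ∑ l, ∑ m, tl y k * tl y l * tl y m * b k l m
      + ∑ k, ∑ l, ∑ m, tl y k * tl y l * tl y m * b l k m
      + ∑ k, ∑ l, ∑ m, tl y k * tl y l * tl y m * b l m k := by
    rw [← e1, ← e2]
    have : (3 : ℚ) = 1 + 1 + 1 := by norm_num
    rw [this, add_smul, add_smul, one_smul]
  have h4 : (∑ k, tl y k * y k) * (∑ l, ∑ m, tl y l * tl y m * a l m) = 0 := by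
    rw [pair_self, zero_mul]
  rw [h3, ← h4, Finset.sum_mul_sum, ← Finset.sum_add_distrib, ← Finset.sum_add_distrib]
  refine Finset.sum_congr rfl fun i _ => ?_
  rw [← Finset.sum_add_distrib, ← Finset.sum_add_distrib]
  refine Finset.sum_congr rfl fun j _ => ?_
  rw [← Finset.sum_add_distrib, ← Finset.sum_add_distrib, Finset.mul_sum]
  refine Finset.sum_congr rfl fun k _ => ?_
  linear_combination (-(tl y i * tl y j * tl y k)) * sh3 i j k

end shuffled

end

end Pool.Agent.MP_67ad14_al
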