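import Pool.Agent.MP_67ad14_al.Galg

/-!
# Derivations and algebra maps acting on the polynomial `G`
-/

namespace Pool.Agent.MP_67ad14_al

noncomputable section

variable {g : ℕ} {R : Type*} [CommRing R] [Algebra ℚ R]

theorem tl_congr_smul (U : Idx g → R) (c : ℚ) (i : Idx g) :
    tl (fun k => c • U k) i = c • tl U i := by
  simp only [tl, smul_smul, mul_comm]

theorem map_tl_der (D : Derivation ℚ R R) (U : Idx g → R) (i : Idx g) :
    D (tl U i) = tl (fun k => D (U k)) i := by
  simp only [tl, Derivation.map_smul]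

theorem map_tl_hom {R' : Type*} [CommRing R'] [Algebra ℚ R'] (φ : R →ₐ[ℚ] R') (U : Idx g → R)
    (i : Idx g) : φ (tl U i) = tl (fun k => φ (U k)) i := by
  simp only [tl, map_smul]

/-- exchanging the tilde in a pairing -/
theorem pair_swap (U V : Idx g → R) : ∑ m, tl U m * V m = - ∑ m, U m * tl V m := by
  conv_lhs => rw [← sum_bar]
  rw [← Finset.sum_neg_distrib]
  refine Finset.sum_congr rfl fun i _ => ?_
  simp only [tl, bar_bar, sg_bar, Algebra.smul_def, map_neg]
  ring

theorem der_Gof (D : Derivation ℚ R R) (y : Idx g → R) (a : Idx g → Idx g → R)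
    (b : Idx g → Idx g → Idx g → R) :
    D (Gof y a b) = ∑ m, tl (fun j => D (vA y a j)) m * vB y b m
      + ∑ m, tl (vA y a) m * D (vB y b m) := by
  simp only [Gof, map_sum, Derivation.leibniz, smul_eq_mul, map_tl_der]
  rw [← Finset.sum_add_distrib]
  refine Finset.sum_congr rfl fun i _ => ?_
  ring

theorem der_vA (D : Derivation ℚ R R) (y : Idx g → R) (a : Idx g → Idx g → R)
    (hy : ∀ i, D (y i) = 0) (j : Idx g) :
    D (vA y a j) = ∑ i, tl y i * D (a i j) := by
  simp only [vA, map_sum, Derivation.leibniz, smul_eq_mul, map_tl_der, hy]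
  refine Finset.sum_congr rfl fun i _ => ?_
  simp [tl]

theorem der_vB (D : Derivation ℚ R R) (y : Idx g → R) (b : Idx g → Idx g → Idx g → R)
    (hy : ∀ i, D (y i) = 0) (m : Idx g) :
    D (vB y b m) = ∑ k, ∑ l, tl y k * tl y l * D (b k l m) := by
  simp only [vB, map_sum, Derivation.leibniz, smul_eq_mul, map_tl_der, hy]
  refine Finset.sum_congr rfl fun i _ => Finset.sum_congr rfl fun j _ => ?_
  simp [tl]

section ad

variable {y : Idx g → R} {a : Idx g → Idx g → R} {b : Idx g → Idx g → Idx g → R}

/-- infinitesimal conjugation by a generator kills `G` -/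
theorem ad_Gof (sh2 : ∀ i j, y i * y j = a i j + a j i)
    (sh3 : ∀ i j k, y i * a j k = b i j k + b j i k + b j k i)
    (D : Derivation ℚ R R) (p : Idx g)
    (hy : ∀ i, D (y i) = 0)
    (ha : ∀ i j, D (a i j) = (if p = i then y j else 0) - (if p = j then y i else 0))
    (hb : ∀ i j k, D (b i j k) = (if p = i then a j k else 0) - (if p = k then a i j else 0)) :
    D (Gof y a b) = 0 := by
  have hA : ∀ j, D (vA y a j) = tl y p * y j := by
    intro j
    rw [der_vA D y a hy]
    simp only [ha, mul_sub, mul_ite, mul_zero, Finset.sum_sub_distrib, Finset.sum_ite_eq,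
      Finset.mem_univ, if_true]
    rw [sub_eq_self]
    split_ifs
    · exact pair_self y
    · simp
  have hB : ∀ m, D (vB y b m) = tl y p * vA y a m := by
    intro m
    rw [der_vB D y b hy]
    simp only [hb, mul_sub, mul_ite, mul_zero, Finset.sum_sub_distrib]
    have h1 : ∑ k : Idx g, ∑ l, (if p = m then tl y k * tl y l * a k l else 0) = 0 := by
      split_ifs
      · exact YYa sh2
      · simp
    rw [h1, sub_zero, Finset.sum_comm]
    simp only [Finset.sum_ite_eq, Finset.mem_univ, if_true, vA, Finset.mul_sum]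
    refine Finset.sum_congr rfl fun i _ => ?_
    ring
  rw [der_Gof]
  have h1 : ∑ m, tl (fun j => D (vA y a j)) m * vB y b m = tl y p * ∑ m, tl y m * vB y b m := by
    rw [Finset.mul_sum]
    refine Finset.sum_congr rfl fun i _ => ?_
    simp only [hA, tl, Algebra.smul_def]
    ring
  have h2 : ∑ m, tl (vA y a) m * D (vB y b m) = tl y p * ∑ m, tl (vA y a) m * vA y a m := by
    rw [Finset.mul_sum]
    refine Finset.sum_congr rfl fun i _ => ?_
    rw [hB]
    ring
  rw [h1, h2, YYYb sh3, pair_self]
  simp

end ad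

section symp

variable {y : Idx g → R} {a : Idx g → Idx g → R} {b : Idx g → Idx g → Idx g → R}

/-- symplectic derivations kill `G` -/
theorem symp_Gof
    (D : Derivation ℚ R R) (W3 : Idx g → Idx g → Idx g → ℚ)
    (W4 : Idx g → Idx g → Idx g → Idx g → ℚ)
    (hs : ∀ i j k, W3 i j k = - W3 j i k) (hc : ∀ i j k, W3 i j k = W3 j k i)
    (hc4 : ∀ i j k l, W4 i j k l = W4 j k l i)
    (hs4 : ∀ i j k l, W4 i j k l + W4 j i k l + W4 j k i l = 0)
    (hy : ∀ i, D (y i) = 0)
    (ha : ∀ i j, D (a i j) = ∑ l, (sg l * W3 i j (bar l)) • y l)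
    (hb : ∀ i j k, D (b i j k) = ∑ l, (sg l * W4 i j k (bar l)) • y l
      + ∑ m, (sg m * W3 i j (bar m)) • a m k + ∑ m, (sg m * W3 j k (bar m)) • a i m) :
    D (Gof y a b) = 0 := by
  have conv : ∀ (c : Idx g → ℚ) (U : Idx g → R), ∑ l, (sg l * c (bar l)) • U l
      = - ∑ l, c l • tl U l := by
    intro c U
    conv_lhs => rw [← sum_bar]
    rw [← Finset.sum_neg_distrib]
    refine Finset.sum_congr rfl fun i _ => ?_
    simp only [tl, bar_bar, sg_bar, smul_smul, neg_mul, neg_smul]
    rw [mul_comm]
  have hA : ∀ j, D (vA y a j) = 0 := by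
    intro j
    rw [der_vA D y a hy]
    have : ∀ i, tl y i * D (a i j) = ∑ l, -(W3 i j l • (tl y i * tl y l)) := by
      intro i
      rw [ha, conv, mul_neg, Finset.mul_sum, Finset.sum_neg_distrib]
      simp only [mul_smul_comm]
    simp only [this]
    apply skew2
    intro i l
    have e : W3 i j l = - W3 l j i := by rw [hc i j l, hs j l i]
    rw [e, neg_smul, neg_neg, neg_neg, mul_comm (tl y i)]
  have hB : ∀ m, D (vB y b m) = - ∑ l, ∑ n, W3 l m n • (tl y l * tl (vA y a) n) := by
    intro m
    rw [der_vB D y b hy]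
    simp only [hb, mul_add, Finset.sum_add_distrib]
    have t1 : ∑ k : Idx g, ∑ l, tl y k * tl y l * ∑ n, (sg n * W4 k l m (bar n)) • y n = 0 := by
      have h1 : ∀ k l : Idx g, tl y k * tl y l * ∑ n, (sg n * W4 k l m (bar n)) • y n
          = ∑ n, -(algebraMap ℚ R (W4 n k l m) * (tl y n * tl y k * tl y l)) := by
        intro k l
        rw [conv, mul_neg, Finset.mul_sum, ← Finset.sum_neg_distrib]
        refine Finset.sum_congr rfl fun n _ => ?_
        rw [← hc4 n k l m, Algebra.smul_def]
        ring
      simp only [h1]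
      have h2 : ∑ k : Idx g, ∑ l, ∑ n, -(algebraMap ℚ R (W4 n k l m) *
          (tl y n * tl y k * tl y l)) = ∑ n : Idx g, ∑ k, ∑ l,
            -(algebraMap ℚ R (W4 n k l m) * (tl y n * tl y k * tl y l)) := by
        conv_rhs => rw [Finset.sum_comm]
        refine Finset.sum_congr rfl fun k _ => ?_
        rw [Finset.sum_comm]
      rw [h2]
      apply triple _ (fun i j k => -algebraMap ℚ R (W4 i j k m)) (tl y)
      · intro i j k
        ring
      · intro i j k
        have := congrArg (algebraMap ℚ R) (hs4 i j k m)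
        simp only [map_add, map_zero] at this
        linear_combination -this
    have t2 : ∑ k : Idx g, ∑ l, tl y k * tl y l * ∑ n, (sg n * W3 k l (bar n)) • a n m = 0 := by
      apply skew2
      intro k l
      have : ∀ n, (sg n * W3 k l (bar n)) • a n m = - ((sg n * W3 l k (bar n)) • a n m) := by
        intro n
        rw [hs k l, mul_neg, neg_smul]
      simp only [this, Finset.sum_neg_distrib]
      ring
    have t3 : ∑ k : Idx g, ∑ l, tl y k * tl y l * ∑ n, (sg n * W3 l m (bar n)) • a k n
        = - ∑ l, ∑ n, W3 l m n • (tl y l * tl (vA y a) n) := by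
      rw [Finset.sum_comm, ← Finset.sum_neg_distrib]
      refine Finset.sum_congr rfl fun l _ => ?_
      have h1 : ∑ k : Idx g, tl y k * tl y l * ∑ n, (sg n * W3 l m (bar n)) • a k n
          = tl y l * ∑ n, (sg n * W3 l m (bar n)) • vA y a n := by
        simp only [vA, Finset.mul_sum, Finset.smul_sum, mul_smul_comm]
        rw [Finset.sum_comm]
        refine Finset.sum_congr rfl fun n _ => Finset.sum_congr rfl fun k _ => ?_
        congr 1
        ring
      rw [h1, conv (fun n => W3 l m n) (vA y a), mul_neg, Finset.mul_sum]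
      simp only [mul_smul_comm]
    rw [t1, t2, t3]
    simp
  rw [der_Gof]
  have h1 : ∑ m, tl (fun j => D (vA y a j)) m * vB y b m = 0 := by
    simp [hA, tl]
  have h2 : ∑ m, tl (vA y a) m * D (vB y b m) = 0 := by
    have h3 : ∀ m, tl (vA y a) m * D (vB y b m) = ∑ l, tl y l * ∑ n, -(W3 l m n •
        (tl (vA y a) m * tl (vA y a) n)) := by
      intro m
      rw [hB, mul_neg, Finset.mul_sum, ← Finset.sum_neg_distrib]
      refine Finset.sum_congr rfl fun l _ => ?_
      rw [Finset.mul_sum, Finset.mul_sum, ← Finset.sum_neg_distrib]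
      refine Finset.sum_congr rfl fun n _ => ?_
      simp only [Algebra.smul_def]
      ring
    simp only [h3]
    rw [Finset.sum_comm]
    refine Finset.sum_eq_zero fun l _ => ?_
    rw [← Finset.mul_sum]
    have h4 : ∑ m : Idx g, ∑ n, -(W3 l m n • (tl (vA y a) m * tl (vA y a) n)) = 0 := by
      apply skew2
      intro m n
      have e : W3 l m n = - W3 l n m := by rw [hc l m n, hs m n l, hc l n m]
      rw [e, neg_smul, neg_neg, neg_neg, mul_comm (tl (vA y a) m)]
    rw [h4, mul_zero]
  rw [h1, h2, add_zero]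

end symp

section matrix

theorem J_apply (j i : Idx g) : Matrix.J (Fin g) ℚ j i = if j = bar i then sg i else 0 := by
  rcases i with i | i <;> rcases j with j | j <;>
    simp [Matrix.J, bar, sg, Matrix.one_apply]
  split_ifs <;> simp

/-- invariance of the pairing -/
theorem pair_inv (A : Matrix (Idx g) (Idx g) ℚ)
    (hA : A.transpose * Matrix.J (Fin g) ℚ * A = Matrix.J (Fin g) ℚ) (U V : Idx g → R) :
    ∑ i, tl (fun i => ∑ k, A i k • U k) i * (∑ k, A i k • V k) = ∑ i, tl U i * V i := by
  have key : ∀ k l : Idx g, ∑ i, sg i * A (bar i) k * A i l = if k = bar l then sg l else 0 := by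
    intro k l
    have h := congrFun (congrFun hA k) l
    rw [← J_apply, ← h, Matrix.mul_apply]
    refine Finset.sum_congr rfl fun i _ => ?_
    rw [Matrix.mul_apply]
    simp only [Matrix.transpose_apply, J_apply, mul_ite, mul_zero, Finset.sum_ite_eq',
      Finset.mem_univ, if_true]
    ring
  have h1 : ∀ i, tl (fun i => ∑ k, A i k • U k) i * (∑ k, A i k • V k)
      = ∑ k, ∑ l, (sg i * A (bar i) k * A i l) • (U k * V l) := by
    intro i
    simp only [tl, Finset.smul_sum, Finset.sum_mul_sum, smul_smul, smul_mul_smul_comm]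
  simp only [h1]
  rw [Finset.sum_comm]
  have h2 : ∀ k, ∑ i, ∑ l, (sg i * A (bar i) k * A i l) • (U k * V l)
      = ∑ l, (if k = bar l then sg l else 0) • (U k * V l) := by
    intro k
    rw [Finset.sum_comm]
    refine Finset.sum_congr rfl fun l _ => ?_
    rw [← Finset.sum_smul, key]
  simp only [h2]
  rw [Finset.sum_comm]
  refine Finset.sum_congr rfl fun l _ => ?_
  simp only [ite_smul, zero_smul, Finset.sum_ite_eq', Finset.mem_univ, if_true, tl, smul_mul_assoc]

/-- `G` is invariant under symplectic changes of coordinates -/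
theorem Gof_matrix (A : Matrix (Idx g) (Idx g) ℚ)
    (hA : A.transpose * Matrix.J (Fin g) ℚ * A = Matrix.J (Fin g) ℚ)
    (y y' : Idx g → R) (a a' : Idx g → Idx g → R) (b b' : Idx g → Idx g → Idx g → R)
    (hy : ∀ i, y' i = ∑ k, A i k • y k)
    (ha : ∀ i j, a' i j = ∑ k, A i k • ∑ l, A j l • a k l)
    (hb : ∀ i j k, b' i j k = ∑ p, A i p • ∑ q, A j q • ∑ r, A k r • b p q r) :
    Gof y' a' b' = Gof y a b := by
  have ey : y' = fun i => ∑ k, A i k • y k := funext hy
  have hvA : ∀ j, vA y' a' j = ∑ l, A j l • vA y a l := by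
    intro j
    have h1 : ∀ i, a' i j = ∑ k, A i k • ∑ l, A j l • a k l := fun i => ha i j
    simp only [vA, ey, h1]
    rw [pair_inv A hA y (fun k => ∑ l, A j l • a k l)]
    simp only [Finset.mul_sum, Finset.smul_sum, mul_smul_comm]
    rw [Finset.sum_comm]
  have hvB : ∀ m, vB y' b' m = ∑ r, A m r • vB y b r := by
    intro m
    have h1 : ∀ k l, tl y' k * tl y' l * b' k l m = tl y' l * (tl y' k *
        (∑ p, A k p • ∑ q, A l q • ∑ r, A m r • b p q r)) := by
      intro k l
      rw [hb]
      ring
    simp only [vB, h1]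
    rw [Finset.sum_comm]
    simp only [← Finset.mul_sum]
    have h2 : ∀ l, ∑ k, tl y' k * (∑ p, A k p • ∑ q, A l q • ∑ r, A m r • b p q r)
        = ∑ q, A l q • ∑ p, tl y p * ∑ r, A m r • b p q r := by
      intro l
      rw [ey, pair_inv A hA y (fun p => ∑ q, A l q • ∑ r, A m r • b p q r)]
      simp only [Finset.mul_sum, Finset.smul_sum, mul_smul_comm]
      rw [Finset.sum_comm]
    simp only [h2]
    rw [ey, pair_inv A hA y (fun q => ∑ p, tl y p * ∑ r, A m r • b p q r)]
    simp only [Finset.mul_sum, Finset.smul_sum, mul_smul_comm]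
    have h3 : ∀ q, ∑ p, ∑ r, A m r • (tl y q * (tl y p * b p q r))
      = ∑ r, ∑ p, A m r • (tl y q * (tl y p * b p q r)) := fun q => Finset.sum_comm
    simp only [h3]
    rw [Finset.sum_comm]
    refine Finset.sum_congr rfl fun r _ => ?_
    rw [Finset.sum_comm]
    refine Finset.sum_congr rfl fun p _ => Finset.sum_congr rfl fun q _ => ?_
    congr 1
    ring
  have evA : vA y' a' = fun i => ∑ k, A i k • vA y a k := funext hvA
  simp only [Gof, hvB]
  rw [evA, pair_inv A hA (vA y a) (vB y b)]

/-- scaling -/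
theorem Gof_scale (t : ℚ) (y : Idx g → R) (a : Idx g → Idx g → R) (b : Idx g → Idx g → Idx g → R) :
    Gof (fun i => t • y i) (fun i j => t ^ 2 • a i j) (fun i j k => t ^ 3 • b i j k)
      = t ^ 8 • Gof y a b := by
  simp only [Gof, vA, vB, tl, Finset.smul_sum, Finset.sum_mul, Finset.mul_sum, Algebra.smul_def,
    map_mul, map_pow]
  refine Finset.sum_congr rfl fun i _ => Finset.sum_congr rfl fun j _ =>
    Finset.sum_congr rfl fun k _ => Finset.sum_congr rfl fun l _ => ?_
  ring

end matrix

section antipode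

variable {y : Idx g → R} {a : Idx g → Idx g → R} {b : Idx g → Idx g → Idx g → R}

/-- effect of the antipode -/
theorem Gof_antipode (sh2 : ∀ i j, y i * y j = a i j + a j i)
    (sh3 : ∀ i j k, y i * a j k = b i j k + b j i k + b j k i) :
    Gof (fun i => - y i) (fun i j => a j i) (fun i j k => - b k j i) = - Gof y a b := by
  have et : ∀ i, tl (fun i => - y i) i = - tl y i := by
    intro i
    simp only [tl, smul_neg]
  have hA : ∀ j, vA (fun i => - y i) (fun i j => a j i) j = vA y a j := by
    intro j
    have h1 : ∀ i, tl (fun i => - y i) i * a j i = tl y i * a i j - (tl y i * y i) * y j := by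
      intro i
      rw [et]
      linear_combination (tl y i) * sh2 i j
    simp only [vA, h1, Finset.sum_sub_distrib, ← Finset.sum_mul, pair_self, zero_mul, sub_zero]
  have hB : ∀ m, vB (fun i => - y i) (fun i j k => - b k j i) m = - vB y b m := by
    intro m
    have h1 : ∀ k l, tl (fun i => - y i) k * tl (fun i => - y i) l * (- b m l k)
        = - (tl y k * tl y l * b k l m) + (tl y k * y k) * (tl y l * a l m)
          - (tl y k * tl y l * a l k) * y m := by
      intro k l
      rw [et, et]
      linear_combination (-(tl y k * tl y l)) * sh3 k l m + (tl y k * tl y l) * sh3 m l k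
    have e1 : ∑ k : Idx g, ∑ l, (tl y k * y k) * (tl y l * a l m) = 0 := by
      rw [← Finset.sum_mul_sum, pair_self, zero_mul]
    have e2 : ∑ k : Idx g, ∑ l, (tl y k * tl y l * a l k) * y m = 0 := by
      simp only [← Finset.sum_mul]
      rw [Finset.sum_comm]
      have : ∀ l k : Idx g, tl y k * tl y l * a l k = tl y l * tl y k * a l k := by
        intro l k; ring
      simp only [this]
      rw [YYa sh2, zero_mul]
    simp only [vB, h1, Finset.sum_sub_distrib, Finset.sum_add_distrib, Finset.sum_neg_distrib, e1,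
      e2, add_zero, sub_zero]
  simp only [Gof, hB]
  rw [← Finset.sum_neg_distrib]
  refine Finset.sum_congr rfl fun i _ => ?_
  simp only [tl, hA]
  ring

end antipode

end

end Pool.Agent.MP_67ad14_al
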