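import Pool.Agent.MP_67ad14_al.Coord
import Pool.Agent.MP_67ad14_al.Galg2

/-!
# The functional `G`
-/

namespace Pool.Agent.MP_67ad14_al

open TensorProduct Coalgebra WithConv

noncomputable section

set_option linter.unusedSectionVars false

section shuffle

variable {X : Type} [DecidableEq X] [Fintype X]

theorem fn_ext {f g : Fn X} (h1 : f 1 = g 1) (h2 : ∀ i, Rι i f = Rι i g) : f = g := by
  apply WithConv.ext
  apply linext h1
  intro w i
  exact congrArg (fun (h : Fn X) => h w) (h2 i)

theorem Rι_one (l : X) : Rι l (1 : Fn X) = 0 := Derivation.map_one_eq_zero _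

theorem Rι_cY (l i : X) : Rι l (cY i) = if l = i then 1 else 0 := by
  apply WithConv.ext; ext w
  change cY i (w * _) = (if l = i then (1 : Fn X) else 0) w
  rw [cY_mul]
  split_ifs with h
  · subst h; simp
  · simp [h]

theorem Rι_cα (l i j : X) : Rι l (cα i j) = if l = j then cY i else 0 := by
  apply WithConv.ext; ext w
  change cα i j (w * _) = (if l = j then (cY i : Fn X) else 0) w
  rw [cα_mul]
  split_ifs with h
  · subst h; simp
  · simp [h]

theorem Rι_cβ (l i j k : X) : Rι l (cβ i j k) = if l = k then cα i j else 0 := by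
  apply WithConv.ext; ext w
  change cβ i j k (w * _) = (if l = k then (cα i j : Fn X) else 0) w
  rw [cβ_mul]
  split_ifs with h
  · subst h; simp
  · simp [h]

theorem shuffle2 (i j : X) : (cY i * cY j : Fn X) = cα i j + cα j i := by
  apply fn_ext
  · rw [conv_one_apply]; simp
  · intro l
    rw [Derivation.leibniz, map_add, Rι_cY, Rι_cY, Rι_cα, Rι_cα]
    split_ifs <;> simp

theorem shuffle3 (i j k : X) : (cY i * cα j k : Fn X) = cβ i j k + cβ j i k + cβ j k i := by
  apply fn_ext
  · rw [conv_one_apply]; simp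
  · intro l
    rw [Derivation.leibniz, map_add, map_add, Rι_cY, Rι_cα, Rι_cβ, Rι_cβ, Rι_cβ]
    have := shuffle2 i j
    split_ifs <;> simp_all [add_comm]

theorem prim_cα {ζ : FreeAlgebra ℚ X} (h : IsPrim ζ) (i j : X) : cα i j ζ = - cα j i ζ := by
  have h1 := conv_prim (cY i) (cY j) h
  rw [shuffle2] at h1
  simp only [cY_one, mul_zero, zero_mul, add_zero] at h1
  have h2 : cα i j ζ + cα j i ζ = 0 := h1
  linarith

theorem prim_cβ {ζ : FreeAlgebra ℚ X} (h : IsPrim ζ) (i j k : X) :
    cβ i j k ζ + cβ j i k ζ + cβ j k i ζ = 0 := by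
  have h1 := conv_prim (cY i) (cα j k) h
  rw [shuffle3] at h1
  simp only [cY_one, cα_one, mul_zero, zero_mul, add_zero] at h1
  exact h1

end shuffle

/-- morphisms of algebras sending generators to primitive elements are morphisms of
coalgebras -/
theorem comul_algHom {X : Type} (φ : FreeAlgebra ℚ X →ₐ[ℚ] FreeAlgebra ℚ X)
    (h : ∀ i, IsPrim (φ (FreeAlgebra.ι ℚ i))) :
    comul (R := ℚ) ∘ₗ φ.toLinearMap = TensorProduct.map φ.toLinearMap φ.toLinearMap ∘ₗ comul := by
  have : (Bialgebra.comulAlgHom ℚ (FreeAlgebra ℚ X)).comp φ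
      = (Algebra.TensorProduct.map φ φ).comp (Bialgebra.comulAlgHom ℚ (FreeAlgebra ℚ X)) := by
    apply FreeAlgebra.hom_ext
    funext i
    simp only [Function.comp_apply, AlgHom.comp_apply, Bialgebra.comulAlgHom_apply, comul_ι]
    rw [h i]
    simp
  exact congrArg AlgHom.toLinearMap this

theorem counit_algHom {X : Type} (φ : FreeAlgebra ℚ X →ₐ[ℚ] FreeAlgebra ℚ X)
    (h : ∀ i, IsPrim (φ (FreeAlgebra.ι ℚ i))) :
    counit (R := ℚ) ∘ₗ φ.toLinearMap = counit := by
  have : (Bialgebra.counitAlgHom ℚ (FreeAlgebra ℚ X)).comp φ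
      = Bialgebra.counitAlgHom ℚ (FreeAlgebra ℚ X) := by
    apply FreeAlgebra.hom_ext
    funext i
    simp only [Function.comp_apply, AlgHom.comp_apply, Bialgebra.counitAlgHom_apply, counit_ι]
    exact isPrim_counit (h i)
  exact congrArg AlgHom.toLinearMap this

section mat

variable {g : ℕ}

/-- The linear change of variables given by a matrix. -/
def mat (A : Matrix (Idx g) (Idx g) ℚ) : FreeAlgebra ℚ (Idx g) →ₐ[ℚ] FreeAlgebra ℚ (Idx g) :=
  FreeAlgebra.lift ℚ fun i => ∑ j, A j i • FreeAlgebra.ι ℚ j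

@[simp] theorem mat_ι (A : Matrix (Idx g) (Idx g) ℚ) (i : Idx g) :
    mat A (FreeAlgebra.ι ℚ i) = ∑ j, A j i • FreeAlgebra.ι ℚ j := FreeAlgebra.lift_ι_apply _ _

theorem isPrim_sum {ι X : Type} (s : Finset ι) (f : ι → FreeAlgebra ℚ X)
    (h : ∀ i, IsPrim (f i)) : IsPrim (∑ i ∈ s, f i) := by
  classical
  induction s using Finset.induction_on with
  | empty => simpa using isPrim_zero
  | insert a s ha ih => rw [Finset.sum_insert ha]; exact (h a).add ih

theorem mat_prim (A : Matrix (Idx g) (Idx g) ℚ) (i : Idx g) :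
    IsPrim (mat A (FreeAlgebra.ι ℚ i)) := by
  rw [mat_ι]
  exact isPrim_sum _ _ fun j => (isPrim_ι j).smul _

/-- pullback of functionals under a linear change of variables -/
def matF (A : Matrix (Idx g) (Idx g) ℚ) : Fn (Idx g) →ₐ[ℚ] Fn (Idx g) :=
  pullHom (mat A).toLinearMap (comul_algHom _ (mat_prim A)) (counit_algHom _ (mat_prim A))

@[simp] theorem matF_apply (A : Matrix (Idx g) (Idx g) ℚ) (f : Fn (Idx g))
    (w : FreeAlgebra ℚ (Idx g)) : (matF A f) w = f (mat A w) := rfl

theorem counit_mat (A : Matrix (Idx g) (Idx g) ℚ) (w : FreeAlgebra ℚ (Idx g)) :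
    counit (R := ℚ) (mat A w) = counit (R := ℚ) w :=
  congrArg (fun h => h w) (counit_algHom _ (mat_prim A))

theorem fox_mat (A : Matrix (Idx g) (Idx g) ℚ) (i : Idx g) (w : FreeAlgebra ℚ (Idx g)) :
    fox i (mat A w) = ∑ j, A i j • mat A (fox j w) := by
  have : fox i ∘ₗ (mat A).toLinearMap = ∑ j, A i j • ((mat A).toLinearMap ∘ₗ fox j) := by
    apply linext
    · simp
    · intro w k
      simp only [LinearMap.comp_apply, AlgHom.toLinearMap_apply, map_mul, mat_ι, Finset.mul_sum,
        map_sum, mul_smul_comm, map_smul, fox_mul_ι, LinearMap.sum_apply, LinearMap.smul_apply]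
      simp only [smul_ite, smul_zero, Finset.sum_ite_eq', Finset.sum_ite_eq, Finset.mem_univ,
        if_true, apply_ite (mat A), map_zero]
  have h := congrArg (fun h => h w) this
  simpa only [LinearMap.comp_apply, AlgHom.toLinearMap_apply, LinearMap.sum_apply,
    LinearMap.smul_apply] using h

theorem fn_sum_apply {ι X : Type} (s : Finset ι) (f : ι → Fn X) (w : FreeAlgebra ℚ X) :
    (∑ i ∈ s, f i) w = ∑ i ∈ s, f i w := by
  classical
  induction s using Finset.induction_on with
  | empty => simp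
  | insert a s ha ih => rw [Finset.sum_insert ha, Finset.sum_insert ha, ← ih]; rfl

theorem matF_cY (A : Matrix (Idx g) (Idx g) ℚ) (i : Idx g) :
    matF A (cY i) = ∑ k, A i k • cY k := by
  apply WithConv.ext; ext w
  change cY i (mat A w) = (∑ k, A i k • cY k : Fn (Idx g)) w
  rw [fn_sum_apply, cY_apply, fox_mat, map_sum]
  refine Finset.sum_congr rfl fun j _ => ?_
  rw [map_smul, counit_mat]
  rfl

theorem matF_cα (A : Matrix (Idx g) (Idx g) ℚ) (i j : Idx g) :
    matF A (cα i j) = ∑ k, A i k • ∑ l, A j l • cα k l := by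
  apply WithConv.ext; ext w
  change cα i j (mat A w) = (∑ k, A i k • ∑ l, A j l • cα k l : Fn (Idx g)) w
  have h1 : ∀ v, cY i (mat A v) = (∑ k, A i k • cY k : Fn (Idx g)) v := by
    intro v; rw [← matF_cY]; rfl
  have h2 : (∑ k, A i k • ∑ l, A j l • cα k l : Fn (Idx g))
      = ∑ l, A j l • ∑ k, A i k • cα k l := by
    simp only [Finset.smul_sum]
    rw [Finset.sum_comm]
    refine Finset.sum_congr rfl fun l _ => Finset.sum_congr rfl fun k _ => ?_
    rw [smul_comm]
  rw [h2, cα_apply, fox_mat, fn_sum_apply]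
  have h3 : ∀ (s : Idx g → FreeAlgebra ℚ (Idx g)), cY i (∑ j, s j) = ∑ j, cY i (s j) :=
    fun s => map_sum (cY i).ofConv s Finset.univ
  rw [h3]
  refine Finset.sum_congr rfl fun l _ => ?_
  have h4 : cY i (A j l • mat A (fox l w)) = A j l * cY i (mat A (fox l w)) :=
    map_smul (cY i).ofConv _ _
  rw [h4, h1, fn_sum_apply]
  have h5 : (A j l • ∑ k, A i k • cα k l : Fn (Idx g)) w = A j l * (∑ k, A i k • cα k l : Fn (Idx g)) w :=
    rfl
  rw [h5, fn_sum_apply]
  rfl

end mat

end

end Pool.Agent.MP_67ad14_al
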