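import Pool.Agent.MP_67ad14_al.Gfun

/-!
# Invariance properties of the functional `G`
-/

namespace Pool.Agent.MP_67ad14_al

open TensorProduct Coalgebra WithConv

noncomputable section

set_option linter.unusedSectionVars false

variable {g : ℕ}

theorem matF_cβ (A : Matrix (Idx g) (Idx g) ℚ) (i j k : Idx g) :
    matF A (cβ i j k) = ∑ p, A i p • ∑ q, A j q • ∑ r, A k r • cβ p q r := by
  apply WithConv.ext; ext w
  change cβ i j k (mat A w) = (∑ p, A i p • ∑ q, A j q • ∑ r, A k r • cβ p q r : Fn (Idx g)) w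
  have h1 : ∀ v, cα i j (mat A v) = (∑ p, A i p • ∑ q, A j q • cα p q : Fn (Idx g)) v := by
    intro v; rw [← matF_cα]; rfl
  have h2 : (∑ p, A i p • ∑ q, A j q • ∑ r, A k r • cβ p q r : Fn (Idx g))
      = ∑ r, A k r • ∑ p, A i p • ∑ q, A j q • cβ p q r := by
    simp only [Finset.smul_sum]
    have e1 : ∀ p, ∑ q, ∑ r, A i p • A j q • A k r • (cβ p q r : Fn (Idx g))
      = ∑ r, ∑ q, A i p • A j q • A k r • (cβ p q r : Fn (Idx g)) := fun p => Finset.sum_comm
    simp only [e1]
    rw [Finset.sum_comm]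
    refine Finset.sum_congr rfl fun l _ => Finset.sum_congr rfl fun p _ =>
      Finset.sum_congr rfl fun q _ => ?_
    rw [smul_comm (A j q), smul_comm (A i p)]
  rw [h2, cβ_apply, fox_mat, fn_sum_apply]
  have h3 : ∀ (s : Idx g → FreeAlgebra ℚ (Idx g)), cα i j (∑ j, s j) = ∑ l, cα i j (s l) :=
    fun s => map_sum (cα i j).ofConv s Finset.univ
  rw [h3]
  refine Finset.sum_congr rfl fun l _ => ?_
  have h4 : cα i j (A k l • mat A (fox l w)) = A k l * cα i j (mat A (fox l w)) :=
    map_smul (cα i j).ofConv _ _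
  rw [h4, h1, fn_sum_apply]
  have h5 : (A k l • ∑ p, A i p • ∑ q, A j q • cβ p q l : Fn (Idx g)) w
      = A k l * (∑ p, A i p • ∑ q, A j q • cβ p q l : Fn (Idx g)) w := rfl
  rw [h5, fn_sum_apply]
  congr 1
  refine Finset.sum_congr rfl fun p _ => ?_
  have h6 : (A i p • ∑ q, A j q • cβ p q l : Fn (Idx g)) w
      = A i p * (∑ q, A j q • cβ p q l : Fn (Idx g)) w := rfl
  have h7 : (A i p • ∑ q, A j q • cα p q : Fn (Idx g)) (fox l w)
      = A i p * (∑ q, A j q • cα p q : Fn (Idx g)) (fox l w) := rfl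
  rw [h6, h7, fn_sum_apply, fn_sum_apply]
  rfl

/-- the functional `G` -/
def Gf (g : ℕ) : Fn (Idx g) := Gof cY cα cβ

/-- symplectic invariance -/
theorem matF_Gf {A : Matrix (Idx g) (Idx g) ℚ}
    (hA : A.transpose * Matrix.J (Fin g) ℚ * A = Matrix.J (Fin g) ℚ) :
    matF A (Gf g) = Gf g := by
  have h : matF A (Gf g) = Gof (fun i => matF A (cY i)) (fun i j => matF A (cα i j))
      (fun i j k => matF A (cβ i j k)) := by
    simp only [Gf, Gof, vA, vB, tl, map_sum, map_mul, map_smul]
  rw [h]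
  exact Gof_matrix A hA _ _ _ _ _ _ (matF_cY A) (matF_cα A) (matF_cβ A)

/-- scaling -/
theorem matF_scale (t : ℚ) : matF (t • (1 : Matrix (Idx g) (Idx g) ℚ)) (Gf g) = t ^ 8 • Gf g := by
  have h : matF (t • (1 : Matrix (Idx g) (Idx g) ℚ)) (Gf g)
      = Gof (fun i => matF (t • (1 : Matrix (Idx g) (Idx g) ℚ)) (cY i))
      (fun i j => matF (t • (1 : Matrix (Idx g) (Idx g) ℚ)) (cα i j))
      (fun i j k => matF (t • (1 : Matrix (Idx g) (Idx g) ℚ)) (cβ i j k)) := by
    simp only [Gf, Gof, vA, vB, tl, map_sum, map_mul, map_smul]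
  rw [h, Gf, ← Gof_scale]
  have e : ∀ (i : Idx g) (f : Idx g → Fn (Idx g)),
      ∑ k, (t • (1 : Matrix (Idx g) (Idx g) ℚ)) i k • f k = t • f i := by
    intro i f
    simp [Matrix.smul_apply, Matrix.one_apply, ite_smul, mul_ite]
  congr 1
  · funext i
    rw [matF_cY, e]
  · funext i j
    rw [matF_cα, e, e, smul_smul, ← sq]
  · funext i j k
    rw [matF_cβ, e, e, e, smul_smul, smul_smul]
    congr 1
    ring

theorem Gf_mul_ι (p : Idx g) (r : ℕ) (w : FreeAlgebra ℚ (Idx g)) :
    (Gf g ^ r) (FreeAlgebra.ι ℚ p * w) = (Gf g ^ r) (w * FreeAlgebra.ι ℚ p) := by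
  let D : Derivation ℚ (Fn (Idx g)) (Fn (Idx g)) :=
    pullDer (LinearMap.mulLeft ℚ (FreeAlgebra.ι ℚ p)) (isCoder_mulLeft (isPrim_ι p))
      - pullDer (LinearMap.mulRight ℚ (FreeAlgebra.ι ℚ p)) (isCoder_mulRight (isPrim_ι p))
  have hD : ∀ (f : Fn (Idx g)) (w : FreeAlgebra ℚ (Idx g)),
      (D f) w = f (FreeAlgebra.ι ℚ p * w) - f (w * FreeAlgebra.ι ℚ p) := fun f w => rfl
  have hG : D (Gf g) = 0 := by
    apply ad_Gof shuffle2 shuffle3 D p
    · intro i
      apply WithConv.ext; ext w
      change (D (cY i)) w = 0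
      rw [hD, cY_mul, cY_mul]
      simp
    · intro i j
      apply WithConv.ext; ext w
      have h1 : ((if p = i then cY j else 0) - (if p = j then cY i else 0) : Fn (Idx g)) w
        = (if p = i then cY j w else 0) - (if p = j then cY i w else 0) := by
        split_ifs <;> rfl
      change (D (cα i j)) w = ((if p = i then cY j else 0) - (if p = j then cY i else 0) : Fn (Idx g)) w
      rw [h1, hD, cα_mul, cα_mul]
      simp only [counit_ι, cα_ι, cY_ι, ite_mul, mul_ite]
      split_ifs <;> ring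
    · intro i j k
      apply WithConv.ext; ext w
      have h1 : ((if p = i then cα j k else 0) - (if p = k then cα i j else 0) : Fn (Idx g)) w
        = (if p = i then cα j k w else 0) - (if p = k then cα i j w else 0) := by
        split_ifs <;> rfl
      change (D (cβ i j k)) w = ((if p = i then cα j k else 0) - (if p = k then cα i j else 0) : Fn (Idx g)) w
      rw [h1, hD, cβ_mul, cβ_mul]
      simp only [counit_ι, cα_ι, cY_ι, cβ_ι, ite_mul, mul_ite]
      split_ifs <;> ring
  have h : D (Gf g ^ r) = 0 := by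
    rw [Derivation.leibniz_pow, hG]
    simp
  have h2 := congrArg (fun (f : Fn (Idx g)) => f w) h
  have h3 : (D (Gf g ^ r)) w = 0 := h2
  rw [hD] at h3
  linarith

/-- cyclic invariance -/
theorem Gf_cyclic (r : ℕ) (a b : FreeAlgebra ℚ (Idx g)) :
    (Gf g ^ r) (a * b) = (Gf g ^ r) (b * a) := by
  induction a using FreeAlgebra.induction generalizing b with
  | grade0 c => rw [Algebra.commutes]
  | grade1 i => exact Gf_mul_ι i r b
  | mul x y hx hy => rw [mul_assoc, hx, mul_assoc, hy, mul_assoc]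
  | add x y hx hy =>
    have e1 : (Gf g ^ r) ((x + y) * b) = (Gf g ^ r) (x * b) + (Gf g ^ r) (y * b) := by
      rw [add_mul]; exact map_add (Gf g ^ r).ofConv _ _
    have e2 : (Gf g ^ r) (b * (x + y)) = (Gf g ^ r) (b * x) + (Gf g ^ r) (b * y) := by
      rw [mul_add]; exact map_add (Gf g ^ r).ofConv _ _
    rw [e1, e2, hx, hy]

theorem fn_lin_ext {f : Fn (Idx g)} {h : FreeAlgebra ℚ (Idx g) →ₗ[ℚ] ℚ} (h1 : f 1 = h 1)
    (h2 : ∀ w i, f (w * FreeAlgebra.ι ℚ i) = h (w * FreeAlgebra.ι ℚ i))
    (w : FreeAlgebra ℚ (Idx g)) : f w = h w := by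
  have : f.ofConv = h := linext h1 h2
  exact congrArg (fun (f : FreeAlgebra ℚ (Idx g) →ₗ[ℚ] ℚ) => f w) this

theorem counit_der {v : Idx g → FreeAlgebra ℚ (Idx g)} (hε : ∀ i, counit (R := ℚ) (v i) = 0)
    (w : FreeAlgebra ℚ (Idx g)) : counit (R := ℚ) (der v w) = 0 := by
  have : (counit (R := ℚ)) ∘ₗ der v = 0 := by
    apply linext
    · simp
    · intro w i
      simp [der_mul, hε]
  exact congrArg (fun (f : FreeAlgebra ℚ (Idx g) →ₗ[ℚ] ℚ) => f w) this

theorem cY_der {v : Idx g → FreeAlgebra ℚ (Idx g)} (hε : ∀ i, counit (R := ℚ) (v i) = 0)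
    (hy : ∀ i j, cY i (v j) = 0) (i : Idx g) (w : FreeAlgebra ℚ (Idx g)) :
    cY i (der v w) = 0 := by
  have : (cY i).ofConv ∘ₗ der v = 0 := by
    apply linext
    · simp
    · intro w l
      have e : cY i (der v (w * FreeAlgebra.ι ℚ l)) = cY i (w * v l)
          + cY i (der v w * FreeAlgebra.ι ℚ l) := by
        rw [der_mul, der_ι]; exact map_add (cY i).ofConv _ _
      change cY i (der v (w * FreeAlgebra.ι ℚ l)) = 0
      rw [e, cY_mul, cY_mul, hy, hε, counit_der hε]
      simp
  exact congrArg (fun (f : FreeAlgebra ℚ (Idx g) →ₗ[ℚ] ℚ) => f w) this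

theorem cα_der {v : Idx g → FreeAlgebra ℚ (Idx g)} (hε : ∀ i, counit (R := ℚ) (v i) = 0)
    (hy : ∀ i j, cY i (v j) = 0) (i j : Idx g) (w : FreeAlgebra ℚ (Idx g)) :
    cα i j (der v w) = ∑ l, cα i j (v l) * cY l w := by
  have : (cα i j).ofConv ∘ₗ der v = ∑ l, cα i j (v l) • (cY l).ofConv := by
    apply linext
    · simp only [LinearMap.comp_apply, der_one, map_zero, LinearMap.sum_apply,
        LinearMap.smul_apply]
      have : ∀ l : Idx g, (cY l).ofConv 1 = 0 := fun l => cY_one l
      simp [this]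
    · intro w l
      have e : cα i j (der v (w * FreeAlgebra.ι ℚ l)) = cα i j (w * v l)
          + cα i j (der v w * FreeAlgebra.ι ℚ l) := by
        rw [der_mul, der_ι]; exact map_add (cα i j).ofConv _ _
      change cα i j (der v (w * FreeAlgebra.ι ℚ l)) = _
      rw [e, cα_mul, cα_mul, hy, hε, counit_der hε, cY_der hε hy]
      simp only [LinearMap.sum_apply, LinearMap.smul_apply]
      have h3 : ∀ m : Idx g, (cY m).ofConv (w * FreeAlgebra.ι ℚ l)
          = if l = m then counit (R := ℚ) w else 0 := by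
        intro m
        change cY m (w * FreeAlgebra.ι ℚ l) = _
        rw [cY_mul]; simp
      simp [h3, mul_comm]
  have h := congrArg (fun (f : FreeAlgebra ℚ (Idx g) →ₗ[ℚ] ℚ) => f w) this
  simpa only [LinearMap.sum_apply, LinearMap.smul_apply, LinearMap.comp_apply, smul_eq_mul] using h

theorem cβ_der {v : Idx g → FreeAlgebra ℚ (Idx g)} (hε : ∀ i, counit (R := ℚ) (v i) = 0)
    (hy : ∀ i j, cY i (v j) = 0) (i j k : Idx g) (w : FreeAlgebra ℚ (Idx g)) :
    cβ i j k (der v w) = ∑ l, cβ i j k (v l) * cY l w + ∑ l, cα i j (v l) * cα l k w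
      + ∑ l, cα j k (v l) * cα i l w := by
  have : (cβ i j k).ofConv ∘ₗ der v = ∑ l, cβ i j k (v l) • (cY l).ofConv
      + ∑ l, cα i j (v l) • (cα l k).ofConv + ∑ l, cα j k (v l) • (cα i l).ofConv := by
    apply linext
    · simp only [LinearMap.comp_apply, der_one, map_zero, LinearMap.sum_apply,
        LinearMap.smul_apply, LinearMap.add_apply]
      have h1 : ∀ l : Idx g, (cY l).ofConv 1 = 0 := fun l => cY_one l
      have h2 : ∀ l m : Idx g, (cα l m).ofConv 1 = 0 := fun l m => cα_one l m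
      simp [h1, h2]
    · intro w l
      have e : cβ i j k (der v (w * FreeAlgebra.ι ℚ l)) = cβ i j k (w * v l)
          + cβ i j k (der v w * FreeAlgebra.ι ℚ l) := by
        rw [der_mul, der_ι]; exact map_add (cβ i j k).ofConv _ _
      change cβ i j k (der v (w * FreeAlgebra.ι ℚ l)) = _
      rw [e, cβ_mul, cβ_mul, hy, hε, counit_der hε, cY_der hε hy, cα_der hε hy]
      simp only [LinearMap.sum_apply, LinearMap.smul_apply, LinearMap.add_apply]
      have h3 : ∀ m : Idx g, (cY m).ofConv (w * FreeAlgebra.ι ℚ l)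
          = if l = m then counit (R := ℚ) w else 0 := by
        intro m
        change cY m (w * FreeAlgebra.ι ℚ l) = _
        rw [cY_mul]; simp
      have h4 : ∀ m n : Idx g, (cα m n).ofConv (w * FreeAlgebra.ι ℚ l)
          = if l = n then cY m w else 0 := by
        intro m n
        change cα m n (w * FreeAlgebra.ι ℚ l) = _
        rw [cα_mul]; simp
      simp only [h3, h4, smul_eq_mul, mul_ite, mul_zero, Finset.sum_ite_eq, Finset.mem_univ,
        if_true, cY_ι, cα_ι, cβ_ι, counit_ι, zero_mul, add_zero, zero_add]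
      split_ifs with h
      · ring
      · simp; ring
  have h := congrArg (fun (f : FreeAlgebra ℚ (Idx g) →ₗ[ℚ] ℚ) => f w) this
  simpa only [LinearMap.sum_apply, LinearMap.smul_apply, LinearMap.add_apply,
    LinearMap.comp_apply, smul_eq_mul] using h

/-- positive symplectic derivations kill `G` -/
theorem der_Gf {v : Idx g → FreeAlgebra ℚ (Idx g)} (hp : ∀ i, IsPrim (v i))
    (hy : ∀ i j, cY i (v j) = 0)
    (hs : ∑ l, sg l • (v l * FreeAlgebra.ι ℚ (bar l) - FreeAlgebra.ι ℚ (bar l) * v l) = 0)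
    (r : ℕ) (w : FreeAlgebra ℚ (Idx g)) : (Gf g ^ r) (der v w) = 0 := by
  have hε : ∀ i, counit (R := ℚ) (v i) = 0 := fun i => isPrim_counit (hp i)
  let D := pullDer (der v) (isCoder_der hp)
  have hD : ∀ (f : Fn (Idx g)) (w : FreeAlgebra ℚ (Idx g)), (D f) w = f (der v w) :=
    fun f w => rfl
  have hpair : ∀ f : Fn (Idx g), ∑ l, sg l * (f (v l * FreeAlgebra.ι ℚ (bar l))
      - f (FreeAlgebra.ι ℚ (bar l) * v l)) = 0 := by
    intro f
    have h := congrArg f.ofConv hs
    simp only [map_sum, map_smul, map_sub, map_zero, smul_eq_mul] at h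
    exact h
  have hG : D (Gf g) = 0 := by
    apply symp_Gof D (fun i j k => sg (bar k) * cα i j (v (bar k)))
      (fun i j k l => sg (bar l) * cβ i j k (v (bar l)))
    · intro i j k
      rw [prim_cα (hp _) i j]
      ring
    · intro i j k
      have h := hpair (cβ i j k)
      have e : ∀ l, sg l * (cβ i j k (v l * FreeAlgebra.ι ℚ (bar l))
          - cβ i j k (FreeAlgebra.ι ℚ (bar l) * v l))
          = (if bar l = k then sg l * cα i j (v l) else 0)
            - (if bar l = i then sg l * cα j k (v l) else 0) := by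
        intro l
        rw [cβ_mul, cβ_mul]
        simp only [hε, hy, cY_ι, cα_ι, cβ_ι, counit_ι]
        split_ifs <;> ring
      simp only [e] at h
      rw [← sum_bar] at h
      simp only [bar_bar, Finset.sum_sub_distrib, Finset.sum_ite_eq', Finset.mem_univ, if_true] at h
      linarith
    · intro i j k l
      have h := hpair (cγ i j k l)
      have e : ∀ m, sg m * (cγ i j k l (v m * FreeAlgebra.ι ℚ (bar m))
          - cγ i j k l (FreeAlgebra.ι ℚ (bar m) * v m))
          = (if bar m = l then sg m * cβ i j k (v m) else 0)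
            - (if bar m = i then sg m * cβ j k l (v m) else 0) := by
        intro m
        have e0 : cγ i j k l (FreeAlgebra.ι ℚ (bar m)) = 0 := by
          rw [cγ_apply, fox_ι]
          split_ifs
          · exact cβ_one _ _ _
          · exact map_zero (cβ i j k).ofConv
        rw [cγ_mul, cγ_mul]
        simp only [hε, hy, cY_ι, cα_ι, cβ_ι, counit_ι, e0]
        split_ifs <;> ring
      simp only [e] at h
      rw [← sum_bar] at h
      simp only [bar_bar, Finset.sum_sub_distrib, Finset.sum_ite_eq', Finset.mem_univ, if_true] at h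
      linarith
    · intro i j k l
      have := prim_cβ (hp (bar l)) i j k
      linear_combination (sg (bar l)) * this
    · intro i
      apply WithConv.ext; ext w
      exact cY_der hε hy i w
    · intro i j
      apply WithConv.ext; ext w
      change cα i j (der v w) = (∑ l, (sg l * (sg (bar (bar l)) * cα i j (v (bar (bar l))))) • cY l : Fn (Idx g)) w
      rw [fn_sum_apply, cα_der hε hy]
      refine Finset.sum_congr rfl fun l _ => ?_
      rw [bar_bar, ← mul_assoc, sg_mul_self, one_mul]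
      rfl
    · intro i j k
      apply WithConv.ext; ext w
      change cβ i j k (der v w) = (∑ l, (sg l * (sg (bar (bar l)) * cβ i j k (v (bar (bar l))))) • cY l : Fn (Idx g)) w
        + (∑ l, (sg l * (sg (bar (bar l)) * cα i j (v (bar (bar l))))) • cα l k : Fn (Idx g)) w
        + (∑ l, (sg l * (sg (bar (bar l)) * cα j k (v (bar (bar l))))) • cα i l : Fn (Idx g)) w
      rw [fn_sum_apply, fn_sum_apply, fn_sum_apply, cβ_der hε hy]
      simp only [bar_bar, ← mul_assoc, sg_mul_self, one_mul]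
      rfl
  have h : D (Gf g ^ r) = 0 := by
    rw [Derivation.leibniz_pow, hG]
    simp
  exact congrArg (fun (f : Fn (Idx g)) => f w) h

end

end Pool.Agent.MP_67ad14_al
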