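import Pool.Agent.MP_67ad14_al.Gfun2

/-!
# The antipode, deep elements and the evaluation of `G ^ r` on blocks
-/

namespace Pool.Agent.MP_67ad14_al

open TensorProduct Coalgebra WithConv

noncomputable section

set_option linter.unusedSectionVars false

variable {g : ℕ}

/-- the antipode -/
def anti : FreeAlgebra ℚ (Idx g) →ₗ[ℚ] FreeAlgebra ℚ (Idx g) :=
  (MulOpposite.opLinearEquiv ℚ).symm.toLinearMap ∘ₗ
    (FreeAlgebra.lift ℚ (fun i => MulOpposite.op (-FreeAlgebra.ι ℚ i)) :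
      FreeAlgebra ℚ (Idx g) →ₐ[ℚ] (FreeAlgebra ℚ (Idx g))ᵐᵒᵖ).toLinearMap

theorem anti_mul (a b : FreeAlgebra ℚ (Idx g)) : anti (a * b) = anti b * anti a := by
  simp [anti]

@[simp] theorem anti_ι (i : Idx g) : anti (FreeAlgebra.ι ℚ i) = -FreeAlgebra.ι ℚ i := by
  simp [anti]

@[simp] theorem anti_one : anti (1 : FreeAlgebra ℚ (Idx g)) = 1 := by
  simp [anti]

@[simp] theorem anti_anti (w : FreeAlgebra ℚ (Idx g)) : anti (anti w) = w := by
  induction w using FreeAlgebra.induction with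
  | grade0 c => rw [Algebra.algebraMap_eq_smul_one, map_smul, map_smul, anti_one, anti_one]
  | grade1 i => simp
  | mul x y hx hy => rw [anti_mul, anti_mul, hx, hy]
  | add x y hx hy => rw [map_add, map_add, hx, hy]

theorem comul_anti : comul (R := ℚ) ∘ₗ (anti (g := g)) = TensorProduct.map anti anti ∘ₗ comul := by
  have key : ∀ s t : FreeAlgebra ℚ (Idx g) ⊗[ℚ] FreeAlgebra ℚ (Idx g),
      TensorProduct.map anti anti (s * t)
        = TensorProduct.map anti anti t * TensorProduct.map anti anti s := by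
    intro s t
    induction s using TensorProduct.induction_on with
    | zero => simp
    | add x y hx hy => rw [add_mul, map_add, hx, hy, map_add, mul_add]
    | tmul a b =>
      induction t using TensorProduct.induction_on with
      | zero => simp
      | add x y hx hy => rw [mul_add, map_add, hx, hy, map_add, add_mul]
      | tmul c d =>
        simp only [Algebra.TensorProduct.tmul_mul_tmul, TensorProduct.map_tmul, anti_mul]
  ext w
  change comul (R := ℚ) (anti w) = TensorProduct.map anti anti (comul (R := ℚ) w)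
  induction w using FreeAlgebra.induction with
  | grade0 r =>
    rw [Algebra.algebraMap_eq_smul_one, map_smul, map_smul, map_smul, map_smul, anti_one,
      Bialgebra.comul_one, Algebra.TensorProduct.one_def]
    simp
  | grade1 i =>
    rw [anti_ι, map_neg, comul_ι]
    simp [TensorProduct.neg_tmul, TensorProduct.tmul_neg]
    abel
  | mul a b ha hb => rw [anti_mul, Bialgebra.comul_mul, Bialgebra.comul_mul, ha, hb, key]
  | add a b ha hb => simp only [map_add, ha, hb]

theorem counit_anti : counit (R := ℚ) ∘ₗ (anti (g := g)) = counit := by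
  apply linext
  · simp
  · intro w i
    simp [anti_mul]

theorem counit_anti' (w : FreeAlgebra ℚ (Idx g)) :
    counit (R := ℚ) (anti w) = counit (R := ℚ) w :=
  congrArg (fun (f : FreeAlgebra ℚ (Idx g) →ₗ[ℚ] ℚ) => f w) counit_anti

/-- pullback under the antipode -/
def antiF : Fn (Idx g) →ₐ[ℚ] Fn (Idx g) := pullHom anti comul_anti counit_anti

theorem fn_neg_apply (f : Fn (Idx g)) (w : FreeAlgebra ℚ (Idx g)) : f (-w) = - f w :=
  map_neg f.ofConv w

theorem fn_add_apply (f : Fn (Idx g)) (v w : FreeAlgebra ℚ (Idx g)) : f (v + w) = f v + f w :=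
  map_add f.ofConv v w

theorem fn_sub_apply (f : Fn (Idx g)) (v w : FreeAlgebra ℚ (Idx g)) : f (v - w) = f v - f w :=
  map_sub f.ofConv v w

theorem fn_smul_apply (f : Fn (Idx g)) (c : ℚ) (w : FreeAlgebra ℚ (Idx g)) :
    f (c • w) = c * f w :=
  map_smul f.ofConv c w

theorem fn_zero_apply (f : Fn (Idx g)) : f (0 : FreeAlgebra ℚ (Idx g)) = 0 :=
  map_zero f.ofConv

theorem cY_anti (i : Idx g) (w : FreeAlgebra ℚ (Idx g)) : cY i (anti w) = - cY i w := by
  have : (cY i).ofConv ∘ₗ anti = -(cY i).ofConv := by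
    apply linext
    · change cY i (anti 1) = - cY i (1 : FreeAlgebra ℚ (Idx g))
      simp
    · intro w l
      change cY i (anti (w * FreeAlgebra.ι ℚ l)) = - cY i (w * FreeAlgebra.ι ℚ l)
      rw [anti_mul, anti_ι, cY_mul, cY_mul, fn_neg_apply, map_neg, cY_ι, counit_ι, counit_anti']
      ring
  exact congrArg (fun (f : FreeAlgebra ℚ (Idx g) →ₗ[ℚ] ℚ) => f w) this

theorem cα_anti (i j : Idx g) (w : FreeAlgebra ℚ (Idx g)) : cα i j (anti w) = cα j i w := by
  have : (cα i j).ofConv ∘ₗ anti = (cα j i).ofConv := by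
    apply linext
    · change cα i j (anti 1) = cα j i (1 : FreeAlgebra ℚ (Idx g))
      simp
    · intro w l
      change cα i j (anti (w * FreeAlgebra.ι ℚ l)) = cα j i (w * FreeAlgebra.ι ℚ l)
      rw [anti_mul, anti_ι, cα_mul, cα_mul]
      simp only [map_neg, cY_ι, cα_ι, counit_ι, cY_anti]
      ring
  exact congrArg (fun (f : FreeAlgebra ℚ (Idx g) →ₗ[ℚ] ℚ) => f w) this

theorem cβ_anti (i j k : Idx g) (w : FreeAlgebra ℚ (Idx g)) :
    cβ i j k (anti w) = - cβ k j i w := by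
  have : (cβ i j k).ofConv ∘ₗ anti = -(cβ k j i).ofConv := by
    apply linext
    · change cβ i j k (anti 1) = -cβ k j i (1 : FreeAlgebra ℚ (Idx g))
      simp
    · intro w l
      change cβ i j k (anti (w * FreeAlgebra.ι ℚ l)) = -cβ k j i (w * FreeAlgebra.ι ℚ l)
      rw [anti_mul, anti_ι, cβ_mul, cβ_mul]
      simp only [map_neg, cY_ι, cα_ι, cβ_ι, counit_ι, cα_anti]
      ring
  exact congrArg (fun (f : FreeAlgebra ℚ (Idx g) →ₗ[ℚ] ℚ) => f w) this

theorem Gf_anti (r : ℕ) (w : FreeAlgebra ℚ (Idx g)) :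
    (Gf g ^ r) (anti w) = (-1) ^ r * (Gf g ^ r) w := by
  have h : antiF (Gf g) = - Gf g := by
    have h1 : antiF (Gf g) = Gof (fun i => antiF (cY i)) (fun i j => antiF (cα i j))
        (fun i j k => antiF (cβ i j k)) := by
      simp only [Gf, Gof, vA, vB, tl, map_sum, map_mul, map_smul]
    have e1 : ∀ i : Idx g, antiF (cY i) = - cY i := by
      intro i; apply WithConv.ext; ext w; exact cY_anti i w
    have e2 : ∀ i j : Idx g, antiF (cα i j) = cα j i := by
      intro i j; apply WithConv.ext; ext w; exact cα_anti i j w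
    have e3 : ∀ i j k : Idx g, antiF (cβ i j k) = - cβ k j i := by
      intro i j k; apply WithConv.ext; ext w; exact cβ_anti i j k w
    rw [h1]
    simp only [e1, e2, e3]
    exact Gof_antipode shuffle2 shuffle3
  have h2 : antiF (Gf g ^ r) = (-1 : ℚ) ^ r • Gf g ^ r := by
    rw [map_pow, h, Algebra.smul_def, map_pow, map_neg, map_one]
    exact neg_pow (Gf g) r
  exact congrArg (fun (f : Fn (Idx g)) => f w) h2

/-- elements on which all coordinate functionals of degree at most 3 vanish -/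
def Deep (ζ : FreeAlgebra ℚ (Idx g)) : Prop :=
  (∀ i, cY i ζ = 0) ∧ (∀ i j, cα i j ζ = 0) ∧ ∀ i j k, cβ i j k ζ = 0

theorem Gf_deep {ζ : FreeAlgebra ℚ (Idx g)} (h : IsPrim ζ) (hd : Deep ζ) (r : ℕ)
    (w : FreeAlgebra ℚ (Idx g)) : (Gf g ^ r) (w * ζ) = 0 := by
  have hε := isPrim_counit h
  have hY : ∀ i, Rd ζ h (cY i) = 0 := by
    intro i; apply WithConv.ext; ext w
    change cY i (w * ζ) = 0
    rw [cY_mul, hd.1, hε]; ring
  have hA : ∀ i j, Rd ζ h (cα i j) = 0 := by
    intro i j; apply WithConv.ext; ext w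
    change cα i j (w * ζ) = 0
    rw [cα_mul, hd.1, hd.2.1, hε]; ring
  have hB : ∀ i j k, Rd ζ h (cβ i j k) = 0 := by
    intro i j k; apply WithConv.ext; ext w
    change cβ i j k (w * ζ) = 0
    rw [cβ_mul, hd.1, hd.2.1, hd.2.2, hε]; ring
  have hG : Rd ζ h (Gf g) = 0 := by
    rw [Gf, der_Gof]
    simp only [der_vA _ _ _ hY, der_vB _ _ _ hY, hA, hB, mul_zero, Finset.sum_const_zero, tl,
      smul_zero, zero_mul, add_zero]
  have h2 : Rd ζ h (Gf g ^ r) = 0 := by
    rw [Derivation.leibniz_pow, hG]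
    simp
  exact congrArg (fun (f : Fn (Idx g)) => f w) h2

/-- the subalgebra generated by a set of letters -/
def TS (S : Set (Idx g)) : Subalgebra ℚ (FreeAlgebra ℚ (Idx g)) :=
  Algebra.adjoin ℚ (FreeAlgebra.ι ℚ '' S)

theorem ι_mem_TS {S : Set (Idx g)} {i : Idx g} (h : i ∈ S) : FreeAlgebra.ι ℚ i ∈ TS S :=
  Algebra.subset_adjoin ⟨i, h, rfl⟩

theorem TS_mono {S S' : Set (Idx g)} (h : S ⊆ S') : TS S ≤ TS S' :=
  Algebra.adjoin_mono (Set.image_mono h)

theorem mat_diag_TS {S : Set (Idx g)} {c : Idx g} (hc : c ∉ S) {w : FreeAlgebra ℚ (Idx g)}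
    (hw : w ∈ TS S) : mat (Matrix.diagonal fun i => if i = c then 0 else 1) w = w := by
  have h : TS S ≤ AlgHom.equalizer (mat (Matrix.diagonal fun i => if i = c then 0 else 1))
      (AlgHom.id ℚ _) := by
    apply Algebra.adjoin_le
    rintro _ ⟨i, hi, rfl⟩
    have hne : i ≠ c := fun h => hc (h ▸ hi)
    change mat _ (FreeAlgebra.ι ℚ i) = FreeAlgebra.ι ℚ i
    rw [mat_ι]
    simp [Matrix.diagonal_apply, ite_smul, hne]
  exact h hw

/-- forgetting a letter -/
def rho (c : Idx g) : Fn (Idx g) →ₐ[ℚ] Fn (Idx g) :=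
  matF (Matrix.diagonal fun i => if i = c then 0 else 1)

theorem rho_apply_TS {S : Set (Idx g)} {c : Idx g} (hc : c ∉ S) {w : FreeAlgebra ℚ (Idx g)}
    (hw : w ∈ TS S) (f : Fn (Idx g)) : (rho c f) w = f w := by
  rw [rho, matF_apply, mat_diag_TS hc hw]

theorem rho_cY (c : Idx g) : rho c (cY c) = 0 := by
  rw [rho, matF_cY]
  simp [Matrix.diagonal_apply]

theorem rho_cα (c i : Idx g) : rho c (cα i c) = 0 := by
  rw [rho, matF_cα]
  simp [Matrix.diagonal_apply]

/-- the bracket `[s', c]` -/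
def z4 (s' c : Idx g) : FreeAlgebra ℚ (Idx g) :=
  FreeAlgebra.ι ℚ s' * FreeAlgebra.ι ℚ c - FreeAlgebra.ι ℚ c * FreeAlgebra.ι ℚ s'

theorem z4_prim (s' c : Idx g) : IsPrim (z4 s' c) := (isPrim_ι _).lie (isPrim_ι _)

/-- the bracket `[s', [s', c']]` -/
def z5 (s' c' : Idx g) : FreeAlgebra ℚ (Idx g) :=
  FreeAlgebra.ι ℚ s' * z4 s' c' - z4 s' c' * FreeAlgebra.ι ℚ s'

theorem z5_prim (s' c' : Idx g) : IsPrim (z5 s' c') := (isPrim_ι _).lie (z4_prim _ _)

theorem cY_z4 (s' c i : Idx g) : cY i (z4 s' c) = 0 := by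
  rw [z4, fn_sub_apply, cY_mul, cY_mul]
  simp

theorem cα_z4 (s' c i j : Idx g) : cα i j (z4 s' c)
    = (if s' = i then 1 else 0) * (if c = j then 1 else 0)
      - (if c = i then 1 else 0) * (if s' = j then 1 else 0) := by
  rw [z4, fn_sub_apply, cα_mul, cα_mul]
  simp only [counit_ι, cα_ι, cY_ι]
  ring

theorem counit_z4 (s' c : Idx g) : counit (R := ℚ) (z4 s' c) = 0 := isPrim_counit (z4_prim _ _)

theorem cβ_z4 (s' c i j k : Idx g) : cβ i j k (z4 s' c) = 0 := by
  rw [z4, fn_sub_apply, cβ_mul, cβ_mul]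
  simp

theorem cY_z5 (s' c i : Idx g) : cY i (z5 s' c) = 0 := by
  rw [z5, fn_sub_apply, cY_mul, cY_mul]
  simp only [counit_ι, cY_z4, counit_z4]
  ring

theorem cα_z5 (s' c i j : Idx g) : cα i j (z5 s' c) = 0 := by
  rw [z5, fn_sub_apply, cα_mul, cα_mul]
  simp only [counit_ι, cY_z4, counit_z4, cα_ι]
  ring

theorem cβ_z5 (s' c i j k : Idx g) : cβ i j k (z5 s' c)
    = (if s' = i then 1 else 0) * cα j k (z4 s' c) - cα i j (z4 s' c) * (if s' = k then 1 else 0)
    := by
  rw [z5, fn_sub_apply, cβ_mul, cβ_mul]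
  simp only [counit_ι, cY_z4, counit_z4, cα_ι, cY_ι, cβ_ι]
  ring

theorem z5_sum (U : Idx g → Fn (Idx g)) (s' c' m : Idx g) :
    ∑ k, ∑ l, U k * U l * algebraMap ℚ _ (cβ k l m (z5 s' c'))
      = (if c' = m then U s' * U s' else 0) - (if s' = m then U s' * U c' else 0) := by
  have h : ∀ k l, U k * U l * algebraMap ℚ _ (cβ k l m (z5 s' c'))
      = (if s' = l then (if s' = k then (if c' = m then U k * U l else 0) else 0) else 0)
      - (if c' = l then (if s' = k then (if s' = m then U k * U l else 0) else 0) else 0)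
      - (if c' = l then (if s' = k then (if s' = m then U k * U l else 0) else 0) else 0)
      + (if s' = l then (if c' = k then (if s' = m then U k * U l else 0) else 0) else 0) := by
    intro k l
    have hi : ∀ (P : Prop) [Decidable P] (x : Fn (Idx g)), (if P then x else 0)
        = algebraMap ℚ _ (if P then 1 else 0) * x := by
      intro P _ x; split_ifs <;> simp
    rw [cβ_z5, cα_z4, cα_z4]
    simp only [hi, map_sub, map_mul]
    ring
  simp only [h, Finset.sum_add_distrib, Finset.sum_sub_distrib, Finset.sum_ite_eq, Finset.mem_univ,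
    if_true]
  split_ifs <;> ring

/-- the block word -/
def blk (s c : Idx g) : FreeAlgebra ℚ (Idx g) :=
  FreeAlgebra.ι ℚ s * FreeAlgebra.ι ℚ s * FreeAlgebra.ι ℚ s * z4 (bar s) c * z5 (bar s) (bar c)

/-- `R5_G` -/
theorem R5_G (s c : Idx g) : Rd (z5 (bar s) (bar c)) (z5_prim _ _) (Gf g)
    = sg (bar c) • (cY s * (vA cY cα c * cY s - vA cY cα s * cY c)) := by
  have hY : ∀ i, Rd (z5 (bar s) (bar c)) (z5_prim _ _) (cY i) = 0 := by
    intro i; apply WithConv.ext; ext w
    change cY i (w * z5 (bar s) (bar c)) = 0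
    rw [cY_mul, cY_z5, isPrim_counit (z5_prim _ _)]; ring
  have hA : ∀ i j, Rd (z5 (bar s) (bar c)) (z5_prim _ _) (cα i j) = 0 := by
    intro i j; apply WithConv.ext; ext w
    change cα i j (w * z5 (bar s) (bar c)) = 0
    rw [cα_mul, cY_z5, cα_z5, isPrim_counit (z5_prim _ _)]; ring
  have hB : ∀ i j k, Rd (z5 (bar s) (bar c)) (z5_prim _ _) (cβ i j k)
      = algebraMap ℚ _ (cβ i j k (z5 (bar s) (bar c))) := by
    intro i j k; apply WithConv.ext; ext w
    rw [Algebra.algebraMap_eq_smul_one]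
    change cβ i j k (w * z5 (bar s) (bar c)) = cβ i j k (z5 (bar s) (bar c)) * (1 : Fn (Idx g)) w
    rw [cβ_mul, cY_z5, cα_z5, isPrim_counit (z5_prim _ _), one_apply']; ring
  rw [Gf, der_Gof]
  have h1 : ∀ j, (Rd (z5 (bar s) (bar c)) (z5_prim _ _)) (vA cY cα j) = 0 := by
    intro j
    rw [der_vA _ _ _ hY]
    simp [hA]
  have h2 : ∀ m, (Rd (z5 (bar s) (bar c)) (z5_prim _ _)) (vB cY cβ m)
      = (if bar c = m then tl cY (bar s) * tl cY (bar s) else 0)
        - (if bar s = m then tl cY (bar s) * tl cY (bar c) else 0) := by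
    intro m
    rw [der_vB _ _ _ hY]
    simp only [hB]
    exact z5_sum _ _ _ _
  have h3 : ∑ m, tl (fun j => (Rd (z5 (bar s) (bar c)) (z5_prim _ _)) (vA cY cα j)) m
      * vB cY cβ m = 0 := by
    simp only [h1, tl, smul_zero, zero_mul, Finset.sum_const_zero]
  rw [h3, zero_add]
  simp only [h2, mul_sub, mul_ite, mul_zero, Finset.sum_sub_distrib, Finset.sum_ite_eq,
    Finset.mem_univ, if_true]
  have h4 : (algebraMap ℚ (Fn (Idx g)) (sg s)) * (algebraMap ℚ (Fn (Idx g)) (sg s)) = 1 := by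
    rw [← map_mul, sg_mul_self, map_one]
  simp only [tl, bar_bar, Algebra.smul_def, sg_bar, map_neg]
  linear_combination (-(algebraMap ℚ (Fn (Idx g)) (sg c)) * vA cY cα c * cY s * cY s
    + (algebraMap ℚ (Fn (Idx g)) (sg c)) * vA cY cα s * cY s * cY c) * h4

theorem R4_q {s c : Idx g} (h1 : c ≠ s) (h2 : c ≠ bar s) :
    Rd (z4 (bar s) c) (z4_prim _ _) (cY s * (vA cY cα c * cY s - vA cY cα s * cY c))
      = sg (bar s) • (cY s * cY s * cY s) := by
  have hY : ∀ i, Rd (z4 (bar s) c) (z4_prim _ _) (cY i) = 0 := by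
    intro i; apply WithConv.ext; ext w
    change cY i (w * z4 (bar s) c) = 0
    rw [cY_mul, cY_z4, counit_z4]; ring
  have hA : ∀ i j, Rd (z4 (bar s) c) (z4_prim _ _) (cα i j)
      = algebraMap ℚ _ (cα i j (z4 (bar s) c)) := by
    intro i j; apply WithConv.ext; ext w
    rw [Algebra.algebraMap_eq_smul_one]
    change cα i j (w * z4 (bar s) c) = cα i j (z4 (bar s) c) * (1 : Fn (Idx g)) w
    rw [cα_mul, cY_z4, counit_z4, one_apply']; ring
  have hs : s ≠ bar s := by
    rcases s with s | s <;> simp [bar]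
  have e1 : Rd (z4 (bar s) c) (z4_prim _ _) (vA cY cα c) = tl cY (bar s) := by
    rw [der_vA _ _ _ hY]
    simp only [hA, cα_z4, if_neg (Ne.symm h2), if_true, mul_one, mul_zero, sub_zero,
      apply_ite (algebraMap ℚ (Fn (Idx g))), map_one, map_zero, mul_ite, Finset.sum_ite_eq,
      Finset.mem_univ]
  have e2 : Rd (z4 (bar s) c) (z4_prim _ _) (vA cY cα s) = 0 := by
    rw [der_vA _ _ _ hY]
    simp only [hA, cα_z4]
    apply Finset.sum_eq_zero
    intro i _
    rw [if_neg h1, if_neg (Ne.symm hs)]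
    simp
  simp only [Derivation.leibniz, map_sub, hY, e1, e2, smul_eq_mul, mul_zero, zero_add, add_zero,
    sub_zero, tl, bar_bar, Algebra.smul_def]
  ring

theorem rho_q (s c : Idx g) :
    rho c (cY s * (vA cY cα c * cY s - vA cY cα s * cY c)) = 0 := by
  have e1 : rho c (vA cY cα c) = 0 := by
    simp only [vA, map_sum, map_mul, rho_cα, mul_zero, Finset.sum_const_zero]
  rw [map_mul, map_sub, map_mul, map_mul, e1, rho_cY]
  ring

theorem D3 {R : Type*} [CommRing R] [Algebra ℚ R] (D : Derivation ℚ R R) (h y : R) (hy : D y = 1) :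
    D (D (D (h * (y * y * y)))) = 6 * h + y * (18 * D h + 9 * y * D (D h)
      + y * y * D (D (D h))) := by
  have h1 : D 1 = 0 := D.map_one_eq_zero
  simp only [Derivation.leibniz, map_add, hy, smul_eq_mul, h1, mul_zero, mul_one,
    zero_add]
  ring

theorem Gf_blk {S : Set (Idx g)} {s c : Idx g} (hs : s ∉ S) (hc : c ∉ S) (h1 : c ≠ s)
    (h2 : c ≠ bar s) {w : FreeAlgebra ℚ (Idx g)} (hw : w ∈ TS S) (n : ℕ) :
    (Gf g ^ (n + 1)) (w * blk s c) = ((n + 1) * (6 * (sg (bar c) * sg (bar s)))) *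
      (Gf g ^ n) w := by
  set q : Fn (Idx g) := cY s * (vA cY cα c * cY s - vA cY cα s * cY c) with hq
  set R5 := Rd (z5 (bar s) (bar c)) (z5_prim _ _) with hR5
  set R4 := Rd (z4 (bar s) c) (z4_prim _ _) with hR4
  have hG5 : R5 (Gf g) = sg (bar c) • q := R5_G s c
  have hq4 : R4 q = sg (bar s) • (cY s * cY s * cY s) := R4_q h1 h2
  have hrq : rho c q = 0 := rho_q s c
  let s3 := FreeAlgebra.ι ℚ s * FreeAlgebra.ι ℚ s * FreeAlgebra.ι ℚ s
  have st1 : (Gf g ^ (n + 1)) (w * blk s c) = (R4 (R5 (Gf g ^ (n + 1)))) (w * s3) := by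
    change _ = (Gf g ^ (n + 1)) ((w * s3) * z4 (bar s) c * z5 (bar s) (bar c))
    congr 1
    simp only [blk, s3, mul_assoc]
  have hw3 : w * s3 ∈ TS (S ∪ {s}) := by
    have hs' : FreeAlgebra.ι ℚ s ∈ TS (S ∪ {s}) := ι_mem_TS (by simp)
    exact mul_mem (TS_mono Set.subset_union_left hw) (mul_mem (mul_mem hs' hs') hs')
  have hcS : c ∉ S ∪ {s} := by simp [hc, h1]
  have st2 : R4 (R5 (Gf g ^ (n + 1))) = (((n + 1 : ℕ) : ℚ) * sg (bar c)) •
      (R4 (Gf g ^ n) * q + Gf g ^ n * (sg (bar s) • (cY s * cY s * cY s))) := by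
    have e : R5 (Gf g ^ (n + 1)) = (((n + 1 : ℕ) : ℚ) * sg (bar c)) • (Gf g ^ n * q) := by
      rw [Derivation.leibniz_pow, hG5, Nat.add_sub_cancel]
      simp only [smul_eq_mul, nsmul_eq_mul, Algebra.smul_def, map_mul, map_natCast]
      ring
    rw [e, Derivation.map_smul, Derivation.leibniz, hq4]
    simp only [smul_eq_mul]
    congr 1
    ring
  have st3 : (R4 (R5 (Gf g ^ (n + 1)))) (w * s3) = (((n + 1 : ℕ) : ℚ) * sg (bar c)) *
      (sg (bar s) * (Gf g ^ n * (cY s * cY s * cY s)) (w * s3)) := by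
    have e2 : rho c (R4 (R5 (Gf g ^ (n + 1)))) = rho c ((((n + 1 : ℕ) : ℚ) * sg (bar c)) •
      (sg (bar s) • (Gf g ^ n * (cY s * cY s * cY s)))) := by
      rw [st2]
      simp only [map_smul, map_add, map_mul, hrq, mul_zero, zero_add, mul_smul_comm]
    rw [← rho_apply_TS hcS hw3, e2, rho_apply_TS hcS hw3]
    rfl
  have st4 : (Gf g ^ n * (cY s * cY s * cY s)) (w * s3) = 6 * (Gf g ^ n) w := by
    have e3 : (Gf g ^ n * (cY s * cY s * cY s)) (w * s3)
        = (Rι s (Rι s (Rι s (Gf g ^ n * (cY s * cY s * cY s))))) w := by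
      have e4 : w * s3 = w * FreeAlgebra.ι ℚ s * FreeAlgebra.ι ℚ s * FreeAlgebra.ι ℚ s := by
        change w * (FreeAlgebra.ι ℚ s * FreeAlgebra.ι ℚ s * FreeAlgebra.ι ℚ s) = _
        simp only [← mul_assoc]
      rw [e4]
      rfl
    have hys : Rι s (cY s) = 1 := by rw [Rι_cY, if_pos rfl]
    rw [e3, D3 (Rι s) _ _ hys, ← rho_apply_TS hs hw, map_add, map_mul, map_mul, rho_cY, zero_mul,
      add_zero, ← map_mul, rho_apply_TS hs hw]
    have : (6 : Fn (Idx g)) * Gf g ^ n = (6 : ℚ) • Gf g ^ n := by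
      rw [Algebra.smul_def, map_ofNat]
    rw [this]
    rfl
  rw [st1, st3, st4]
  push_cast
  ring

end

end Pool.Agent.MP_67ad14_al
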