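import Pool.Agent.MP_67ad14_al.Gfun3

/-!
# The free Lie algebra inside the free algebra; derivations
-/

namespace Pool.Agent.MP_67ad14_al

open TensorProduct Coalgebra WithConv

noncomputable section

attribute [local instance 100] LieRing.ofAssociativeRing

variable {g : ℕ}

/-- induction in the free Lie algebra -/
theorem FL_induction {p : FL g → Prop} (h0 : p 0) (hof : ∀ i, p (bv i))
    (hadd : ∀ x y, p x → p y → p (x + y)) (hsmul : ∀ (c : ℚ) x, p x → p (c • x))
    (hlie : ∀ x y, p x → p y → p ⁅x, y⁆) (z : FL g) : p z := by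
  let K : LieSubalgebra ℚ (FL g) :=
    { carrier := {z | p z}
      add_mem' := fun {a b} ha hb => hadd a b ha hb
      zero_mem' := h0
      smul_mem' := fun c x hx => hsmul c x hx
      lie_mem' := fun {a b} ha hb => hlie a b ha hb }
  have h : K.incl.comp (FreeLieAlgebra.lift ℚ fun i => (⟨bv i, hof i⟩ : K)) = LieHom.id := by
    apply FreeLieAlgebra.hom_ext
    intro i
    rw [LieHom.comp_apply, FreeLieAlgebra.lift_of_apply]
    rfl
  have h2 : (K.incl ((FreeLieAlgebra.lift ℚ fun i => (⟨bv i, hof i⟩ : K)) z)) = z :=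
    congrArg (fun (f : FL g →ₗ⁅ℚ⁆ FL g) => f z) h
  have h3 := ((FreeLieAlgebra.lift ℚ fun i => (⟨bv i, hof i⟩ : K)) z).2
  have h4 : p (K.incl ((FreeLieAlgebra.lift ℚ fun i => (⟨bv i, hof i⟩ : K)) z)) := h3
  rwa [h2] at h4

/-- derivations agreeing on generators are equal -/
theorem der_ext {D E : LieDerivation ℚ (FL g) (FL g)} (h : ∀ i, D (bv i) = E (bv i)) : D = E := by
  ext z
  induction z using FL_induction with
  | h0 => simp
  | hof i => exact h i
  | hadd x y hx hy => rw [map_add, map_add, hx, hy]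
  | hsmul c x hx => rw [map_smul, map_smul, hx]
  | hlie x y hx hy => rw [LieDerivation.apply_lie_eq_sub, LieDerivation.apply_lie_eq_sub, hx, hy]

/-- the Lie algebra `L + ε L` -/
def Eps (g : ℕ) : Type := FL g × FL g

instance : AddCommGroup (Eps g) := inferInstanceAs (AddCommGroup (FL g × FL g))
instance : Module ℚ (Eps g) := inferInstanceAs (Module ℚ (FL g × FL g))

theorem Eps.fst_add (x y : Eps g) : (x + y).1 = x.1 + y.1 := rfl
theorem Eps.snd_add (x y : Eps g) : (x + y).2 = x.2 + y.2 := rfl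
theorem Eps.fst_smul (c : ℚ) (y : Eps g) : (c • y).1 = c • y.1 := rfl
theorem Eps.snd_smul (c : ℚ) (y : Eps g) : (c • y).2 = c • y.2 := rfl
theorem Eps.fst_zero : (0 : Eps g).1 = 0 := rfl
theorem Eps.snd_zero : (0 : Eps g).2 = 0 := rfl

instance : Bracket (Eps g) (Eps g) := ⟨fun x y => (⁅x.1, y.1⁆, ⁅x.1, y.2⁆ + ⁅x.2, y.1⁆)⟩

theorem Eps.fst_lie (x y : Eps g) : ⁅x, y⁆.1 = ⁅x.1, y.1⁆ := rfl
theorem Eps.snd_lie (x y : Eps g) : ⁅x, y⁆.2 = ⁅x.1, y.2⁆ + ⁅x.2, y.1⁆ := rfl

theorem Eps.ext' {x y : Eps g} (h1 : x.1 = y.1) (h2 : x.2 = y.2) : x = y := Prod.ext h1 h2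

instance : LieRing (Eps g) where
  add_lie x y z := by
    apply Eps.ext'
    · simp only [Eps.fst_lie, Eps.fst_add, add_lie]
    · simp only [Eps.snd_lie, Eps.fst_add, Eps.snd_add, add_lie]; abel
  lie_add x y z := by
    apply Eps.ext'
    · simp only [Eps.fst_lie, Eps.fst_add, lie_add]
    · simp only [Eps.snd_lie, Eps.fst_add, Eps.snd_add, lie_add]; abel
  lie_self x := by
    apply Eps.ext'
    · simp only [Eps.fst_lie, lie_self, Eps.fst_zero]
    · simp only [Eps.snd_lie, Eps.snd_zero]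
      rw [← lie_skew x.2 x.1, add_neg_cancel]
  leibniz_lie x y z := by
    apply Eps.ext'
    · simp only [Eps.fst_lie, Eps.fst_add]
      exact leibniz_lie _ _ _
    · simp only [Eps.snd_lie, Eps.fst_lie, Eps.snd_add, lie_add, add_lie]
      rw [leibniz_lie x.1 y.1 z.2, leibniz_lie x.1 y.2 z.1, leibniz_lie x.2 y.1 z.1]
      abel

instance : LieAlgebra ℚ (Eps g) where
  lie_smul c x y := by
    apply Eps.ext'
    · simp only [Eps.fst_lie, Eps.fst_smul, lie_smul]
    · simp only [Eps.snd_lie, Eps.snd_smul, Eps.fst_smul, lie_smul, smul_add]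

/-- the derivation of the free Lie algebra with given values on the generators, as the second
component of a morphism to `L + ε L` -/
def exPhi (v : Idx g → FL g) : FL g →ₗ⁅ℚ⁆ Eps g :=
  FreeLieAlgebra.lift ℚ fun i => ((bv i, v i) : Eps g)

theorem exPhi_fst (v : Idx g → FL g) (z : FL g) : (exPhi v z).1 = z := by
  induction z using FL_induction with
  | h0 => rw [map_zero]; rfl
  | hof i => rw [exPhi, FreeLieAlgebra.lift_of_apply]
  | hadd x y hx hy => rw [map_add, Eps.fst_add, hx, hy]
  | hsmul c x hx => rw [map_smul, Eps.fst_smul, hx]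
  | hlie x y hx hy => rw [LieHom.map_lie, Eps.fst_lie, hx, hy]

/-- the derivation of the free Lie algebra with given values on the generators -/
def exDer (v : Idx g → FL g) : LieDerivation ℚ (FL g) (FL g) where
  toFun z := (exPhi v z).2
  map_add' x y := by rw [map_add, Eps.snd_add]
  map_smul' c x := by rw [map_smul, Eps.snd_smul]; rfl
  leibniz' x y := by
    change (exPhi v ⁅x, y⁆).2 = ⁅x, (exPhi v y).2⁆ - ⁅y, (exPhi v x).2⁆
    rw [LieHom.map_lie, Eps.snd_lie, exPhi_fst, exPhi_fst, ← lie_skew y, sub_neg_eq_add]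

@[simp] theorem exDer_bv (v : Idx g → FL g) (i : Idx g) : exDer v (bv i) = v i := by
  change (exPhi v (bv i)).2 = v i
  rw [exPhi, FreeLieAlgebra.lift_of_apply]

/-- the inclusion of the free Lie algebra in the free algebra -/
def jL (g : ℕ) : FL g →ₗ⁅ℚ⁆ FreeAlgebra ℚ (Idx g) := FreeLieAlgebra.lift ℚ (FreeAlgebra.ι ℚ)

@[simp] theorem jL_bv (i : Idx g) : jL g (bv i) = FreeAlgebra.ι ℚ i :=
  FreeLieAlgebra.lift_of_apply _ _

theorem jL_lie (x y : FL g) : jL g ⁅x, y⁆ = jL g x * jL g y - jL g y * jL g x := by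
  rw [LieHom.map_lie, LieRing.of_associative_ring_bracket]

theorem jL_prim (z : FL g) : IsPrim (jL g z) := by
  induction z using FL_induction with
  | h0 => rw [map_zero]; exact isPrim_zero
  | hof i => rw [jL_bv]; exact isPrim_ι i
  | hadd x y hx hy => rw [map_add]; exact hx.add hy
  | hsmul c x hx => rw [map_smul]; exact hx.smul c
  | hlie x y hx hy => rw [jL_lie]; exact hx.lie hy

theorem jL_counit (z : FL g) : counit (R := ℚ) (jL g z) = 0 := isPrim_counit (jL_prim z)

/-- the derivation of the free algebra extending a derivation of the free Lie algebra -/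
def exT (D : LieDerivation ℚ (FL g) (FL g)) : FreeAlgebra ℚ (Idx g) →ₗ[ℚ] FreeAlgebra ℚ (Idx g) :=
  der fun i => jL g (D (bv i))

theorem exT_jL (D : LieDerivation ℚ (FL g) (FL g)) (z : FL g) :
    exT D (jL g z) = jL g (D z) := by
  induction z using FL_induction with
  | h0 => simp
  | hof i => rw [jL_bv, exT, der_ι]
  | hadd x y hx hy => simp only [map_add, hx, hy]
  | hsmul c x hx => simp only [map_smul, hx]
  | hlie x y hx hy =>
    have h := fun a b => der_mul (fun i => jL g (D (bv i))) a b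
    rw [jL_lie, map_sub]
    unfold exT at hx hy ⊢
    rw [h, h, hx, hy, LieDerivation.apply_lie_eq_sub, map_sub, jL_lie, jL_lie]
    abel

/-- the divergence -/
def dv (D : LieDerivation ℚ (FL g) (FL g)) : FreeAlgebra ℚ (Idx g) :=
  ∑ i, fox i (jL g (D (bv i)))

theorem fox_der (v : Idx g → FreeAlgebra ℚ (Idx g)) (hv : ∀ i, counit (R := ℚ) (v i) = 0)
    (l : Idx g) (w : FreeAlgebra ℚ (Idx g)) :
    fox l (der v w) = der v (fox l w) + ∑ j, fox j w * fox l (v j) := by
  have h : fox l ∘ₗ der v = der v ∘ₗ fox l + ∑ j, LinearMap.mulRight ℚ (fox l (v j)) ∘ₗ fox j := by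
    apply linext
    · simp
    · intro w i
      simp only [LinearMap.comp_apply, der_mul, der_ι, map_add, fox_mul_ι, LinearMap.add_apply,
        LinearMap.sum_apply, LinearMap.mulRight_apply, ite_mul, zero_mul, Finset.sum_ite_eq,
        Finset.mem_univ, if_true]
      rw [fox_mul, hv, zero_smul, add_zero]
      split_ifs
      · abel
      · simp
  have h2 := congrArg (fun (f : FreeAlgebra ℚ (Idx g) →ₗ[ℚ] FreeAlgebra ℚ (Idx g)) => f w) h
  simpa only [LinearMap.comp_apply, LinearMap.add_apply, LinearMap.sum_apply,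
    LinearMap.mulRight_apply] using h2

/-- divergence of a bracket -/
theorem dv_lie (D E : LieDerivation ℚ (FL g) (FL g)) :
    dv ⁅D, E⁆ = exT D (dv E) - exT E (dv D)
      + ∑ i, ∑ j, (fox j (jL g (E (bv i))) * fox i (jL g (D (bv j)))
        - fox i (jL g (D (bv j))) * fox j (jL g (E (bv i)))) := by
  have h1 : ∀ i, fox i (jL g (⁅D, E⁆ (bv i))) = exT D (fox i (jL g (E (bv i))))
      - exT E (fox i (jL g (D (bv i))))
      + (∑ j, fox j (jL g (E (bv i))) * fox i (jL g (D (bv j)))
      - ∑ j, fox j (jL g (D (bv i))) * fox i (jL g (E (bv j)))) := by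
    intro i
    rw [LieDerivation.lie_apply, map_sub, ← exT_jL D (E (bv i)), ← exT_jL E (D (bv i)), map_sub]
    unfold exT
    rw [fox_der _ (fun i => jL_counit _), fox_der _ (fun i => jL_counit _)]
    abel
  have h2 : ∑ i, ∑ j, fox j (jL g (D (bv i))) * fox i (jL g (E (bv j)))
      = ∑ i, ∑ j, fox i (jL g (D (bv j))) * fox j (jL g (E (bv i))) := Finset.sum_comm
  simp only [dv, h1, Finset.sum_add_distrib, Finset.sum_sub_distrib, map_sum, h2]

end

end Pool.Agent.MP_67ad14_al
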