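import Mathlib

/-!
# The Lie algebra `h_{g,1}` and its `Sp`-invariant 2-cocycles of weight `n`
-/

namespace Pool.Agent.MP_67ad14_al

noncomputable section

/-- Index set of the symplectic basis of `H = ℚ^{2g}`: `inl i` is `x_i`, `inr i` is `y_i`,
with `ω(x_i, y_i) = 1`. -/
abbrev Idx (g : ℕ) := Fin g ⊕ Fin g

/-- The free Lie algebra `𝓛` over `ℚ` on `H`. -/
abbrev FL (g : ℕ) := FreeLieAlgebra ℚ (Idx g)

/-- The basis vectors of `H`, as elements of the free Lie algebra. -/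
abbrev bv {g : ℕ} (i : Idx g) : FL g := FreeLieAlgebra.of ℚ i

/-- The symplectic element `ω₀ = ∑ [x_i, y_i]`. -/
def omega0 (g : ℕ) : FL g := ∑ i : Fin g, ⁅(bv (Sum.inl i) : FL g), (bv (Sum.inr i) : FL g)⁆

/-- The graded pieces `𝓛(k)` of the free Lie algebra: `𝓛(1) = H` and `𝓛(k+1) = [H, 𝓛(k)]`. -/
def FLdeg (g : ℕ) : ℕ → Submodule ℚ (FL g)
  | 0 => ⊥
  | 1 => Submodule.span ℚ (Set.range bv)
  | (k + 2) => Submodule.span ℚ {z | ∃ i : Idx g, ∃ w ∈ FLdeg g (k + 1), z = ⁅(bv i : FL g), w⁆}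

/-- `D` lies in `h_{g,1}(k)`: it is a derivation of the free Lie algebra with
`D(H) ⊆ 𝓛(k+1)` and `D(ω₀) = 0`. -/
def IsDeg {g : ℕ} (k : ℕ) (D : LieDerivation ℚ (FL g) (FL g)) : Prop :=
  D (omega0 g) = 0 ∧ ∀ i : Idx g, D (bv i) ∈ FLdeg g (k + 1)

/-- The Lie algebra `h_{g,1} = ⨁_{k ≥ 1} h_{g,1}(k)`, as the Lie subalgebra of the Lie algebra of
all derivations of `𝓛` (with the commutator bracket) generated by the `h_{g,1}(k)`, `k ≥ 1`; it is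
their sum (`mem_hSub_iff`), as `[h_{g,1}(k), h_{g,1}(l)] ⊆ h_{g,1}(k + l)`. -/
def hSub (g : ℕ) : LieSubalgebra ℚ (LieDerivation ℚ (FL g) (FL g)) :=
  LieSubalgebra.lieSpan ℚ _ {D | ∃ k : ℕ, 1 ≤ k ∧ IsDeg k D}

/-- The Lie algebra `h_{g,1}`, as a type. -/
def Hg (g : ℕ) : Type := hSub g

instance (g : ℕ) : LieRing (Hg g) := LieSubalgebra.lieRing ℚ _ (hSub g)

instance (g : ℕ) : LieAlgebra ℚ (Hg g) := LieSubalgebra.lieAlgebra ℚ _ (hSub g)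

/-- The derivation of `𝓛` underlying an element of `h_{g,1}`. -/
def Hg.der {g : ℕ} (D : Hg g) : LieDerivation ℚ (FL g) (FL g) := D.1

/-- Bilinear forms on `h_{g,1}`. -/
abbrev Form (g : ℕ) := Hg g →ₗ[ℚ] Hg g →ₗ[ℚ] ℚ

/-- `2`-cocycles of weight `n` of `h_{g,1}` with trivial coefficients `ℚ`: alternating bilinear
forms satisfying the cocycle identity which vanish on `h_{g,1}(i) × h_{g,1}(j)` for
`i + j ≠ n`. -/
def IsCocycle {g : ℕ} (n : ℕ) (c : Form g) : Prop :=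
  (∀ D, c D D = 0) ∧
  (∀ D E F : Hg g, c ⁅D, E⁆ F + c ⁅E, F⁆ D + c ⁅F, D⁆ E = 0) ∧
  ∀ i j : ℕ, i + j ≠ n → ∀ D E : Hg g, IsDeg i D.der → IsDeg j E.der → c D E = 0

/-- `2`-coboundaries of weight `n`: the forms `(D, E) ↦ f ([D, E])`, `f` a linear functional
on `h_{g,1}` vanishing on `h_{g,1}(k)` for `k ≠ n`. -/
def IsCoboundary {g : ℕ} (n : ℕ) (c : Form g) : Prop :=
  ∃ f : Hg g →ₗ[ℚ] ℚ, (∀ k : ℕ, k ≠ n → ∀ D : Hg g, IsDeg k D.der → f D = 0) ∧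
    ∀ D E : Hg g, c D E = f ⁅D, E⁆

/-- The action of a matrix on the free Lie algebra: `x_i ↦ ∑_j A_{ji} x_j`. -/
def spL {g : ℕ} (A : Matrix (Idx g) (Idx g) ℚ) : FL g →ₗ⁅ℚ⁆ FL g :=
  FreeLieAlgebra.lift ℚ fun i => ∑ j, A j i • (bv j : FL g)

/-- `Sp(2g, ℚ)`-invariance of a bilinear form on `h_{g,1}`, for the action
`D ↦ D' = A ∘ D ∘ A⁻¹`, i.e. `D' ∘ A = A ∘ D`. -/
def IsSpInvariant {g : ℕ} (c : Form g) : Prop :=
  ∀ A ∈ Matrix.symplecticGroup (Fin g) ℚ, ∀ D E D' E' : Hg g,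
    (∀ z : FL g, D'.der (spL A z) = spL A (D.der z)) →
    (∀ z : FL g, E'.der (spL A z) = spL A (E.der z)) → c D' E' = c D E

end

end Pool.Agent.MP_67ad14_al
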